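import Mathlib
import Pool.Agent.H.MP_1f2de8_an.E

set_option autoImplicit false

/-!
Formal power series attached to alpha-convex functions.
-/

namespace Pool.Agent.L5helper81.AC

open Finset PowerSeries

/-- truncated binomial series -/
noncomputable def bn (β : ℝ) (j : ℕ) : ℝ := ∏ i ∈ range j, (β - i) / (i + 1)

theorem bn_succ (β : ℝ) (j : ℕ) : (j + 1) * bn β (j + 1) = (β - j) * bn β j := by
  have : (j : ℝ) + 1 ≠ 0 := by positivity
  simp only [bn, prod_range_succ]; field_simp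

theorem d_pow (a : ℝ⟦X⟧) (c : ℝ) (j : ℕ) :
    d⁄dX ℝ (C c * a ^ (j + 1)) = C ((j + 1) * c) * a ^ j * d⁄dX ℝ a := by
  rw [Derivation.leibniz, derivative_C, Derivation.leibniz_pow]
  simp only [smul_eq_mul, nsmul_eq_mul, map_mul, map_add, map_natCast, map_one, Nat.add_sub_cancel]
  push_cast; ring

theorem trunc_ode (a : ℝ⟦X⟧) (β : ℝ) (n : ℕ) :
    (1 + a) * d⁄dX ℝ (∑ j ∈ range (n + 1), C (bn β j) * a ^ j) - C β *
      d⁄dX ℝ (1 + a) * ∑ j ∈ range (n + 1), C (bn β j) * a ^ j =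
      a ^ n * (C ((n - β) * bn β n) * d⁄dX ℝ a) := by
  induction n with
  | zero => simp [bn]
  | succ n ih =>
    have e := congrArg (fun t : ℝ => (C t : ℝ⟦X⟧)) (bn_succ β n)
    rw [sum_range_succ, map_add, d_pow]
    simp only [map_add, Derivation.map_one_eq_zero, map_mul,
      map_sub, map_natCast, map_one, Nat.cast_succ] at ih e ⊢
    linear_combination ih + a ^ n * d⁄dX ℝ a * e

/-- the series `(1 + a) ^ β` -/
noncomputable def pw (β : ℝ) (a : ℝ⟦X⟧) : ℝ⟦X⟧ :=
  PowerSeries.mk fun n => ∑ j ∈ range (n + 1), bn β j * coeff n (a ^ j)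

theorem coeff_pow_zero {a : ℝ⟦X⟧} (ha : constantCoeff a = 0) {n j : ℕ} (h : n < j) :
    coeff n (a ^ j) = 0 :=
  X_pow_dvd_iff.1 (pow_dvd_pow_of_dvd (X_dvd_iff.2 ha) j) n h

theorem pw_trunc {a : ℝ⟦X⟧} (ha : constantCoeff a = 0) (β : ℝ) (n : ℕ) :
    X ^ (n + 1) ∣ pw β a - ∑ j ∈ range (n + 1), C (bn β j) * a ^ j := by
  rw [X_pow_dvd_iff]
  intro m hm
  rw [map_sub, sub_eq_zero, pw, coeff_mk, map_sum]
  simp only [coeff_C_mul]
  rw [← sum_subset (range_subset_range.2 (show m + 1 ≤ n + 1 by omega))]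
  intro j _ hj
  rw [coeff_pow_zero ha (by simpa using hj), mul_zero]

theorem dvd_d {A : ℝ⟦X⟧} {n : ℕ} (h : X ^ (n + 1) ∣ A) : X ^ n ∣ d⁄dX ℝ A := by
  rw [X_pow_dvd_iff] at h ⊢
  intro m hm
  rw [coeff_derivative, h _ (by omega), zero_mul]

theorem pw_zero {a : ℝ⟦X⟧} (β : ℝ) : constantCoeff (pw β a) = 1 := by
  rw [← coeff_zero_eq_constantCoeff_apply, pw, coeff_mk]
  simp [bn]

theorem pw_ode {a : ℝ⟦X⟧} (ha : constantCoeff a = 0) (β : ℝ) :
    (1 + a) * d⁄dX ℝ (pw β a) = C β * d⁄dX ℝ (1 + a) * pw β a := by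
  rw [← sub_eq_zero]
  ext n
  rw [map_zero]
  refine (X_pow_dvd_iff (n := n + 1)).1 ?_ n n.lt_succ_self
  obtain ⟨u, hu⟩ := pw_trunc ha β (n + 1)
  obtain ⟨v, hv⟩ := dvd_d (pw_trunc ha β (n + 1))
  have e := trunc_ode a β (n + 1)
  obtain ⟨w, hw⟩ := pow_dvd_pow_of_dvd (X_dvd_iff.2 ha) (n + 1)
  rw [map_sub] at hv
  rw [hw] at e
  refine ⟨w * (C (((n + 1 : ℕ) - β) * bn β (n + 1)) * d⁄dX ℝ a) + (1 + a) * v -
    C β * d⁄dX ℝ (1 + a) * (X * u), ?_⟩
  linear_combination e + (1 + a) * hv - C β * d⁄dX ℝ (1 + a) * hu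

/-- the coefficients of the inverse of `(1 - X) ^ (2 / α) * (...)` divided by `1 - X` -/
noncomputable def cf (β : ℝ) : ℕ → ℝ
  | 0 => 1
  | k + 1 => (k + 1 - β) / (β + (k + 1)) * cf β k

/-- the coefficients of `(1 - X) ^ (-2 β)` -/
noncomputable def hf (β : ℝ) (k : ℕ) : ℝ := ∏ i ∈ range k, (2 * β + i) / (i + 1)

theorem hf_succ (β : ℝ) (k : ℕ) : (k + 1) * hf β (k + 1) = (2 * β + k) * hf β k := by
  have : (k : ℝ) + 1 ≠ 0 := by positivity
  simp only [hf, prod_range_succ]; field_simp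

theorem hf_ode (β : ℝ) : (1 - X) * d⁄dX ℝ (PowerSeries.mk (hf β)) =
    C (2 * β) * PowerSeries.mk (hf β) := by
  ext k
  rw [sub_mul, one_mul, map_sub, coeff_C_mul, coeff_mk]
  rcases k with _ | k
  · have := hf_succ β 0
    simp at this
    simp [coeff_derivative, this]
  · have := hf_succ β (k + 1)
    rw [coeff_succ_X_mul, coeff_derivative, coeff_derivative, coeff_mk, coeff_mk]
    push_cast at this ⊢
    linear_combination this

theorem cf_rec {α β : ℝ} (hα : 0 < α) (hβ : α * β = 1) (k : ℕ) :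
    (1 + α * (k + 1)) * cf β (k + 1) = (α * (k + 1) - 1) * cf β k := by
  have b0 : 0 < β := by by_contra h; nlinarith
  have : β + (k + 1) ≠ 0 := by positivity
  rw [cf]; field_simp
  linear_combination (-(k + 1 : ℝ) - (k + 1)) * cf β k * hβ

theorem cf_ode {α β : ℝ} (hα : 0 < α) (hβ : α * β = 1) :
    C α * X * (1 - X) * d⁄dX ℝ (PowerSeries.mk (cf β)) +
      (1 + C (1 - α) * X) * PowerSeries.mk (cf β) = 1 := by
  have hc := cf_rec hα hβ
  have e : C α * X * (1 - X) * d⁄dX ℝ (PowerSeries.mk (cf β)) +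
      (1 + C (1 - α) * X) * PowerSeries.mk (cf β) =
      X * (C α * d⁄dX ℝ (PowerSeries.mk (cf β)) + C (1 - α) * PowerSeries.mk (cf β) -
        C α * (X * d⁄dX ℝ (PowerSeries.mk (cf β)))) + PowerSeries.mk (cf β) := by ring
  rw [e]
  ext k
  rcases k with _ | k
  · simp [cf]
  · rw [map_add, coeff_succ_X_mul, coeff_mk, coeff_one, if_neg k.succ_ne_zero, map_sub, map_add,
      coeff_C_mul, coeff_C_mul, coeff_C_mul, coeff_derivative, coeff_mk, coeff_mk]
    rcases k with _ | k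
    · have := hc 0
      simp at this ⊢
      linear_combination this
    · have := hc (k + 1)
      rw [coeff_succ_X_mul, coeff_derivative, coeff_mk]
      push_cast at this ⊢
      linear_combination this

/-- the coefficients of the hypergeometric series `G` with `k(z) = z G(z) ^ α` -/
noncomputable def gf (α : ℝ) (k : ℕ) : ℝ := (∏ i ∈ range k, (2 / α + i) / (i + 1)) / (1 + α * k)

theorem gf_eq {α β : ℝ} (hα : 0 < α) (hβ : α * β = 1) (k : ℕ) :
    (1 + α * k) * gf α k = hf β k := by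
  have : 1 + α * k ≠ 0 := by positivity
  have b : 2 / α = 2 * β := by field_simp; linarith
  rw [gf, hf, b]; field_simp

theorem gf_prod {α β : ℝ} (hα : 0 < α) (hβ : α * β = 1) :
    (1 - X) * PowerSeries.mk (cf β) * PowerSeries.mk (hf β) = PowerSeries.mk (gf α) := by
  have h1 := cf_ode hα hβ
  have h2 := hf_ode β
  obtain ⟨Z, hZ⟩ : ∃ Z, Z = (1 - X) * PowerSeries.mk (cf β) * PowerSeries.mk (hf β) := ⟨_, rfl⟩
  have d : d⁄dX ℝ Z = -PowerSeries.mk (cf β) * PowerSeries.mk (hf β) +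
      (1 - X) * d⁄dX ℝ (PowerSeries.mk (cf β)) * PowerSeries.mk (hf β) +
      (1 - X) * PowerSeries.mk (cf β) * d⁄dX ℝ (PowerSeries.mk (hf β)) := by
    rw [hZ, Derivation.leibniz, Derivation.leibniz, map_sub, Derivation.map_one_eq_zero, derivative_X]
    simp only [smul_eq_mul]; ring
  have ab : (C α : ℝ⟦X⟧) * C (2 * β) = 2 := by
    rw [← map_mul, show α * (2 * β) = 2 by linarith]; exact map_ofNat C 2
  have c1 : (C (1 - α) : ℝ⟦X⟧) = 1 - C α := by simp
  have key : Z + C α * (X * d⁄dX ℝ Z) = PowerSeries.mk (hf β) := by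
    rw [d, hZ]
    rw [c1] at h1
    linear_combination PowerSeries.mk (hf β) * h1 + C α * X * PowerSeries.mk (cf β) * h2 +
      X * PowerSeries.mk (cf β) * PowerSeries.mk (hf β) * ab
  rw [← hZ]
  ext k
  have e := congrArg (coeff k) key
  have e2 : coeff k (X * d⁄dX ℝ Z) = k * coeff k Z := by
    rcases k with _ | k
    · simp
    · rw [coeff_succ_X_mul, coeff_derivative]; push_cast; ring
  rw [map_add, coeff_C_mul, e2, coeff_mk, ← gf_eq hα hβ] at e
  have : 1 + α * k ≠ 0 := by positivity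
  rw [coeff_mk]
  refine mul_left_cancel₀ this ?_
  linear_combination e

/-- the series `k(z) / z` of the extremal function -/
noncomputable def VV (α : ℝ) : ℝ⟦X⟧ := pw α (PowerSeries.mk (gf α) - 1)

theorem gf_zero (α : ℝ) : gf α 0 = 1 := by simp [gf]

theorem VV_zero (α : ℝ) : constantCoeff (VV α) = 1 := pw_zero α

theorem VV_ode {α β : ℝ} (hα : 0 < α) (hβ : α * β = 1) {Φ : ℝ⟦X⟧}
    (hΦ : Φ * ((1 - X) * PowerSeries.mk (cf β)) = 1) :
    X * d⁄dX ℝ (VV α) = (Φ - 1) * VV α := by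
  have g0 : constantCoeff (PowerSeries.mk (gf α) - 1) = 0 := by
    rw [map_sub, ← coeff_zero_eq_constantCoeff_apply, coeff_mk, gf_zero]; simp
  have h1 := pw_ode g0 α
  rw [add_sub_cancel] at h1
  have h2 := gf_prod hα hβ
  have h3 : PowerSeries.mk (hf β) = PowerSeries.mk (gf α) +
      C α * (X * d⁄dX ℝ (PowerSeries.mk (gf α))) := by
    ext k
    rw [map_add, coeff_C_mul, coeff_mk, coeff_mk, ← gf_eq hα hβ]
    rcases k with _ | k
    · simp
    · rw [coeff_succ_X_mul, coeff_derivative, coeff_mk]; push_cast; ring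
  have h4 : Φ * PowerSeries.mk (gf α) = PowerSeries.mk (hf β) := by
    rw [← h2]; linear_combination PowerSeries.mk (hf β) * hΦ
  have gu : (PowerSeries.mk (gf α) : ℝ⟦X⟧) ≠ 0 := by
    intro h
    have := congrArg (coeff 0) h
    rw [coeff_mk, gf_zero] at this
    simp at this
  refine mul_left_cancel₀ gu ?_
  change _ * (X * d⁄dX ℝ (pw α (PowerSeries.mk (gf α) - 1))) = _ * (_ * pw α _)
  linear_combination X * h1 - pw α (PowerSeries.mk (gf α) - 1) * (h3 + h4)

theorem ode_unique {Ψ A B : ℂ⟦X⟧} (h0 : constantCoeff Ψ = 0) (hA0 : constantCoeff A = 1)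
    (hB0 : constantCoeff B = 1) (hA : X * d⁄dX ℂ A = Ψ * A) (hB : X * d⁄dX ℂ B = Ψ * B) :
    A = B := by
  rw [← sub_eq_zero]
  have h : X * d⁄dX ℂ (A - B) = Ψ * (A - B) := by rw [map_sub]; linear_combination hA - hB
  have z0 : coeff 0 (A - B) = 0 := by simp [hA0, hB0]
  generalize A - B = D at h z0
  ext n
  rw [map_zero]
  induction n using Nat.strong_induction_on with
  | _ n ih =>
    rcases n with _ | n
    · exact z0
    have e := congrArg (coeff (n + 1)) h
    rw [Pool.Agent.H.MP_1f2de8_an.xd, coeff_mul] at e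
    rw [sum_eq_zero] at e
    · exact (mul_eq_zero.1 e).resolve_left (by exact_mod_cast n.succ_ne_zero)
    · intro p hp
      replace hp := HasAntidiagonal.mem_antidiagonal.1 hp
      rcases Nat.eq_zero_or_pos p.1 with h1 | h1
      · rw [h1, coeff_zero_eq_constantCoeff_apply, h0, zero_mul]
      · rw [ih p.2 (by omega), mul_zero]

end Pool.Agent.L5helper81.AC
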