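import Pool.Agent.L5helper81.AcA

set_option autoImplicit false

/-!
Sharp coefficient bounds for alpha-convex functions.
-/

namespace Pool.Agent.L5helper81.AC

open Filter Topology Metric Complex Finset PowerSeries
open scoped Real ComplexConjugate
open Pool.Agent.H.MP_7a60ac_an Pool.Agent.H.MP_0e1b7e_an Pool.Agent.H.MP_1f2de8_an

/-- alpha-convex functions: the analytic and univalent functions on the unit disc with
`f 0 = 0`, `f' 0 = 1` that satisfy the differential condition of Mocanu. -/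
def MM (α : ℝ) (f : ℂ → ℂ) : Prop :=
  DifferentiableOn ℂ f (ball 0 1) ∧ Set.InjOn f (ball 0 1) ∧ f 0 = 0 ∧ deriv f 0 = 1 ∧
    ∀ z ∈ ball (0 : ℂ) 1, z ≠ 0 → 0 < (α * (1 + z * deriv (deriv f) z / deriv f z) +
      (1 - α) * (z * deriv f z / f z)).re

theorem map_d (A : ℝ⟦X⟧) : d⁄dX ℂ (PowerSeries.map ofRealHom A) =
    PowerSeries.map ofRealHom (d⁄dX ℝ A) := by
  ext n
  simp [coeff_derivative]

/-- the data attached to `α` -/
theorem data {α : ℝ} (h0 : 0 < α) (h1 : α < 1) : ∃ (W : ℂ → ℂ) (Φ : ℝ⟦X⟧),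
    DifferentiableOn ℂ W (ball 0 1) ∧ W 0 = 1 ∧ (deriv W 0).re < 0 ∧
    (∀ z ∈ ball (0 : ℂ) 1, α * (z * deriv W z) * (1 - z) + (1 + z) * W z = 1 - z) ∧
    (∀ z ∈ ball (0 : ℂ) 1, W z ≠ 0 ∧ 0 < ((W z)⁻¹).re) ∧
    ts (fun z => (W z)⁻¹) = PowerSeries.map ofRealHom Φ ∧ constantCoeff Φ = 1 ∧
    X * d⁄dX ℝ (VV α) = (Φ - 1) * VV α ∧
    ∃ μ χ : ℕ → ℝ, (∀ i, 0 ≤ μ i) ∧
      (∀ m, 4 * ∑ i ∈ range (m + 1), |χ i| ≤ μ 0) ∧ χ 0 = 0 ∧ χ 1 = 0 ∧ ∀ j,
      coeff (j + 1) Φ = ∑ i ∈ range (j + 1), μ i + χ (j + 1) ∧ 1 ≤ coeff (j + 1) Φ := by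
  have b := ball_mem_nhds (0 : ℂ) one_pos
  obtain ⟨β, hβ⟩ : ∃ β, β = 1 / α := ⟨_, rfl⟩
  have ab : α * β = 1 := by rw [hβ]; field_simp
  have b1 : 1 < β := by rw [hβ, lt_div_iff₀ h0]; linarith
  obtain ⟨W, dW, tW, oW⟩ := exF h0 (c := cf β) rfl (cf_rec h0 ab)
  have W0 : W 0 = 1 := by
    have := congrArg constantCoeff tW
    rw [map_mul, ← coeff_zero_eq_constantCoeff_apply (PowerSeries.map _ _), coeff_map, coeff_mk] at this
    simpa [ts, co, cf] using this
  have W1 : (deriv W 0).re < 0 := by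
    have := congrArg (coeff 1) tW
    have e : coeff 1 ((1 - X) * PowerSeries.map ofRealHom (PowerSeries.mk (cf β))) =
        ((cf β 1 - cf β 0 : ℝ) : ℂ) := by
      rw [sub_mul, one_mul, map_sub, show (1 : ℕ) = 0 + 1 from rfl, coeff_succ_X_mul]
      simp
    rw [e] at this
    have e2 : coeff 1 (ts W) = deriv W 0 := by simp [ts, co]
    have e3 : cf β 1 < 1 := by
      have : cf β 1 = (1 - β) / (β + 1) := by simp [cf]
      rw [this, div_lt_one (by linarith)]; linarith
    have e4 : cf β 0 = 1 := rfl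
    rw [← e2, this, ofReal_re, e4]
    linarith
  have Wb : ∀ z ∈ ball (0 : ℂ) 1, W z ≠ 0 ∧ 0 < ((W z)⁻¹).re := fun z hz => by
    obtain ⟨c, hc1, hc2⟩ := exb h0 dW W0 oW z hz
    have c1 : ‖c‖ < 1 := hc1.trans_lt (mem_ball_zero_iff.1 hz)
    have k := k_re (x := 1) norm_one (mem_ball_zero_iff.2 c1)
    rw [one_mul] at k
    rw [← hc2, inv_div]
    exact ⟨div_ne_zero k.1 (Pool.Agent.H.MP_1f2de8_an.n1 c1), k.2⟩
  have u : constantCoeff ((1 - X) * PowerSeries.mk (cf β)) ≠ 0 := by
    rw [map_mul, ← coeff_zero_eq_constantCoeff_apply (PowerSeries.mk _), coeff_mk]; simp [cf]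
  have hΦ : ((1 - X) * PowerSeries.mk (cf β))⁻¹ * ((1 - X) * PowerSeries.mk (cf β)) = 1 :=
    PowerSeries.inv_mul_cancel _ u
  generalize ((1 - X) * PowerSeries.mk (cf β))⁻¹ = Φ at hΦ
  have tΦ : ts (fun z => (W z)⁻¹) = PowerSeries.map ofRealHom Φ := by
    have aW : AnalyticAt ℂ W 0 := dW.analyticAt b
    have aWi : AnalyticAt ℂ (fun z => (W z)⁻¹) 0 := aW.inv (by rw [W0]; exact one_ne_zero)
    have e1 : ts (fun z => (W z)⁻¹) * ts W = 1 := by
      rw [← ts_mul aWi aW, ts_congr (g := fun _ => (1 : ℂ)), ts_const, map_one]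
      exact mem_of_superset b fun z hz => inv_mul_cancel₀ (Wb z hz).1
    have e2 : PowerSeries.map ofRealHom Φ * ts W = 1 := by
      have := congrArg (PowerSeries.map ofRealHom) hΦ
      rw [map_mul, map_mul, map_sub, map_one, map_X] at this
      rw [tW]; exact this
    have tu : ts W ≠ 0 := fun h => by rw [h, mul_zero] at e1; exact zero_ne_one e1
    exact mul_right_cancel₀ tu (e1.trans e2.symm)
  refine ⟨W, Φ, dW, W0, W1, oW, Wb, tΦ, ?_, VV_ode h0 ab hΦ, dec b1 rfl (fun k => rfl) hΦ⟩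
  have := congrArg constantCoeff hΦ
  rw [map_mul, map_mul, ← coeff_zero_eq_constantCoeff_apply (PowerSeries.mk _), coeff_mk] at this
  simpa [cf] using this

/-- The upper bound. -/
theorem upper {α : ℝ} (h0 : 0 < α) (h1 : α < 1) {f : ℂ → ℂ} (hf : MM α f) (n : ℕ) :
    ‖co f (n + 1)‖ ≤ coeff n (VV α) := by
  have b := ball_mem_nhds (0 : ℂ) one_pos
  obtain ⟨W, Φ, dW, W0, W1, oW, Wb, tΦ, Φ0, hV, μ, χ, hμ, h4, χ0, χ1, hj⟩ := data h0 h1
  obtain ⟨df, hi, f0, f1, hp⟩ := hf
  obtain ⟨g, hg⟩ : ∃ g, g = dslope f 0 := ⟨_, rfl⟩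
  have dg : DifferentiableOn ℂ g (ball 0 1) := by
    rw [hg, Complex.differentiableOn_dslope b]; exact df
  have fg : f = fun z => z * g z := funext fun z => by
    have := sub_smul_dslope f 0 z
    rw [sub_zero, f0, sub_zero, smul_eq_mul] at this
    rw [hg]; exact this.symm
  have g0 : g 0 = 1 := by rw [hg, dslope_same, f1]
  have gn : ∀ z ∈ ball (0 : ℂ) 1, g z ≠ 0 := fun z hz e => by
    have h2 : f z = f 0 := by rw [f0, fg]; simp [e]
    have := hi hz (mem_ball_self one_pos) h2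
    rw [this, g0] at e
    exact one_ne_zero e
  obtain ⟨-, -, fn⟩ := inv_an isOpen_ball (df.analyticOnNhd isOpen_ball) hi
  have dg' : ∀ z ∈ ball (0 : ℂ) 1, HasDerivAt g (deriv g z) z := fun z hz =>
    (dg.differentiableAt (isOpen_ball.mem_nhds hz)).hasDerivAt
  have ddf : DifferentiableOn ℂ (deriv f) (ball 0 1) := df.deriv isOpen_ball
  have ddf' : ∀ z ∈ ball (0 : ℂ) 1, HasDerivAt (deriv f) (deriv (deriv f) z) z := fun z hz =>
    (ddf.differentiableAt (isOpen_ball.mem_nhds hz)).hasDerivAt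
  have ddg : DifferentiableOn ℂ (deriv (deriv f)) (ball 0 1) := ddf.deriv isOpen_ball
  have fd : ∀ z ∈ ball (0 : ℂ) 1, deriv f z = g z + z * deriv g z := fun z hz => by
    have := (hasDerivAt_id' z).fun_mul (dg' z hz)
    rw [← fg] at this
    rw [this.deriv]; ring
  obtain ⟨w, hw⟩ : ∃ w, w = fun z => g z / deriv f z := ⟨_, rfl⟩
  have dw : DifferentiableOn ℂ w (ball 0 1) := hw ▸ dg.fun_div ddf fn
  have dp : DifferentiableOn ℂ (fun z => α * (1 + z * deriv (deriv f) z / deriv f z) +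
      (1 - α) * (deriv f z / g z)) (ball 0 1) := by
    have e1 : DifferentiableOn ℂ (fun z => z * deriv (deriv f) z / deriv f z) (ball 0 1) :=
      DifferentiableOn.fun_div (by fun_prop) ddf fn
    have e2 : DifferentiableOn ℂ (fun z => deriv f z / g z) (ball 0 1) := ddf.fun_div dg gn
    fun_prop
  have wn : ∀ z ∈ ball (0 : ℂ) 1, w z ≠ 0 := fun z hz => hw ▸ div_ne_zero (gn z hz) (fn z hz)
  have w0 : w 0 = 1 := by simp [hw, g0, f1]
  obtain ⟨ω, dω, ω0, hω⟩ := subW h0 dW W0 W1 oW dw dp w0 (by simp [g0, f1]) (fun z hz => by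
      rcases eq_or_ne z 0 with rfl | z0
      · simp [g0, f1]
      · have := hp z hz z0
        have e : z * deriv f z / f z = deriv f z / g z := by
          have e3 : f z = z * g z := by rw [fg]
          rw [e3, mul_div_mul_left _ _ z0]
        rwa [e] at this) (fun z hz => by
      have e := ((dg' z hz).fun_div (ddf' z hz) (fn z hz)).deriv
      rw [← hw] at e
      have h2 := fd z hz
      have h3 := fn z hz
      have h4 := gn z hz
      rw [e]
      simp only [hw]
      field_simp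
      linear_combination -(α * deriv f z) * h2)
  have aw : AnalyticAt ℂ w 0 := dw.analyticAt b
  have ag : AnalyticAt ℂ g 0 := dg.analyticAt b
  have aW : AnalyticAt ℂ W 0 := dW.analyticAt b
  have awi : AnalyticAt ℂ (fun z => (w z)⁻¹) 0 := aw.inv (by rw [w0]; exact one_ne_zero)
  have hU : X * d⁄dX ℂ (ts g) = (ts (fun z => (w z)⁻¹) - 1) * ts g := by
    have e1 : ts (fun z => z * deriv g z) = X * d⁄dX ℂ (ts g) := by
      rw [ts_mul (f := fun z => z) (by fun_prop) ag.deriv, ts_id, ts_deriv]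
    have e2 : ts (fun z => z * deriv g z + g z) = ts (fun z => (w z)⁻¹ * g z) :=
      ts_congr (mem_of_superset b fun z hz => by
        have h2 := fd z hz
        have h3 := fn z hz
        have h4 := gn z hz
        simp only [Set.mem_setOf_eq, hw, inv_div]
        rw [div_mul_cancel₀ _ h4, h2]; ring)
    rw [ts_add (by have := ag.deriv; fun_prop) ag, ts_mul awi ag, e1] at e2
    linear_combination e2
  have cts : ∀ (F : ℂ → ℂ) j, coeff j (ts F) = co F j := fun F j => coeff_mk _ _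
  have k0 : ∀ F : ℂ → ℂ, constantCoeff (ts F) = F 0 := fun F => by
    rw [← coeff_zero_eq_constantCoeff_apply, cts]; simp [co]
  have hQ : ∀ m, ∑ j ∈ range (m + 1), ‖coeff j (ts (fun z => (w z)⁻¹) - 1)‖ ≤
      ∑ j ∈ range (m + 1), coeff j (Φ - 1) := fun m => by
    have hs := schur dω ω0 (fun z hz => (hω z hz).1.trans_lt (mem_ball_zero_iff.1 hz)) hμ (h4 m)
      χ0 χ1
    rw [P] at hs
    have v : ∀ j, coeff j (Φ - 1) = ∑ i ∈ range j, μ i + χ j := fun j => by
      rcases j with _ | j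
      · simp [Φ0, χ0]
      · rw [map_sub, coeff_one, if_neg j.succ_ne_zero, sub_zero]; exact (hj j).1
    rw [sum_congr rfl fun j _ => v j]
    refine le_trans (le_of_eq (sum_congr rfl fun j hjm => ?_)) hs
    congr 1
    have aω : AnalyticAt ℂ ω 0 := dω.analyticAt b
    have aφ : AnalyticAt ℂ (fun z => (W z)⁻¹) 0 := aW.inv (by rw [W0]; exact one_ne_zero)
    have hc := ts_comp aφ aω ω0 (m + 1)
    rw [ts_congr (g := fun z => (w z)⁻¹) (mem_of_superset b fun z hz => by
      simp only [Set.mem_setOf_eq, (hω z hz).2])] at hc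
    have hd := X_pow_dvd_iff.1 hc j (mem_range.1 hjm)
    rw [map_sub, sub_eq_zero] at hd
    rw [map_sub, hd, ← map_sub]
    congr 1
    rw [T, sum_range_succ', sum_range_succ', pow_zero, mul_one, mul_one]
    have cφ : ∀ j, co (fun z => (W z)⁻¹) j = (coeff j Φ : ℝ) := fun j => by
      rw [← cts, tΦ]; simp
    have e0 : (C (co (fun z => (W z)⁻¹) 0) : ℂ⟦X⟧) = 1 := by
      rw [cφ, coeff_zero_eq_constantCoeff_apply, Φ0]; simp
    rw [e0, add_sub_assoc, sub_self, add_zero]
    simp only [range_zero, sum_empty, χ0, add_zero, ofReal_zero, map_zero]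
    refine sum_congr rfl fun i _ => ?_
    rw [cφ, (hj i).1]
  have := maj (U := ts g) (V := VV α) (Φ := Φ - 1) (by rw [k0, g0]) (VV_zero α) hU
    (by rw [map_sub, k0, w0]; simp) hV (by rw [map_sub, Φ0]; simp)
    (fun j => by rw [map_sub, coeff_one, if_neg j.succ_ne_zero, sub_zero]; exact (hj j).2) hQ n
  have e : co f (n + 1) = coeff n (ts g) := by
    rw [← cts]
    rw [show ts f = X * ts g from ?_, coeff_succ_X_mul]
    conv_lhs => rw [fg]
    rw [ts_mul (f := fun z => z) (by fun_prop) ag, ts_id]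
  rw [e]; exact this

/-- A starlike function is injective. -/
theorem starlike_inj {L : ℂ → ℂ} (hL : ∀ z ∈ ball (0 : ℂ) 1, ∃ l : ℂ, HasDerivAt L l z ∧
    0 < (1 + z * l).re) : Set.InjOn (fun z => z * exp (L z)) (ball 0 1) := by
  have inj : Set.InjOn (fun s => s + L (exp s)) {s : ℂ | s.re < 0} := by
    refine nw (convex_halfSpace_re_lt 0) fun s hs => ?_
    have hz : exp s ∈ ball (0 : ℂ) 1 := by
      rw [mem_ball_zero_iff, norm_exp]; exact (Real.exp_lt_exp.2 hs).trans_eq Real.exp_zero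
    obtain ⟨l, hl, hp⟩ := hL _ hz
    refine ⟨1 + exp s * l, hp, ?_⟩
    have := (hasDerivAt_id' s).fun_add (HasDerivAt.comp s hl (hasDerivAt_exp s))
    rw [mul_comm] at this
    exact this
  intro x hx y hy e
  simp only at e
  rcases eq_or_ne x 0 with x0 | x0
  · rw [x0, zero_mul] at e
    rw [x0]
    exact ((mul_eq_zero.1 e.symm).resolve_right (exp_ne_zero _)).symm
  rcases eq_or_ne y 0 with y0 | y0
  · rw [y0, zero_mul] at e
    exact absurd ((mul_eq_zero.1 e).resolve_right (exp_ne_zero _)) x0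
  have e' : exp (log x + L (exp (log x))) = exp (log y + L (exp (log y))) := by
    rw [exp_add, exp_add, exp_log x0, exp_log y0]; exact e
  obtain ⟨n, hn⟩ := exp_eq_exp_iff_exists_int.1 e'
  have hy' : exp (log y + n * (2 * π * I)) = y := by
    rw [exp_add, exp_int_mul_two_pi_mul_I, mul_one, exp_log y0]
  have hre : (log y + n * (2 * π * I)).re < 0 := by
    have h1 : (log y).re < 0 := by
      rw [log_re]; exact Real.log_neg (norm_pos_iff.2 y0) (mem_ball_zero_iff.1 hy)
    simpa using h1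
  have hlx : (log x).re < 0 := by
    rw [log_re]; exact Real.log_neg (norm_pos_iff.2 x0) (mem_ball_zero_iff.1 hx)
  have := @inj (log x) hlx (log y + n * (2 * π * I)) hre (by
    simp only
    rw [hn, hy', exp_log y0]; ring)
  rw [← exp_log x0, this, hy']

/-- The extremal function. -/
theorem extremal {α : ℝ} (h0 : 0 < α) (h1 : α < 1) :
    ∃ k, MM α k ∧ (∀ z ∈ ball (0 : ℂ) 1, z ≠ 0 → α * (1 + z * deriv (deriv k) z / deriv k z) +
      (1 - α) * (z * deriv k z / k z) = (1 + z) / (1 - z)) ∧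
      ∀ n, co k (n + 1) = (coeff n (VV α) : ℝ) := by
  have b := ball_mem_nhds (0 : ℂ) one_pos
  obtain ⟨W, Φ, dW, W0, W1, oW, Wb, tΦ, Φ0, hV, -⟩ := data h0 h1
  have dWi : DifferentiableOn ℂ (fun z => (W z)⁻¹) (ball 0 1) := dW.fun_inv fun z hz => (Wb z hz).1
  obtain ⟨L, L0, hL⟩ := (DifferentiableOn.isExactOn_ball
    ((Complex.differentiableOn_dslope b).2 dWi)).with_val_at 0 0
  obtain ⟨l, hl⟩ : ∃ l, l = dslope (fun z => (W z)⁻¹) 0 := ⟨_, rfl⟩
  rw [← hl] at hL
  have zl : ∀ z, z * l z = (W z)⁻¹ - 1 := fun z => by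
    have := sub_smul_dslope (fun z => (W z)⁻¹) 0 z
    rw [sub_zero, smul_eq_mul, ← hl, W0, inv_one] at this
    exact this
  have dW' : ∀ z ∈ ball (0 : ℂ) 1, HasDerivAt W (deriv W z) z := fun z hz =>
    (dW.differentiableAt (isOpen_ball.mem_nhds hz)).hasDerivAt
  have dK : ∀ z ∈ ball (0 : ℂ) 1, HasDerivAt (fun z => exp (L z)) (exp (L z) * l z) z :=
    fun z hz => (hL z hz).cexp
  have dKo : DifferentiableOn ℂ (fun z => exp (L z)) (ball 0 1) := fun z hz =>
    (dK z hz).differentiableAt.differentiableWithinAt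
  have dk : ∀ z ∈ ball (0 : ℂ) 1, HasDerivAt (fun z => z * exp (L z)) (exp (L z) * (W z)⁻¹) z :=
    fun z hz => by
    refine ((hasDerivAt_id' z).fun_mul (dK z hz)).congr_deriv ?_
    linear_combination exp (L z) * zl z
  have ddk : ∀ z ∈ ball (0 : ℂ) 1, deriv (deriv fun z => z * exp (L z)) z =
      exp (L z) * l z * (W z)⁻¹ + exp (L z) * (-deriv W z / (W z) ^ 2) := fun z hz => by
    have e : deriv (fun z => z * exp (L z)) =ᶠ[𝓝 z] fun z => exp (L z) * (W z)⁻¹ :=
      mem_of_superset (isOpen_ball.mem_nhds hz) fun y hy => (dk y hy).deriv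
    rw [e.deriv_eq]
    exact ((dK z hz).fun_mul ((dW' z hz).fun_inv (Wb z hz).1)).deriv
  have he : ∀ z ∈ ball (0 : ℂ) 1, z ≠ 0 →
      (α : ℂ) * (1 + z * deriv (deriv fun z => z * exp (L z)) z /
        deriv (fun z => z * exp (L z)) z) + (1 - α) *
        (z * deriv (fun z => z * exp (L z)) z / (z * exp (L z))) = (1 + z) / (1 - z) := by
    intro z hz z0
    have hE := exp_ne_zero (L z)
    have hW := (Wb z hz).1
    have k := k_re (x := 1) norm_one hz
    rw [one_mul] at k
    rw [ddk z hz, (dk z hz).deriv]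
    have h2 := zl z
    have h3 := oW z hz
    have k1 := k.1
    have h4 : z * (exp (L z) * l z * (W z)⁻¹ + exp (L z) * (-deriv W z / (W z) ^ 2)) /
        (exp (L z) * (W z)⁻¹) = (W z)⁻¹ - 1 - z * deriv W z / W z := by
      rw [← h2]; field_simp; ring
    have h5 : z * (exp (L z) * (W z)⁻¹) / (z * exp (L z)) = (W z)⁻¹ := by field_simp
    rw [h4, h5]
    field_simp
    linear_combination -h3
  refine ⟨fun z => z * exp (L z), ⟨?_, ?_, ?_, ?_, ?_⟩, he, ?_⟩
  · exact fun z hz => (dk z hz).differentiableAt.differentiableWithinAt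
  · refine starlike_inj fun z hz => ⟨l z, hL z hz, ?_⟩
    rw [zl, add_sub_cancel]
    exact (Wb z hz).2
  · simp
  · rw [(dk 0 (mem_ball_self one_pos)).deriv, L0, W0]; simp
  · intro z hz z0
    have k := k_re (x := 1) norm_one hz
    rw [one_mul] at k
    rw [he z hz z0]; exact k.2
  · have tK : ts (fun z => exp (L z)) = PowerSeries.map ofRealHom (VV α) := by
      have aK : AnalyticAt ℂ (fun z => exp (L z)) 0 := dKo.analyticAt b
      have aWi : AnalyticAt ℂ (fun z => (W z)⁻¹) 0 := dWi.analyticAt b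
      refine ode_unique (Ψ := PowerSeries.map ofRealHom Φ - 1) ?_ ?_ ?_ ?_ ?_
      · rw [← tΦ, map_sub, ← coeff_zero_eq_constantCoeff_apply, ts, coeff_mk]
        simp [co, W0]
      · rw [← coeff_zero_eq_constantCoeff_apply, ts, coeff_mk]
        simp [co, L0]
      · rw [← coeff_zero_eq_constantCoeff_apply, coeff_map, coeff_zero_eq_constantCoeff_apply,
          VV_zero, map_one]
      · have e1 : ts (fun z => z * deriv (fun z => exp (L z)) z) =
            X * d⁄dX ℂ (ts fun z => exp (L z)) := by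
          rw [ts_mul (f := fun z => z) (by fun_prop) aK.deriv, ts_id, ts_deriv]
        have e2 : ts (fun z => z * deriv (fun z => exp (L z)) z + exp (L z)) =
            ts (fun z => (W z)⁻¹ * exp (L z)) :=
          ts_congr (mem_of_superset b fun z hz => by
            simp only [Set.mem_setOf_eq, (dK z hz).deriv]
            linear_combination exp (L z) * zl z)
        rw [ts_add (by have := aK.deriv; fun_prop) aK, ts_mul aWi aK, e1, tΦ] at e2
        linear_combination e2
      · have := congrArg (PowerSeries.map ofRealHom) hV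
        rw [map_mul, map_mul, map_sub, map_one, map_X, ← map_d] at this
        exact this
    intro n
    have aK : AnalyticAt ℂ (fun z => exp (L z)) 0 := dKo.analyticAt b
    have e : co (fun z => z * exp (L z)) (n + 1) = coeff (n + 1) (ts fun z => z * exp (L z)) :=
      (coeff_mk _ _).symm
    rw [e, ts_mul (f := fun z => z) (by fun_prop) aK, ts_id, coeff_succ_X_mul, tK, coeff_map]
    rfl

end Pool.Agent.L5helper81.AC
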