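import Pool.Agent.L5helper81.AnalyticNorm

/-!
# Analytic approximation of the norms of `ℓ²`
-/

open Filter Topology Set
open scoped InnerProductSpace

namespace Pool.Agent.L5helper81.AnalyticL2

open Pool.Agent.L5helper81.AnalyticNorm

abbrev H := lp (fun _ : ℕ => ℝ) 2

/-- The tail of a vector. -/
noncomputable def T (n : ℕ) : H →L[ℝ] H :=
  LinearMap.mkContinuous
    { toFun := fun x => ⟨fun i => if i < n then 0 else x i, (lp.memℓp x).mono' fun i => by
        split_ifs <;> simp⟩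
      map_add' := by
        intro x y
        apply lp.ext
        funext i
        change (if i < n then 0 else x i + y i) = (if i < n then 0 else x i) + (if i < n then 0 else y i)
        split_ifs <;> simp
      map_smul' := by
        intro c x
        apply lp.ext
        funext i
        change (if i < n then 0 else c * x i) = c * (if i < n then 0 else x i)
        split_ifs <;> simp } 1 (by
      intro x
      rw [one_mul]
      refine lp.norm_mono (by simp) fun i => ?_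
      change ‖if i < n then 0 else x i‖ ≤ ‖x i‖
      split_ifs <;> simp)

theorem T_apply (n : ℕ) (x : H) (i : ℕ) : T n x i = if i < n then 0 else x i := rfl

theorem norm_T_le (n : ℕ) : ‖T n‖ ≤ 1 := LinearMap.mkContinuous_norm_le _ zero_le_one _

theorem norm_T_apply_le (n : ℕ) (x : H) : ‖T n x‖ ≤ ‖x‖ := by
  have := (T n).le_of_opNorm_le (norm_T_le n) x
  rwa [one_mul] at this

theorem T_T (n : ℕ) (x : H) : T n (T n x) = T n x := by
  apply lp.ext
  funext i
  rw [T_apply, T_apply]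
  split_ifs <;> rfl

theorem sub_T (n : ℕ) (x : H) : x - T n x = ∑ i ∈ Finset.range n, lp.single 2 i (x i) := by
  apply lp.ext
  funext j
  rw [lp.coeFn_sub, Pi.sub_apply, T_apply, lp.coeFn_sum, Finset.sum_apply]
  simp only [lp.single_apply, Pi.single_apply]
  rw [Finset.sum_ite_eq (Finset.range n) j]
  simp only [Finset.mem_range]
  split_ifs <;> simp

theorem tendsto_T (x : H) : Tendsto (fun n => T n x) atTop (𝓝 0) := by
  have h1 := (lp.hasSum_single (p := 2) (by simp) x).tendsto_sum_nat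
  have h2 : Tendsto (fun n => x - ∑ i ∈ Finset.range n, lp.single 2 i (x i)) atTop (𝓝 (x - x)) :=
    tendsto_const_nhds.sub h1
  rw [sub_self] at h2
  refine h2.congr fun n => ?_
  rw [← sub_T]; abel

theorem tendsto_norm_T (x : H) : Tendsto (fun n => ‖T n x‖) atTop (𝓝 0) := by
  simpa using (tendsto_T x).norm

theorem inner_T (n : ℕ) (v x : H) : ⟪v, T n x⟫_ℝ = ⟪T n v, T n x⟫_ℝ := by
  rw [lp.inner_eq_tsum, lp.inner_eq_tsum]
  refine tsum_congr fun i => ?_
  rw [T_apply, T_apply]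
  split_ifs <;> simp

theorem tendsto_comp_T (φ : H →L[ℝ] ℝ) : Tendsto (fun n => ‖φ ∘L T n‖) atTop (𝓝 0) := by
  set v := (InnerProductSpace.toDual ℝ H).symm φ with hv
  have h1 : ∀ n, ‖φ ∘L T n‖ ≤ ‖T n v‖ := by
    intro n
    refine ContinuousLinearMap.opNorm_le_bound _ (norm_nonneg _) fun x => ?_
    have e : (φ ∘L T n) x = ⟪T n v, T n x⟫_ℝ := by
      rw [← inner_T, hv, InnerProductSpace.toDual_symm_apply]; rfl
    rw [e]
    refine (norm_inner_le_norm _ _).trans ?_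
    exact mul_le_mul_of_nonneg_left (norm_T_apply_le n x) (norm_nonneg _)
  exact squeeze_zero (fun n => norm_nonneg _) h1 (tendsto_norm_T v)

section Main

variable {N : H → ℝ} {a b : ℝ}

/-- Norming functionals. -/
theorem exists_norming (hadd : ∀ x y, N (x + y) ≤ N x + N y) (hsmul : ∀ (c : ℝ) x, N (c • x) = |c| * N x)
    (hN0 : ∀ x, 0 ≤ N x) (hN : ∀ x, N x ≤ b * ‖x‖) (x : H) (hx : x ≠ 0) :
    ∃ φ : H →L[ℝ] ℝ, (∀ y, φ y ≤ N y) ∧ φ x = N x := by
  obtain ⟨g, hg1, hg2⟩ := exists_extension_of_le_sublinear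
    (LinearPMap.mkSpanSingleton x (N x) hx) N
    (fun c hc y => by rw [hsmul, abs_of_pos hc]) hadd (by
      rintro ⟨y, hy⟩
      obtain ⟨c, rfl⟩ := Submodule.mem_span_singleton.1 hy
      have e := LinearPMap.mkSpanSingleton'_apply (σ := RingHom.id ℝ) x (N x)
        (fun c hc => (smul_eq_zero.1 hc).elim (fun hc => by rw [hc, RingHom.map_zero, zero_smul])
          fun hx' => absurd hx' hx) c hy
      refine (le_of_eq e).trans ?_
      change c • N x ≤ N (c • x)
      rw [hsmul, smul_eq_mul]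
      exact mul_le_mul_of_nonneg_right (le_abs_self c) (hN0 x))
  have hbound : ∀ y, ‖g y‖ ≤ b * ‖y‖ := by
    intro y
    rw [Real.norm_eq_abs, abs_le]
    have h1 := (hg2 y).trans (hN y)
    have h2 := (hg2 (-y)).trans (hN (-y))
    rw [map_neg, norm_neg] at h2
    constructor <;> linarith
  refine ⟨g.mkContinuous b hbound, hg2, ?_⟩
  have h1 := hg1 ⟨x, Submodule.mem_span_singleton_self x⟩
  have h2 := LinearPMap.mkSpanSingleton'_apply_self (σ := RingHom.id ℝ) x (N x)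
    (fun c hc => (smul_eq_zero.1 hc).elim (fun hc => by rw [hc, RingHom.map_zero, zero_smul])
      fun hx' => absurd hx' hx) (Submodule.mem_span_singleton_self x)
  exact h1.trans h2

/-- The functionals of level `n`. -/
def KF (N : H → ℝ) (α : ℝ) (n : ℕ) : Set (H →L[ℝ] ℝ) :=
  {ψ | ∃ φ : H →L[ℝ] ℝ, (∀ y, φ y ≤ N y) ∧ ‖φ ∘L T n‖ ≤ α ∧ ψ = φ ∘L (ContinuousLinearMap.id ℝ H - T n)}

theorem KF_apply {α : ℝ} {n : ℕ} {φ : H →L[ℝ] ℝ} (x : H) :
    (φ ∘L (ContinuousLinearMap.id ℝ H - T n)) x = φ x - φ (T n x) := by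
  simp

theorem comp_T_le {φ : H →L[ℝ] ℝ} {α : ℝ} {n : ℕ} (h : ‖φ ∘L T n‖ ≤ α) (x : H) :
    |φ (T n x)| ≤ α * ‖T n x‖ := by
  have h1 := (φ ∘L T n).le_of_opNorm_le h (T n x)
  have e : (φ ∘L T n) (T n x) = φ (T n x) := by
    change φ (T n (T n x)) = _
    rw [T_T]
  rw [e, Real.norm_eq_abs] at h1
  exact h1

theorem abs_le_of_le (hsmul : ∀ (c : ℝ) x, N (c • x) = |c| * N x) {φ : H →L[ℝ] ℝ} (h : ∀ y, φ y ≤ N y)
    (x : H) : |φ x| ≤ N x := by
  rw [abs_le]
  have h1 := h (-x)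
  have h2 : N (-x) = N x := by
    have := hsmul (-1) x
    simpa using this
  rw [map_neg, h2] at h1
  exact ⟨by linarith, h x⟩

theorem KF_le (hsmul : ∀ (c : ℝ) x, N (c • x) = |c| * N x) {α : ℝ} {n : ℕ} {ψ : H →L[ℝ] ℝ}
    (hψ : ψ ∈ KF N α n) (x : H) : |ψ x| ≤ N x + α * ‖T n x‖ := by
  obtain ⟨φ, h1, h2, rfl⟩ := hψ
  rw [KF_apply (α := α)]
  have h3 := abs_sub (φ x) (φ (T n x))
  have h4 := abs_le_of_le hsmul h1 x
  have h5 := comp_T_le h2 x
  linarith

theorem totallyBounded_KF (hsmul : ∀ (c : ℝ) x, N (c • x) = |c| * N x) (hN : ∀ x, N x ≤ b * ‖x‖)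
    (α : ℝ) (n : ℕ) : TotallyBounded (KF N α n) := by
  let ev : ℕ → (H →L[ℝ] ℝ) := fun i => innerSL ℝ (lp.single 2 i (1 : ℝ) : H)
  have hev : ∀ i (x : H), ev i x = x i := by
    intro i x
    change ⟪(lp.single 2 i (1 : ℝ) : H), x⟫_ℝ = x i
    rw [lp.inner_single_left]
    simp
  let L : (Fin n → ℝ) → (H →L[ℝ] ℝ) := fun c => ∑ i : Fin n, c i • ev i
  have hL : Continuous L := by
    refine continuous_finsetSum _ fun i _ => ?_
    exact (continuous_apply i).smul continuous_const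
  have hcomp : IsCompact (L '' Metric.closedBall 0 b) := (isCompact_closedBall _ _).image hL
  refine hcomp.totallyBounded.subset ?_
  rintro ψ ⟨φ, h1, -, rfl⟩
  refine ⟨fun i => φ (lp.single 2 (i : ℕ) (1 : ℝ)), ?_, ?_⟩
  · rw [mem_closedBall_zero_iff, pi_norm_le_iff_of_nonneg]
    · intro i
      rw [Real.norm_eq_abs]
      refine (abs_le_of_le hsmul h1 _).trans ((hN _).trans (le_of_eq ?_))
      rw [lp.norm_single (by simp)]
      simp
    · have := (abs_nonneg _).trans ((abs_le_of_le hsmul h1 (lp.single 2 0 (1 : ℝ))).trans (hN _))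
      rw [lp.norm_single (by simp)] at this
      simpa using this
  · ext x
    rw [KF_apply (α := α), ← map_sub, sub_T, map_sum]
    have e1 : L (fun i => φ (lp.single 2 (i : ℕ) (1 : ℝ))) x =
        ∑ i : Fin n, φ (lp.single 2 (i : ℕ) (1 : ℝ)) * x i := by
      change (∑ i : Fin n, φ (lp.single 2 (i : ℕ) (1 : ℝ)) • ev i) x = _
      rw [_root_.sum_apply]
      refine Finset.sum_congr rfl fun i _ => ?_
      rw [_root_.smul_apply, hev, smul_eq_mul]
    rw [e1, Finset.sum_range]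
    refine Finset.sum_congr rfl fun i _ => ?_
    have e2 : (lp.single 2 (i : ℕ) (x (i : ℕ)) : H) = (x (i : ℕ)) • lp.single 2 (i : ℕ) (1 : ℝ) := by
      rw [← lp.single_smul, smul_eq_mul, mul_one]
    rw [e2, map_smul, smul_eq_mul, mul_comm]

/-- The main approximation statement. -/
theorem exists_family (hadd : ∀ x y, N (x + y) ≤ N x + N y)
    (hsmul : ∀ (c : ℝ) x, N (c • x) = |c| * N x) (ha : 0 < a) (hb : 0 < b)
    (haN : ∀ x, a * ‖x‖ ≤ N x) (hN : ∀ x, N x ≤ b * ‖x‖) {s : ℝ} (hs : 0 < s) (hs1 : s ≤ 1) :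
    ∃ (I : Type) (_ : Countable I) (ℓ : I → H →L[ℝ] ℝ) (q : I → H →L[ℝ] H) (C : ℝ), 0 < C ∧
      (∀ i, ‖ℓ i‖ ≤ C) ∧ (∀ i, ‖q i‖ ≤ C) ∧
      (∀ x : H, x ≠ 0 → ∃ i, N x ≤ kk ℓ q i x ∧ 0 < kk ℓ q i x ∧ ∀ j, kk ℓ q j x ≤ kk ℓ q i x) ∧
      (∀ (i : I) (x : H), kk ℓ q i x ≤ (1 + s) * (1 + s) * N x) := by
  have hN0 : ∀ x, 0 ≤ N x := fun x => le_trans (by positivity) (haN x)
  set α : ℝ := a * s / 2 with hα
  have hαpos : 0 < α := by positivity
  -- the sequence
  let c : ℕ → ℝ := fun n => s * (1 / ((n : ℝ) + 1))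
  have hc0 : ∀ n, 0 < c n := fun n => by positivity
  have hcs : ∀ n, c n ≤ s := fun n => by
    have : 1 / ((n : ℝ) + 1) ≤ 1 := by
      rw [div_le_one (by positivity)]
      have : (0 : ℝ) ≤ n := Nat.cast_nonneg n
      linarith
    calc c n = s * (1 / ((n : ℝ) + 1)) := rfl
      _ ≤ s * 1 := mul_le_mul_of_nonneg_left this hs.le
      _ = s := mul_one s
  have hclim : Tendsto c atTop (𝓝 0) := by
    have := (tendsto_one_div_add_atTop_nhds_zero_nat (𝕜 := ℝ)).const_mul s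
    rwa [mul_zero] at this
  let η : ℕ → ℝ := fun n => a * c n / (2 * (1 + c n))
  have hη : ∀ n, 0 < η n := fun n => by
    have := hc0 n
    positivity
  have hnet : ∀ n, ∃ F : Set (H →L[ℝ] ℝ), F ⊆ KF N α n ∧ F.Finite ∧
      KF N α n ⊆ ⋃ y ∈ F, Metric.ball y (η n) := fun n =>
    Metric.finite_approx_of_totallyBounded (totallyBounded_KF hsmul hN α n) (η n) (hη n)
  choose F hF1 hF2 hF3 using hnet
  have hFc : ∀ n, Finite (F n) := fun n => (hF2 n).to_subtype
  let I : Type := Σ n, F n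
  let ℓ : I → H →L[ℝ] ℝ := fun i => (1 + c i.1) • i.2.1
  let q : I → H →L[ℝ] H := fun i => ((1 + c i.1) * α) • T i.1
  have hkk : ∀ (i : I) (x : H), kk ℓ q i x = (1 + c i.1) * (|i.2.1 x| + α * ‖T i.1 x‖) := by
    intro i x
    have h1 : 0 < 1 + c i.1 := by have := hc0 i.1; linarith
    change |(1 + c i.1) * i.2.1 x| + ‖((1 + c i.1) * α) • T i.1 x‖ = _
    rw [abs_mul, norm_smul, Real.norm_eq_abs, abs_of_pos h1, abs_of_pos (mul_pos h1 hαpos)]
    ring
  -- upper bounds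
  have hup : ∀ (i : I) (x : H), kk ℓ q i x ≤ (1 + c i.1) * (N x + 2 * α * ‖T i.1 x‖) := by
    intro i x
    rw [hkk]
    have h1 := KF_le hsmul (hF1 i.1 i.2.2) x
    have h2 : 0 ≤ 1 + c i.1 := by have := hc0 i.1; linarith
    refine mul_le_mul_of_nonneg_left ?_ h2
    linarith
  have hup2 : ∀ (i : I) (x : H), kk ℓ q i x ≤ (1 + s) * (1 + s) * N x := by
    intro i x
    refine (hup i x).trans ?_
    have h1 := norm_T_apply_le i.1 x
    have h2 := haN x
    have h3 : 2 * α * ‖T i.1 x‖ ≤ s * N x := by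
      calc 2 * α * ‖T i.1 x‖ ≤ 2 * α * ‖x‖ := mul_le_mul_of_nonneg_left h1 (by positivity)
        _ = s * (a * ‖x‖) := by rw [hα]; ring
        _ ≤ s * N x := mul_le_mul_of_nonneg_left h2 hs.le
    have h4 : N x + 2 * α * ‖T i.1 x‖ ≤ (1 + s) * N x := by linarith
    have h5 : 0 ≤ N x + 2 * α * ‖T i.1 x‖ := by have := hN0 x; positivity
    have h6 : 0 ≤ (1 + s) * N x := by have := hN0 x; positivity
    calc _ ≤ (1 + s) * (N x + 2 * α * ‖T i.1 x‖) :=
          mul_le_mul_of_nonneg_right (by linarith [hcs i.1]) h5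
      _ ≤ (1 + s) * ((1 + s) * N x) := mul_le_mul_of_nonneg_left h4 (by linarith)
      _ = _ := by ring
  refine ⟨I, inferInstance, ℓ, q, 4 * b + 2 * α + 4, by positivity, fun i => ?_, fun i => ?_, ?_, hup2⟩
  · refine ContinuousLinearMap.opNorm_le_bound _ (by positivity) fun x => ?_
    have h1 : |ℓ i x| ≤ kk ℓ q i x := by unfold kk; linarith [norm_nonneg (q i x)]
    have h2 := hup2 i x
    have h3 := hN x
    have h4 : (1 + s) * (1 + s) ≤ 4 := by nlinarith
    rw [Real.norm_eq_abs]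
    have h5 : (1 + s) * (1 + s) * N x ≤ 4 * N x := mul_le_mul_of_nonneg_right h4 (hN0 x)
    nlinarith [norm_nonneg x]
  · refine ContinuousLinearMap.opNorm_le_bound _ (by positivity) fun x => ?_
    have h1 : ‖q i x‖ ≤ kk ℓ q i x := by unfold kk; linarith [abs_nonneg (ℓ i x)]
    have h2 := hup2 i x
    have h3 := hN x
    have h4 : (1 + s) * (1 + s) ≤ 4 := by nlinarith
    have h5 : (1 + s) * (1 + s) * N x ≤ 4 * N x := mul_le_mul_of_nonneg_right h4 (hN0 x)
    nlinarith [norm_nonneg x]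
  · intro x hx
    have hxpos : 0 < ‖x‖ := norm_pos_iff.2 hx
    have hNpos : 0 < N x := lt_of_lt_of_le (by positivity) (haN x)
    obtain ⟨φ, hφ1, hφ2⟩ := exists_norming hadd hsmul hN0 hN x hx
    obtain ⟨n, hn⟩ := ((tendsto_comp_T φ).eventually (ge_mem_nhds hαpos)).exists
    have hmem : φ ∘L (ContinuousLinearMap.id ℝ H - T n) ∈ KF N α n := ⟨φ, hφ1, hn, rfl⟩
    obtain ⟨ψ, hψ, hψ2⟩ := mem_iUnion₂.1 (hF3 n hmem)
    rw [Metric.mem_ball, dist_eq_norm] at hψ2
    -- lower bound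
    have hlow : (1 + c n / 2) * N x ≤ kk ℓ q ⟨n, ⟨ψ, hψ⟩⟩ x := by
      rw [hkk]
      change _ ≤ (1 + c n) * (|ψ x| + α * ‖T n x‖)
      have h1 : |φ (T n x)| ≤ α * ‖T n x‖ := comp_T_le hn x
      have h2 : |(φ ∘L (ContinuousLinearMap.id ℝ H - T n) - ψ) x| ≤ η n * ‖x‖ :=
        (φ ∘L (ContinuousLinearMap.id ℝ H - T n) - ψ).le_of_opNorm_le hψ2.le x
      have h3 : (φ ∘L (ContinuousLinearMap.id ℝ H - T n) - ψ) x = φ x - φ (T n x) - ψ x := by
        rw [_root_.sub_apply, KF_apply (α := α)]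
      rw [h3, hφ2] at h2
      have h4 : N x - η n * ‖x‖ ≤ |ψ x| + α * ‖T n x‖ := by
        have e1 := (abs_le.1 h2).2
        have e2 := (abs_le.1 h1).2
        have e3 := le_abs_self (ψ x)
        linarith
      have h5 : η n * ‖x‖ ≤ c n / (2 * (1 + c n)) * N x := by
        calc η n * ‖x‖ = c n / (2 * (1 + c n)) * (a * ‖x‖) := by simp only [η]; ring
          _ ≤ _ := mul_le_mul_of_nonneg_left (haN x) (by have := hc0 n; positivity)
      have hcn := hc0 n
      have h6 : (1 + c n) * (N x - c n / (2 * (1 + c n)) * N x) = (1 + c n / 2) * N x := by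
        field_simp
        ring
      rw [← h6]
      refine mul_le_mul_of_nonneg_left ?_ (by linarith)
      linarith
    have hlow' : N x < kk ℓ q ⟨n, ⟨ψ, hψ⟩⟩ x := by
      have := hc0 n
      nlinarith
    -- the tail
    have hlim : Tendsto (fun m => (1 + c m) * (N x + 2 * α * ‖T m x‖)) atTop
        (𝓝 ((1 + 0) * (N x + 2 * α * 0))) :=
      (tendsto_const_nhds.add hclim).mul
        (tendsto_const_nhds.add ((tendsto_norm_T x).const_mul (2 * α)))
    have hlt : (1 + 0) * (N x + 2 * α * 0) < kk ℓ q ⟨n, ⟨ψ, hψ⟩⟩ x := by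
      rw [mul_zero, add_zero, add_zero, one_mul]; exact hlow'
    obtain ⟨m₀, hm₀⟩ := eventually_atTop.1 (hlim.eventually (gt_mem_nhds hlt))
    have hfin : {i : I | i.1 < m₀}.Finite := by
      have : {i : I | i.1 < m₀} ⊆ ⋃ n ∈ {n | n < m₀}, range (Sigma.mk (β := fun n => F n) n) := by
        rintro ⟨n, y⟩ hn
        exact mem_iUnion₂.2 ⟨n, hn, y, rfl⟩
      refine Set.Finite.subset ?_ this
      exact (Set.finite_lt_nat m₀).biUnion fun n _ => Set.finite_range _
    have hin : (⟨n, ⟨ψ, hψ⟩⟩ : I) ∈ {i : I | i.1 < m₀} := by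
      by_contra hnot
      have h1 : m₀ ≤ n := by
        change ¬ (n < m₀) at hnot
        omega
      have h2 := hup ⟨n, ⟨ψ, hψ⟩⟩ x
      exact absurd (hm₀ n h1) (not_lt.2 h2)
    obtain ⟨i, hi1, hi2⟩ := Set.exists_max_image {i : I | i.1 < m₀} (fun i => kk ℓ q i x) hfin ⟨_, hin⟩
    have h1 := hi2 _ hin
    refine ⟨i, hlow'.le.trans h1, (hNpos.trans hlow').trans_le h1, fun j => ?_⟩
    by_cases hj : j.1 < m₀
    · exact hi2 j hj
    · push Not at hj
      exact ((hup j x).trans (hm₀ j.1 hj).le).trans h1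

/-- Every equivalent norm of `ℓ²` is approximated by analytic norms. -/
theorem main (hadd : ∀ x y, N (x + y) ≤ N x + N y)
    (hsmul : ∀ (c : ℝ) x, N (c • x) = |c| * N x) (ha : 0 < a) (hb : 0 < b)
    (haN : ∀ x, a * ‖x‖ ≤ N x) (hN : ∀ x, N x ≤ b * ‖x‖) {r : ℝ} (hr : 0 < r) :
    ∃ M : H → ℝ, (∀ x y, M (x + y) ≤ M x + M y) ∧ (∀ (c : ℝ) x, M (c • x) = |c| * M x) ∧
      (∀ x, N x ≤ M x) ∧ (∀ x, M x ≤ (1 + r) * N x) ∧ AnalyticOnNhd ℝ M {x : H | x ≠ 0} := by
  have hN0 : ∀ x, 0 ≤ N x := fun x => le_trans (by positivity) (haN x)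
  set s : ℝ := min (1 / 8) (r / (4 + r)) with hs
  have hspos : 0 < s := lt_min (by norm_num) (by positivity)
  have hs8 : s ≤ 1 / 8 := min_le_left _ _
  have hsr : s * (4 + r) ≤ r := by
    have h1 : s ≤ r / (4 + r) := min_le_right _ _
    rwa [le_div_iff₀ (by positivity)] at h1
  obtain ⟨I, hI, ℓ, q, C, hC, hℓ, hq, hmax, hup⟩ := exists_family hadd hsmul ha hb haN hN hspos
    (hs8.trans (by norm_num))
  obtain ⟨M, hM1, hM2, hM3, hM4, hM5⟩ := exists_analytic_norm hC hℓ hq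
    (fun x hx => by
      obtain ⟨i, -, h2, h3⟩ := hmax x hx
      exact ⟨i, h2, h3⟩) hspos (by linarith)
  have hM0 : M 0 = 0 := by
    have := hM2 0 0
    simpa using this
  have hN00 : N 0 = 0 := by
    have := hsmul 0 0
    simpa using this
  refine ⟨M, hM1, hM2, fun x => ?_, fun x => ?_, hM5⟩
  · by_cases hx : x = 0
    · rw [hx, hM0, hN00]
    · obtain ⟨i, h1, -, -⟩ := hmax x hx
      exact h1.trans (hM3 i x)
  · have h1 := hM4 x ((1 + s) * (1 + s) * N x) (by have := hN0 x; positivity) (fun i => hup i x)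
    have h2 : (1 + s) * (1 + s) ≤ (1 - s) * (1 + r) := by nlinarith
    have h3 : (1 - s) * M x ≤ (1 - s) * ((1 + r) * N x) := by
      refine h1.trans ?_
      rw [← mul_assoc]
      exact mul_le_mul_of_nonneg_right h2 (hN0 x)
    exact le_of_mul_le_mul_left h3 (by linarith)

end Main

end Pool.Agent.L5helper81.AnalyticL2
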