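import Mathlib

/-!
# Analytic norms from an attained supremum

Let `ℓ i` be functionals and `q i` operators into a Hilbert space, uniformly bounded. If the supremum of
`|ℓ i x| + ‖q i x‖` is attained for every `x`, it can be approximated by norms which are real analytic off the
origin.
-/

open Filter Topology Set
open scoped InnerProductSpace ContDiff

namespace Pool.Agent.L5helper81.AnalyticNorm

/-! ### the function of two variables -/

/-- The sum of `1 / (1 - v)` over the four numbers `v = ± u ± b`. -/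
noncomputable def P (u b : ℝ) : ℝ :=
  1 / (1 - u - b) + 1 / (1 - u + b) + 1 / (1 + u - b) + 1 / (1 + u + b)

theorem P_neg (u b : ℝ) : P (-u) b = P u b := by
  unfold P
  have h1 : 1 - -u - b = 1 + u - b := by ring
  have h2 : 1 - -u + b = 1 + u + b := by ring
  have h3 : 1 + -u - b = 1 - u - b := by ring
  have h4 : 1 + -u + b = 1 - u + b := by ring
  rw [h1, h2, h3, h4]; ring

theorem P_zero : P 0 0 = 4 := by unfold P; norm_num

theorem four_pos {u b γ : ℝ} (hb : 0 ≤ b) (h : |u| + b ≤ γ) :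
    1 - γ ≤ 1 - u - b ∧ 1 - γ ≤ 1 - u + b ∧ 1 - γ ≤ 1 + u - b ∧ 1 - γ ≤ 1 + u + b := by
  have h1 := le_abs_self u
  have h2 := neg_abs_le u
  refine ⟨by linarith, by linarith, by linarith, by linarith⟩

theorem P_le {u b γ : ℝ} (hb : 0 ≤ b) (h : |u| + b ≤ γ) (hγ : γ < 1) : P u b ≤ 4 / (1 - γ) := by
  obtain ⟨h1, h2, h3, h4⟩ := four_pos hb h
  have h0 : 0 < 1 - γ := by linarith
  unfold P
  have e1 := one_div_le_one_div_of_le h0 h1
  have e2 := one_div_le_one_div_of_le h0 h2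
  have e3 := one_div_le_one_div_of_le h0 h3
  have e4 := one_div_le_one_div_of_le h0 h4
  have : 4 / (1 - γ) = 1 / (1 - γ) + 1 / (1 - γ) + 1 / (1 - γ) + 1 / (1 - γ) := by ring
  rw [this]
  linarith

theorem P_nonneg {u b : ℝ} (hb : 0 ≤ b) (h : |u| + b < 1) : 0 ≤ P u b := by
  obtain ⟨h1, h2, h3, h4⟩ := four_pos hb (le_refl (|u| + b))
  have h0 : 0 < 1 - (|u| + b) := by linarith
  unfold P
  have e1 := one_div_pos.2 (h0.trans_le h1)
  have e2 := one_div_pos.2 (h0.trans_le h2)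
  have e3 := one_div_pos.2 (h0.trans_le h3)
  have e4 := one_div_pos.2 (h0.trans_le h4)
  linarith

/-- The blow up. -/
theorem le_P {u b : ℝ} (hb : 0 ≤ b) (h : |u| + b < 1) : 1 / (1 - (|u| + b)) ≤ P u b := by
  obtain ⟨h1, h2, h3, h4⟩ := four_pos hb (le_refl (|u| + b))
  have h0 : 0 < 1 - (|u| + b) := by linarith
  have e1 := one_div_pos.2 (h0.trans_le h1)
  have e2 := one_div_pos.2 (h0.trans_le h2)
  have e3 := one_div_pos.2 (h0.trans_le h3)
  have e4 := one_div_pos.2 (h0.trans_le h4)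
  rcases le_total 0 u with hu | hu
  · rw [abs_of_nonneg hu]
    have : 1 - (u + b) = 1 - u - b := by ring
    rw [this]; unfold P; linarith
  · rw [abs_of_nonpos hu]
    have : 1 - (-u + b) = 1 + u - b := by ring
    rw [this]; unfold P; linarith

theorem inv_convex {s t a b : ℝ} (hs : s < 1) (ht : t < 1) (ha : 0 ≤ a) (hb : 0 ≤ b) (hab : a + b = 1) :
    1 / (1 - (a * s + b * t)) ≤ a * (1 / (1 - s)) + b * (1 / (1 - t)) := by
  have hp : 0 < 1 - s := by linarith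
  have hq : 0 < 1 - t := by linarith
  have e : 1 - (a * s + b * t) = a * (1 - s) + b * (1 - t) := by
    have : (1 : ℝ) = a + b := hab.symm
    linear_combination this
  rw [e]
  set p := 1 - s
  set r := 1 - t
  have hpos : 0 < a * p + b * r := by
    rcases ha.eq_or_lt with h | h
    · have : b = 1 := by linarith
      rw [← h, this]; linarith
    · have : 0 < a * p := mul_pos h hp
      have : 0 ≤ b * r := mul_nonneg hb hq.le
      linarith
  have e2 : a * (1 / p) + b * (1 / r) = (a * r + b * p) / (p * r) := by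
    field_simp
  rw [e2, div_le_div_iff₀ hpos (mul_pos hp hq)]
  have hab2 : 0 ≤ a * b := mul_nonneg ha hb
  have e3 : (a * r + b * p) * (a * p + b * r) = (a + b) ^ 2 * (p * r) + a * b * (p - r) ^ 2 := by ring
  rw [e3, hab]
  nlinarith [mul_nonneg hab2 (sq_nonneg (p - r))]

theorem P_mono {u b b' : ℝ} (hb : 0 ≤ b) (hbb : b ≤ b') (h : |u| + b' < 1) : P u b ≤ P u b' := by
  have key : ∀ c : ℝ, b' < c → 1 / (c - b) + 1 / (c + b) ≤ 1 / (c - b') + 1 / (c + b') := by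
    intro c hc
    have h1 : 0 < c - b := by linarith
    have h2 : 0 < c + b := by linarith
    have h3 : 0 < c - b' := by linarith
    have h4 : 0 < c + b' := by linarith
    have e1 : 1 / (c - b) + 1 / (c + b) = 2 * c / ((c - b) * (c + b)) := by field_simp; ring
    have e2 : 1 / (c - b') + 1 / (c + b') = 2 * c / ((c - b') * (c + b')) := by field_simp; ring
    rw [e1, e2]
    refine div_le_div_of_nonneg_left (by linarith) (mul_pos h3 h4) ?_
    nlinarith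
  have h1 := le_abs_self u
  have h2 := neg_abs_le u
  have k1 := key (1 - u) (by linarith)
  have k2 := key (1 + u) (by linarith)
  unfold P
  linarith

theorem P_convex {u u' b b' a c : ℝ} (hb : 0 ≤ b) (hb' : 0 ≤ b') (h : |u| + b < 1) (h' : |u'| + b' < 1)
    (ha : 0 ≤ a) (hc : 0 ≤ c) (hac : a + c = 1) :
    P (a * u + c * u') (a * b + c * b') ≤ a * P u b + c * P u' b' := by
  have g1 := le_abs_self u
  have g2 := neg_abs_le u
  have g3 := le_abs_self u'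
  have g4 := neg_abs_le u'
  have i1 := inv_convex (s := u + b) (t := u' + b') (by linarith) (by linarith) ha hc hac
  have i2 := inv_convex (s := u - b) (t := u' - b') (by linarith) (by linarith) ha hc hac
  have i3 := inv_convex (s := -u + b) (t := -u' + b') (by linarith) (by linarith) ha hc hac
  have i4 := inv_convex (s := -u - b) (t := -u' - b') (by linarith) (by linarith) ha hc hac
  have e1 : 1 - (a * (u + b) + c * (u' + b')) = 1 - (a * u + c * u') - (a * b + c * b') := by ring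
  have e2 : 1 - (a * (u - b) + c * (u' - b')) = 1 - (a * u + c * u') + (a * b + c * b') := by ring
  have e3 : 1 - (a * (-u + b) + c * (-u' + b')) = 1 + (a * u + c * u') - (a * b + c * b') := by ring
  have e4 : 1 - (a * (-u - b) + c * (-u' - b')) = 1 + (a * u + c * u') + (a * b + c * b') := by ring
  rw [e1] at i1
  rw [e2] at i2
  rw [e3] at i3
  rw [e4] at i4
  have f1 : 1 - (u + b) = 1 - u - b := by ring
  have f2 : 1 - (u - b) = 1 - u + b := by ring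
  have f3 : 1 - (-u + b) = 1 + u - b := by ring
  have f4 : 1 - (-u - b) = 1 + u + b := by ring
  have f1' : 1 - (u' + b') = 1 - u' - b' := by ring
  have f2' : 1 - (u' - b') = 1 - u' + b' := by ring
  have f3' : 1 - (-u' + b') = 1 + u' - b' := by ring
  have f4' : 1 - (-u' - b') = 1 + u' + b' := by ring
  rw [f1, f1'] at i1
  rw [f2, f2'] at i2
  rw [f3, f3'] at i3
  rw [f4, f4'] at i4
  unfold P
  linarith

theorem P_eq {u b : ℝ} (hb : 0 ≤ b) (h : |u| + b < 1) :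
    P u b = 4 * ((1 - u * u - b ^ 2) *
      ((1 - u * u - b ^ 2) * (1 - u * u - b ^ 2) - 4 * (u * u * b ^ 2))⁻¹) := by
  obtain ⟨h1, h2, h3, h4⟩ := four_pos hb (le_refl (|u| + b))
  have h0 : 0 < 1 - (|u| + b) := by linarith
  have e1 := (h0.trans_le h1).ne'
  have e2 := (h0.trans_le h2).ne'
  have e3 := (h0.trans_le h3).ne'
  have e4 := (h0.trans_le h4).ne'
  have e5 : (1 - u * u - b ^ 2) * (1 - u * u - b ^ 2) - 4 * (u * u * b ^ 2) =
    (1 - u - b) * (1 - u + b) * (1 + u - b) * (1 + u + b) := by ring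
  rw [e5]
  unfold P
  field_simp
  ring

theorem D_lower {u b γ : ℝ} (hb : 0 ≤ b) (h : |u| + b ≤ γ) (hγ : γ < 1) :
    (1 - γ) ^ 4 ≤ (1 - u * u - b ^ 2) * (1 - u * u - b ^ 2) - 4 * (u * u * b ^ 2) := by
  obtain ⟨h1, h2, h3, h4⟩ := four_pos hb h
  have h0 : 0 < 1 - γ := by linarith
  have e5 : (1 - u * u - b ^ 2) * (1 - u * u - b ^ 2) - 4 * (u * u * b ^ 2) =
    (1 - u - b) * (1 - u + b) * ((1 + u - b) * (1 + u + b)) := by ring
  rw [e5]
  have g1 : (1 - γ) * (1 - γ) ≤ (1 - u - b) * (1 - u + b) := mul_le_mul h1 h2 h0.le (by linarith)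
  have g2 : (1 - γ) * (1 - γ) ≤ (1 + u - b) * (1 + u + b) := mul_le_mul h3 h4 h0.le (by linarith)
  have g3 := mul_le_mul g1 g2 (by positivity) (by nlinarith)
  calc (1 - γ) ^ 4 = (1 - γ) * (1 - γ) * ((1 - γ) * (1 - γ)) := by ring
    _ ≤ _ := g3

/-! ### the data -/

section Data

variable {H G I : Type*} [NormedAddCommGroup H] [NormedSpace ℝ H] [NormedAddCommGroup G]
  [InnerProductSpace ℝ G]

/-- The seminorm `|ℓ i x| + ‖q i x‖`. -/
noncomputable def kk (ℓ : I → H →L[ℝ] ℝ) (q : I → H →L[ℝ] G) (i : I) (x : H) : ℝ := |ℓ i x| + ‖q i x‖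

/-- The open unit ball of the supremum. -/
def OO (ℓ : I → H →L[ℝ] ℝ) (q : I → H →L[ℝ] G) : Set H := {x | ∃ γ < 1, ∀ i, kk ℓ q i x ≤ γ}

/-- The convex function. -/
noncomputable def Phi (ℓ : I → H →L[ℝ] ℝ) (q : I → H →L[ℝ] G) (w : I → ℝ) (x : H) : ℝ :=
  ∑' i, w i * P (ℓ i x) ‖q i x‖

variable {ℓ : I → H →L[ℝ] ℝ} {q : I → H →L[ℝ] G} {w : I → ℝ} {C : ℝ}

theorem kk_nonneg (i : I) (x : H) : 0 ≤ kk ℓ q i x := by unfold kk; positivity

theorem kk_smul (i : I) (t : ℝ) (x : H) : kk ℓ q i (t • x) = |t| * kk ℓ q i x := by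
  unfold kk
  rw [map_smul, map_smul, norm_smul, smul_eq_mul, abs_mul, Real.norm_eq_abs]; ring

theorem kk_neg (i : I) (x : H) : kk ℓ q i (-x) = kk ℓ q i x := by
  have := kk_smul (ℓ := ℓ) (q := q) i (-1) x
  simpa using this

theorem kk_add (i : I) (x y : H) : kk ℓ q i (x + y) ≤ kk ℓ q i x + kk ℓ q i y := by
  unfold kk
  rw [map_add, map_add]
  have h1 := abs_add_le (ℓ i x) (ℓ i y)
  have h2 := norm_add_le (q i x) (q i y)
  linarith

theorem kk_le (hℓ : ∀ i, ‖ℓ i‖ ≤ C) (hq : ∀ i, ‖q i‖ ≤ C) (i : I) (x : H) :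
    kk ℓ q i x ≤ 2 * C * ‖x‖ := by
  unfold kk
  have h1 : |ℓ i x| ≤ C * ‖x‖ := by
    rw [← Real.norm_eq_abs]; exact (ℓ i).le_of_opNorm_le (hℓ i) x
  have h2 : ‖q i x‖ ≤ C * ‖x‖ := (q i).le_of_opNorm_le (hq i) x
  linarith

theorem zero_mem_OO : (0 : H) ∈ OO ℓ q := ⟨0, one_pos, fun i => by simp [kk]⟩

theorem neg_mem_OO {x : H} (hx : x ∈ OO ℓ q) : -x ∈ OO ℓ q := by
  obtain ⟨γ, h1, h2⟩ := hx
  exact ⟨γ, h1, fun i => by rw [kk_neg]; exact h2 i⟩

theorem isOpen_OO (hℓ : ∀ i, ‖ℓ i‖ ≤ C) (hq : ∀ i, ‖q i‖ ≤ C) (hC : 0 < C) : IsOpen (OO ℓ q) := by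
  rw [Metric.isOpen_iff]
  rintro x ⟨γ, hγ, hx⟩
  refine ⟨(1 - γ) / (4 * C), by apply div_pos <;> linarith, fun y hy => ?_⟩
  refine ⟨(1 + γ) / 2, by linarith, fun i => ?_⟩
  rw [Metric.mem_ball, dist_eq_norm] at hy
  have h1 := kk_add (ℓ := ℓ) (q := q) i x (y - x)
  rw [add_sub_cancel] at h1
  have h2 := kk_le hℓ hq i (y - x)
  have h3 := hx i
  have h4 : 2 * C * ‖y - x‖ ≤ (1 - γ) / 2 := by
    have := mul_lt_mul_of_pos_left hy (by linarith : 0 < 2 * C)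
    have e : 2 * C * ((1 - γ) / (4 * C)) = (1 - γ) / 2 := by field_simp; ring
    rw [e] at this
    exact this.le
  linarith

theorem combo_mem_OO {x y : H} (hx : x ∈ OO ℓ q) (hy : y ∈ OO ℓ q) {a b : ℝ} (ha : 0 ≤ a) (hb : 0 ≤ b)
    (hab : a + b = 1) : a • x + b • y ∈ OO ℓ q := by
  obtain ⟨γ, h1, h2⟩ := hx
  obtain ⟨δ, h3, h4⟩ := hy
  refine ⟨max γ δ, max_lt h1 h3, fun i => ?_⟩
  have h5 := kk_add (ℓ := ℓ) (q := q) i (a • x) (b • y)
  rw [kk_smul, kk_smul, abs_of_nonneg ha, abs_of_nonneg hb] at h5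
  have h6 : a * kk ℓ q i x ≤ a * max γ δ := mul_le_mul_of_nonneg_left ((h2 i).trans (le_max_left _ _)) ha
  have h7 : b * kk ℓ q i y ≤ b * max γ δ := mul_le_mul_of_nonneg_left ((h4 i).trans (le_max_right _ _)) hb
  have h8 : a * max γ δ + b * max γ δ = max γ δ := by rw [← add_mul, hab, one_mul]
  linarith

theorem summable_Phi (hw : ∀ i, 0 < w i) (hws : Summable w) {x : H} (hx : x ∈ OO ℓ q) :
    Summable fun i => w i * P (ℓ i x) ‖q i x‖ := by
  obtain ⟨γ, h1, h2⟩ := hx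
  refine Summable.of_nonneg_of_le (fun i => ?_) (fun i => ?_) (hws.mul_right (4 / (1 - γ)))
  · exact mul_nonneg (hw i).le (P_nonneg (norm_nonneg _) ((h2 i).trans_lt h1))
  · exact mul_le_mul_of_nonneg_left (P_le (norm_nonneg _) (h2 i) h1) (hw i).le

theorem Phi_neg (x : H) : Phi ℓ q w (-x) = Phi ℓ q w x := by
  unfold Phi
  refine tsum_congr fun i => ?_
  rw [map_neg, map_neg, norm_neg, P_neg]

theorem Phi_zero : Phi ℓ q w 0 = 4 * ∑' i, w i := by
  unfold Phi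
  simp only [map_zero, norm_zero, P_zero]
  rw [tsum_mul_right, mul_comm]

theorem Phi_le (hw : ∀ i, 0 < w i) (hws : Summable w) {x : H} {γ : ℝ} (hγ : γ < 1)
    (hx : ∀ i, kk ℓ q i x ≤ γ) : Phi ℓ q w x ≤ 4 / (1 - γ) * ∑' i, w i := by
  have h0 : x ∈ OO ℓ q := ⟨γ, hγ, hx⟩
  unfold Phi
  rw [mul_comm, ← tsum_mul_right]
  refine (summable_Phi hw hws h0).tsum_le_tsum (fun i => ?_) (hws.mul_right _)
  exact mul_le_mul_of_nonneg_left (P_le (norm_nonneg _) (hx i) hγ) (hw i).le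

theorem le_Phi (hw : ∀ i, 0 < w i) (hws : Summable w) {x : H} (hx : x ∈ OO ℓ q) (i : I) :
    w i * (1 / (1 - kk ℓ q i x)) ≤ Phi ℓ q w x := by
  have h0 := hx
  obtain ⟨γ, h1, h2⟩ := hx
  have h3 := (summable_Phi hw hws h0).le_tsum i (fun j _ =>
    mul_nonneg (hw j).le (P_nonneg (norm_nonneg _) ((h2 j).trans_lt h1)))
  refine le_trans ?_ h3
  exact mul_le_mul_of_nonneg_left (le_P (norm_nonneg _) ((h2 i).trans_lt h1)) (hw i).le

theorem Phi_convex (hw : ∀ i, 0 < w i) (hws : Summable w) {x y : H} (hx : x ∈ OO ℓ q)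
    (hy : y ∈ OO ℓ q) {a b : ℝ} (ha : 0 ≤ a) (hb : 0 ≤ b) (hab : a + b = 1) :
    Phi ℓ q w (a • x + b • y) ≤ a * Phi ℓ q w x + b * Phi ℓ q w y := by
  have hxy := combo_mem_OO hx hy ha hb hab
  unfold Phi
  rw [← tsum_mul_left, ← tsum_mul_left, ← ((summable_Phi hw hws hx).mul_left a).tsum_add
    ((summable_Phi hw hws hy).mul_left b)]
  refine (summable_Phi hw hws hxy).tsum_le_tsum (fun i => ?_)
    (((summable_Phi hw hws hx).mul_left a).add ((summable_Phi hw hws hy).mul_left b))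
  obtain ⟨γ, h1, h2⟩ := hx
  obtain ⟨δ, h3, h4⟩ := hy
  have e1 : |ℓ i x| + ‖q i x‖ ≤ γ := h2 i
  have e2 : |ℓ i y| + ‖q i y‖ ≤ δ := h4 i
  have n1 : ‖q i (a • x + b • y)‖ ≤ a * ‖q i x‖ + b * ‖q i y‖ := by
    rw [map_add, map_smul, map_smul]
    refine (norm_add_le _ _).trans ?_
    rw [norm_smul, norm_smul, Real.norm_eq_abs, Real.norm_eq_abs, abs_of_nonneg ha, abs_of_nonneg hb]
  have n2 : ℓ i (a • x + b • y) = a * ℓ i x + b * ℓ i y := by
    rw [map_add, map_smul, map_smul, smul_eq_mul, smul_eq_mul]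
  have n3 : |a * ℓ i x + b * ℓ i y| ≤ a * |ℓ i x| + b * |ℓ i y| := by
    refine (abs_add_le _ _).trans ?_
    rw [abs_mul, abs_mul, abs_of_nonneg ha, abs_of_nonneg hb]
  have n4 : |a * ℓ i x + b * ℓ i y| + (a * ‖q i x‖ + b * ‖q i y‖) < 1 := by
    have m1 : a * (|ℓ i x| + ‖q i x‖) ≤ a * max γ δ :=
      mul_le_mul_of_nonneg_left (e1.trans (le_max_left _ _)) ha
    have m2 : b * (|ℓ i y| + ‖q i y‖) ≤ b * max γ δ :=
      mul_le_mul_of_nonneg_left (e2.trans (le_max_right _ _)) hb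
    have m3 : a * max γ δ + b * max γ δ = max γ δ := by rw [← add_mul, hab, one_mul]
    have m4 : max γ δ < 1 := max_lt h1 h3
    linarith
  have p1 := P_mono (u := a * ℓ i x + b * ℓ i y) (norm_nonneg (q i (a • x + b • y))) n1 n4
  have p2 := P_convex (norm_nonneg (q i x)) (norm_nonneg (q i y)) (e1.trans_lt h1) (e2.trans_lt h3)
    ha hb hab
  have p3 := mul_le_mul_of_nonneg_left (p1.trans p2) (hw i).le
  rw [n2]
  refine p3.trans (le_of_eq ?_)
  ring

/-! ### analyticity -/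

/-- Bounded families. -/
abbrev LL (I : Type*) := lp (fun _ : I => ℝ) ⊤

theorem memLL {f : I → ℝ} (K : ℝ) (h : ∀ i, |f i| ≤ K) : Memℓp f ⊤ :=
  memℓp_infty ⟨K, by rintro _ ⟨i, rfl⟩; exact h i⟩

theorem norm_LL_le {f : LL I} {K : ℝ} (hK : 0 ≤ K) (h : ∀ i, |f i| ≤ K) : ‖f‖ ≤ K :=
  lp.norm_le_of_forall_le hK h

/-- The linear part. -/
noncomputable def UU (hC : 0 < C) (hℓ : ∀ i, ‖ℓ i‖ ≤ C) : H →L[ℝ] LL I :=
  LinearMap.mkContinuous
    { toFun := fun x => ⟨fun i => ℓ i x, memLL (C * ‖x‖) fun i => (ℓ i).le_of_opNorm_le (hℓ i) x⟩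
      map_add' := by
        intro x y
        apply lp.ext
        funext i
        simp
      map_smul' := by
        intro c x
        apply lp.ext
        funext i
        simp } C
    (fun x => norm_LL_le (by positivity) fun i => (ℓ i).le_of_opNorm_le (hℓ i) x)

theorem UU_apply (hC : 0 < C) (hℓ : ∀ i, ‖ℓ i‖ ≤ C) (x : H) (i : I) : UU hC hℓ x i = ℓ i x := rfl

theorem abs_inner_le (hq : ∀ i, ‖q i‖ ≤ C) (x y : H) (i : I) :
    |⟪q i x, q i y⟫_ℝ| ≤ C ^ 2 * ‖x‖ * ‖y‖ := by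
  have h1 := abs_real_inner_le_norm (q i x) (q i y)
  have h2 : ‖q i x‖ ≤ C * ‖x‖ := (q i).le_of_opNorm_le (hq i) x
  have h3 : ‖q i y‖ ≤ C * ‖y‖ := (q i).le_of_opNorm_le (hq i) y
  calc _ ≤ ‖q i x‖ * ‖q i y‖ := h1
    _ ≤ (C * ‖x‖) * (C * ‖y‖) := mul_le_mul h2 h3 (norm_nonneg _) ((norm_nonneg _).trans h2)
    _ = _ := by ring

/-- The quadratic part. -/
noncomputable def BB (hC : 0 < C) (hq : ∀ i, ‖q i‖ ≤ C) : H →L[ℝ] H →L[ℝ] LL I :=
  LinearMap.mkContinuous₂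
    (LinearMap.mk₂ ℝ (fun x y => (⟨fun i => ⟪q i x, q i y⟫_ℝ,
        memLL (C ^ 2 * ‖x‖ * ‖y‖) (abs_inner_le hq x y)⟩ : LL I))
      (by
        intro x x' y
        apply lp.ext
        funext i
        simp [inner_add_left])
      (by
        intro c x y
        apply lp.ext
        funext i
        simp [inner_smul_left])
      (by
        intro x y y'
        apply lp.ext
        funext i
        simp [inner_add_right])
      (by
        intro c x y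
        apply lp.ext
        funext i
        simp [inner_smul_right])) (C ^ 2)
    (fun x y => norm_LL_le (by positivity) (abs_inner_le hq x y))

theorem BB_apply (hC : 0 < C) (hq : ∀ i, ‖q i‖ ≤ C) (x y : H) (i : I) :
    BB hC hq x y i = ⟪q i x, q i y⟫_ℝ := rfl

/-- The weighted sum. -/
noncomputable def WW (hw : ∀ i, 0 < w i) (hws : Summable w) : LL I →L[ℝ] ℝ :=
  have hs : ∀ f : LL I, Summable fun i => w i * f i := fun f => by
    refine Summable.of_norm_bounded (hws.mul_right ‖f‖) fun i => ?_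
    rw [norm_mul, Real.norm_eq_abs, abs_of_pos (hw i)]
    exact mul_le_mul_of_nonneg_left (lp.norm_apply_le_norm (by simp) f i) (hw i).le
  LinearMap.mkContinuous
    { toFun := fun f => ∑' i, w i * f i
      map_add' := by
        intro f g
        rw [← (hs f).tsum_add (hs g)]
        refine tsum_congr fun i => ?_
        simp only [lp.coeFn_add, Pi.add_apply]
        ring
      map_smul' := by
        intro c f
        simp only [lp.coeFn_smul, Pi.smul_apply, smul_eq_mul, RingHom.id_apply]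
        rw [← tsum_mul_left]
        refine tsum_congr fun i => ?_
        ring } (∑' i, w i) (by
      intro f
      have h1 := norm_tsum_le_tsum_norm (hs f).norm
      refine h1.trans ?_
      rw [← tsum_mul_right]
      refine (hs f).norm.tsum_le_tsum (fun i => ?_) (hws.mul_right _)
      rw [norm_mul, Real.norm_eq_abs, abs_of_pos (hw i)]
      exact mul_le_mul_of_nonneg_left (lp.norm_apply_le_norm (by simp) f i) (hw i).le)

theorem WW_apply (hw : ∀ i, 0 < w i) (hws : Summable w) (f : LL I) :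
    WW hw hws f = ∑' i, w i * f i := rfl

/-- `1 - u² - b²`. -/
noncomputable def AA (hC : 0 < C) (hℓ : ∀ i, ‖ℓ i‖ ≤ C) (hq : ∀ i, ‖q i‖ ≤ C) (x : H) : LL I :=
  1 - UU hC hℓ x * UU hC hℓ x - BB hC hq x x

/-- The denominator. -/
noncomputable def DD (hC : 0 < C) (hℓ : ∀ i, ‖ℓ i‖ ≤ C) (hq : ∀ i, ‖q i‖ ≤ C) (x : H) : LL I :=
  AA hC hℓ hq x * AA hC hℓ hq x - (4 : ℝ) • (UU hC hℓ x * UU hC hℓ x * BB hC hq x x)

theorem AA_apply (hC : 0 < C) (hℓ : ∀ i, ‖ℓ i‖ ≤ C) (hq : ∀ i, ‖q i‖ ≤ C) (x : H) (i : I) :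
    AA hC hℓ hq x i = 1 - ℓ i x * ℓ i x - ‖q i x‖ ^ 2 := by
  unfold AA
  simp only [lp.coeFn_sub, Pi.sub_apply, lp.infty_coeFn_mul, Pi.mul_apply, lp.infty_coeFn_one,
    Pi.one_apply, UU_apply, BB_apply, real_inner_self_eq_norm_sq]

theorem DD_apply (hC : 0 < C) (hℓ : ∀ i, ‖ℓ i‖ ≤ C) (hq : ∀ i, ‖q i‖ ≤ C) (x : H) (i : I) :
    DD hC hℓ hq x i = (1 - ℓ i x * ℓ i x - ‖q i x‖ ^ 2) * (1 - ℓ i x * ℓ i x - ‖q i x‖ ^ 2) -
      4 * (ℓ i x * ℓ i x * ‖q i x‖ ^ 2) := by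
  unfold DD
  simp only [lp.coeFn_sub, Pi.sub_apply, lp.infty_coeFn_mul, Pi.mul_apply, lp.coeFn_smul,
    Pi.smul_apply, smul_eq_mul, AA_apply, UU_apply, BB_apply, real_inner_self_eq_norm_sq]

/-- On the open unit ball the denominator is invertible. -/
theorem inverse_DD (hC : 0 < C) (hℓ : ∀ i, ‖ℓ i‖ ≤ C) (hq : ∀ i, ‖q i‖ ≤ C) {x : H}
    (hx : x ∈ OO ℓ q) : ∃ d : (LL I)ˣ, (d : LL I) = DD hC hℓ hq x ∧
      ∀ i, Ring.inverse (DD hC hℓ hq x) i = (DD hC hℓ hq x i)⁻¹ := by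
  obtain ⟨γ, h1, h2⟩ := hx
  have hpos : 0 < (1 - γ) ^ 4 := by
    have : 0 < 1 - γ := by linarith
    positivity
  have hlow : ∀ i, (1 - γ) ^ 4 ≤ DD hC hℓ hq x i := fun i => by
    rw [DD_apply]
    exact D_lower (norm_nonneg _) (h2 i) h1
  have hne : ∀ i, DD hC hℓ hq x i ≠ 0 := fun i => (hpos.trans_le (hlow i)).ne'
  let e : LL I := ⟨fun i => (DD hC hℓ hq x i)⁻¹, memLL ((1 - γ) ^ 4)⁻¹ fun i => by
    rw [abs_inv, abs_of_pos (hpos.trans_le (hlow i))]
    exact inv_anti₀ hpos (hlow i)⟩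
  have e1 : DD hC hℓ hq x * e = 1 := by
    apply lp.ext
    funext i
    rw [lp.infty_coeFn_mul, Pi.mul_apply, lp.infty_coeFn_one, Pi.one_apply]
    exact mul_inv_cancel₀ (hne i)
  have e2 : e * DD hC hℓ hq x = 1 := by
    apply lp.ext
    funext i
    rw [lp.infty_coeFn_mul, Pi.mul_apply, lp.infty_coeFn_one, Pi.one_apply]
    exact inv_mul_cancel₀ (hne i)
  refine ⟨⟨DD hC hℓ hq x, e, e1, e2⟩, rfl, fun i => ?_⟩
  have : Ring.inverse (DD hC hℓ hq x) = e :=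
    Ring.inverse_unit (⟨DD hC hℓ hq x, e, e1, e2⟩ : (LL I)ˣ)
  rw [this]

theorem analyticAt_Phi (hC : 0 < C) (hℓ : ∀ i, ‖ℓ i‖ ≤ C) (hq : ∀ i, ‖q i‖ ≤ C)
    (hw : ∀ i, 0 < w i) (hws : Summable w) {x : H} (hx : x ∈ OO ℓ q) :
    AnalyticAt ℝ (Phi ℓ q w) x := by
  have hU : AnalyticAt ℝ (fun y : H => UU hC hℓ y) x := (UU hC hℓ).analyticAt x
  have hB : AnalyticAt ℝ (fun y : H => BB hC hq y y) x := by
    have h1 : AnalyticAt ℝ (fun z : H × H => BB hC hq z.1 z.2) (x, x) :=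
      (BB hC hq).analyticAt_bilinear (x, x)
    have h2 : AnalyticAt ℝ (fun y : H => (y, y)) x := analyticAt_id.prod analyticAt_id
    exact h1.comp_of_eq h2 rfl
  have hA : AnalyticAt ℝ (AA hC hℓ hq) x := by
    unfold AA
    exact (analyticAt_const.sub (hU.mul hU)).sub hB
  have hD : AnalyticAt ℝ (DD hC hℓ hq) x := by
    unfold DD
    exact (hA.fun_mul hA).fun_sub (analyticAt_const.fun_smul ((hU.fun_mul hU).fun_mul hB))
  obtain ⟨d, hd, -⟩ := inverse_DD hC hℓ hq hx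
  have hI : AnalyticAt ℝ (fun y => Ring.inverse (DD hC hℓ hq y)) x := by
    have h1 : AnalyticAt ℝ (Ring.inverse : LL I → LL I) (DD hC hℓ hq x) := by
      rw [← hd]; exact analyticAt_inverse d
    exact h1.comp hD
  have hT : AnalyticAt ℝ (fun y => WW hw hws ((4 : ℝ) • (AA hC hℓ hq y * Ring.inverse (DD hC hℓ hq y)))) x :=
    ((WW hw hws).analyticAt _).comp (analyticAt_const.fun_smul (hA.fun_mul hI))
  refine hT.congr ?_
  have hmem : OO ℓ q ∈ 𝓝 x := (isOpen_OO hℓ hq hC).mem_nhds hx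
  filter_upwards [hmem] with y hy
  obtain ⟨-, -, hinv⟩ := inverse_DD hC hℓ hq hy
  obtain ⟨γ, h1, h2⟩ := hy
  rw [WW_apply]
  unfold Phi
  refine tsum_congr fun i => ?_
  rw [lp.coeFn_smul, Pi.smul_apply, lp.infty_coeFn_mul, Pi.mul_apply, hinv i, DD_apply, AA_apply,
    smul_eq_mul, P_eq (norm_nonneg _) ((h2 i).trans_lt h1)]

theorem posSumOfEncodable_aux [Countable I] {ε : ℝ} (hε : 0 < ε) :
    ∃ w : I → ℝ, (∀ i, 0 < w i) ∧ ∃ c, HasSum w c ∧ c ≤ ε := by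
  obtain ⟨e⟩ := nonempty_encodable I
  obtain ⟨w, h1, c, h2, h3⟩ := posSumOfEncodable hε I
  exact ⟨w, h1, c, h2, h3⟩

/-! ### the gauge -/

/-- The convex body. -/
def KK (ℓ : I → H →L[ℝ] ℝ) (q : I → H →L[ℝ] G) (w : I → ℝ) : Set H :=
  {x | x ∈ OO ℓ q ∧ Phi ℓ q w x ≤ 1}

theorem convex_KK (hw : ∀ i, 0 < w i) (hws : Summable w) : Convex ℝ (KK ℓ q w) := by
  intro x hx y hy a b ha hb hab
  refine ⟨combo_mem_OO hx.1 hy.1 ha hb hab, (Phi_convex hw hws hx.1 hy.1 ha hb hab).trans ?_⟩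
  have h1 := mul_le_mul_of_nonneg_left hx.2 ha
  have h2 := mul_le_mul_of_nonneg_left hy.2 hb
  linarith

theorem neg_mem_KK {x : H} (hx : x ∈ KK ℓ q w) : -x ∈ KK ℓ q w :=
  ⟨neg_mem_OO hx.1, by rw [Phi_neg]; exact hx.2⟩

theorem mem_KK_of_le (hw : ∀ i, 0 < w i) (hws : Summable w) {ε : ℝ} (hε : 0 < ε)
    (hsum : 4 * ∑' i, w i ≤ ε) {x : H} (hx : ∀ i, kk ℓ q i x ≤ 1 - ε) : x ∈ KK ℓ q w := by
  refine ⟨⟨1 - ε, by linarith, hx⟩, (Phi_le hw hws (by linarith) hx).trans ?_⟩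
  rw [sub_sub_cancel, div_mul_eq_mul_div, div_le_one hε]
  exact hsum

theorem KK_mem_nhds (hw : ∀ i, 0 < w i) (hws : Summable w) (hC : 0 < C) (hℓ : ∀ i, ‖ℓ i‖ ≤ C)
    (hq : ∀ i, ‖q i‖ ≤ C) {ε : ℝ} (hε : 0 < ε) (hε1 : ε < 1) (hsum : 4 * ∑' i, w i ≤ ε) :
    KK ℓ q w ∈ 𝓝 (0 : H) := by
  rw [Metric.mem_nhds_iff]
  refine ⟨(1 - ε) / (2 * C), by apply div_pos <;> linarith, fun x hx => ?_⟩
  refine mem_KK_of_le hw hws hε hsum fun i => (kk_le hℓ hq i x).trans ?_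
  rw [mem_ball_zero_iff, lt_div_iff₀ (by linarith)] at hx
  linarith

theorem Phi_zero_lt (hw : ∀ i, 0 < w i) (hws : Summable w) {ε : ℝ} (hε1 : ε < 1)
    (hsum : 4 * ∑' i, w i ≤ ε) : Phi ℓ q w 0 < 1 := by
  rw [Phi_zero]; linarith

/-- Uniqueness. -/
theorem gauge_eq (hw : ∀ i, 0 < w i) (hws : Summable w) (hC : 0 < C) (hℓ : ∀ i, ‖ℓ i‖ ≤ C)
    (hq : ∀ i, ‖q i‖ ≤ C) {ε : ℝ} (hε : 0 < ε) (hε1 : ε < 1) (hsum : 4 * ∑' i, w i ≤ ε)
    {x : H} {m : ℝ} (hm : 0 < m) (h1 : m⁻¹ • x ∈ OO ℓ q) (h2 : Phi ℓ q w (m⁻¹ • x) = 1) :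
    gauge (KK ℓ q w) x = m := by
  refine le_antisymm (gauge_le_of_mem hm.le ?_) ?_
  · rw [mem_smul_set_iff_inv_smul_mem₀ hm.ne']
    exact ⟨h1, h2.le⟩
  · by_contra hlt
    push Not at hlt
    have habs : Absorbent ℝ (KK ℓ q w) :=
      absorbent_nhds_zero (KK_mem_nhds hw hws hC hℓ hq hε hε1 hsum)
    obtain ⟨b, hb0, hbm, hb⟩ := exists_lt_of_gauge_lt habs hlt
    rw [mem_smul_set_iff_inv_smul_mem₀ hb0.ne'] at hb
    have e : m⁻¹ • x = (b / m) • (b⁻¹ • x) + (1 - b / m) • (0 : H) := by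
      rw [smul_zero, add_zero, smul_smul]
      congr 1
      field_simp
    have hbm1 : b / m < 1 := by rw [div_lt_one hm]; exact hbm
    have h3 := Phi_convex hw hws hb.1 (zero_mem_OO (ℓ := ℓ) (q := q)) (div_pos hb0 hm).le
      (by linarith : 0 ≤ 1 - b / m) (by ring)
    rw [← e, h2] at h3
    have h4 := Phi_zero_lt (ℓ := ℓ) (q := q) hw hws hε1 hsum
    have h5 : (1 - b / m) * Phi ℓ q w 0 < (1 - b / m) * 1 :=
      mul_lt_mul_of_pos_left h4 (by linarith)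
    have h6 : b / m * Phi ℓ q w (b⁻¹ • x) ≤ b / m * 1 :=
      mul_le_mul_of_nonneg_left hb.2 (div_pos hb0 hm).le
    linarith

/-- Existence. -/
theorem exists_level (hw : ∀ i, 0 < w i) (hws : Summable w) (hC : 0 < C) (hℓ : ∀ i, ‖ℓ i‖ ≤ C)
    (hq : ∀ i, ‖q i‖ ≤ C) {ε : ℝ} (hε1 : ε < 1) (hsum : 4 * ∑' i, w i ≤ ε)
    {x : H} {i : I} (hi : ∀ j, kk ℓ q j x ≤ kk ℓ q i x) (hpos : 0 < kk ℓ q i x) :
    ∃ t : ℝ, 0 < t ∧ t • x ∈ OO ℓ q ∧ Phi ℓ q w (t • x) = 1 := by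
  set g := kk ℓ q i x with hg
  have hmem : ∀ t : ℝ, 0 ≤ t → t * g < 1 → t • x ∈ OO ℓ q := fun t ht htg =>
    ⟨t * g, htg, fun j => by
      rw [kk_smul, abs_of_nonneg ht]
      exact mul_le_mul_of_nonneg_left (hi j) ht⟩
  -- a point where the function is large
  set s : ℝ := (1 - min (w i) (1 / 2)) / g with hs
  have hmin : 0 < min (w i) (1 / 2) := lt_min (hw i) (by norm_num)
  have hmin2 : min (w i) (1 / 2) ≤ 1 / 2 := min_le_right _ _
  have hs0 : 0 < s := div_pos (by linarith) hpos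
  have hsg : s * g = 1 - min (w i) (1 / 2) := by rw [hs]; field_simp
  have hslt : s * g < 1 := by rw [hsg]; linarith
  have hbig : 1 ≤ Phi ℓ q w (s • x) := by
    refine le_trans ?_ (le_Phi hw hws (hmem s hs0.le hslt) i)
    rw [kk_smul, abs_of_pos hs0, ← hg, hsg, sub_sub_cancel, mul_one_div, le_div_iff₀ hmin, one_mul]
    exact min_le_left _ _
  have hcont : ContinuousOn (fun t : ℝ => Phi ℓ q w (t • x)) (Icc 0 s) := by
    intro t ht
    have h1 : t • x ∈ OO ℓ q := hmem t ht.1 (lt_of_le_of_lt (mul_le_mul_of_nonneg_right ht.2 hpos.le) hslt)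
    have h2 := (analyticAt_Phi hC hℓ hq hw hws h1).continuousAt
    have h3 : ContinuousAt (fun t : ℝ => t • x) t := by fun_prop
    exact (ContinuousAt.comp (f := fun t : ℝ => t • x) h2 h3).continuousWithinAt
  have h0 : Phi ℓ q w ((0 : ℝ) • x) ≤ 1 := by
    rw [zero_smul]; exact (Phi_zero_lt hw hws hε1 hsum).le
  obtain ⟨t, ht, ht1⟩ := intermediate_value_Icc hs0.le hcont ⟨h0, hbig⟩
  have htne : t ≠ 0 := by
    rintro rfl
    have := Phi_zero_lt (ℓ := ℓ) (q := q) hw hws hε1 hsum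
    simp only [zero_smul] at ht1
    linarith
  refine ⟨t, lt_of_le_of_ne ht.1 htne.symm, hmem t ht.1
    (lt_of_le_of_lt (mul_le_mul_of_nonneg_right ht.2 hpos.le) hslt), ht1⟩

/-- Analyticity of the gauge. -/
theorem analyticAt_gauge [CompleteSpace H] (hw : ∀ i, 0 < w i) (hws : Summable w) (hC : 0 < C)
    (hℓ : ∀ i, ‖ℓ i‖ ≤ C) (hq : ∀ i, ‖q i‖ ≤ C) {ε : ℝ} (hε : 0 < ε) (hε1 : ε < 1)
    (hsum : 4 * ∑' i, w i ≤ ε) {x : H} {t : ℝ} (ht : 0 < t) (h1 : t • x ∈ OO ℓ q)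
    (h2 : Phi ℓ q w (t • x) = 1) : AnalyticAt ℝ (gauge (KK ℓ q w)) x := by
  set f : H × ℝ → ℝ := fun z => Phi ℓ q w (z.2 • z.1) with hf
  have hfa : AnalyticAt ℝ f (x, t) := by
    have g1 : AnalyticAt ℝ (fun z : H × ℝ => z.2 • z.1) (x, t) := analyticAt_snd.fun_smul analyticAt_fst
    exact AnalyticAt.fun_comp (analyticAt_Phi hC hℓ hq hw hws h1) g1
  have hfc : ContDiffAt ℝ ω f (x, t) := hfa.contDiffAt
  have hdf : HasFDerivAt f (fderiv ℝ f (x, t)) (x, t) := hfa.differentiableAt.hasFDerivAt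
  -- the partial derivative
  set κ : ℝ := fderiv ℝ f (x, t) (0, 1) with hκ
  have hder : HasDerivAt (fun s : ℝ => Phi ℓ q w (s • x)) κ t := by
    have g1 : HasDerivAt (fun s : ℝ => ((x, s) : H × ℝ)) ((0 : H), (1 : ℝ)) t :=
      (hasDerivAt_const t x).prodMk (hasDerivAt_id t)
    exact hdf.comp_hasDerivAt t g1
  have hΦ0 := Phi_zero_lt (ℓ := ℓ) (q := q) hw hws hε1 hsum
  have hκpos : 0 < κ := by
    have hslope := hder.tendsto_slope
    have hslope' : Tendsto (slope (fun s : ℝ => Phi ℓ q w (s • x)) t) (𝓝[<] t) (𝓝 κ) :=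
      hslope.mono_left (nhdsWithin_mono _ fun s hs => ne_of_lt hs)
    have hev : ∀ᶠ s in 𝓝[<] t, (1 - Phi ℓ q w 0) / t ≤ slope (fun s : ℝ => Phi ℓ q w (s • x)) t s := by
      have : Ioo 0 t ∈ 𝓝[<] t := Ioo_mem_nhdsLT ht
      filter_upwards [this] with s hs
      have e : s • x = (s / t) • (t • x) + (1 - s / t) • (0 : H) := by
        rw [smul_zero, add_zero, smul_smul]
        congr 1
        field_simp
      have hst : s / t < 1 := by rw [div_lt_one ht]; exact hs.2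
      have h3 := Phi_convex hw hws h1 (zero_mem_OO (ℓ := ℓ) (q := q)) (div_pos hs.1 ht).le
        (by linarith : 0 ≤ 1 - s / t) (by ring)
      rw [← e, h2] at h3
      have h6 : slope (fun s : ℝ => Phi ℓ q w (s • x)) t s = (1 - Phi ℓ q w (s • x)) / (t - s) := by
        rw [slope_def_field, h2, ← neg_div_neg_eq]
        congr 1 <;> ring
      rw [h6, div_le_div_iff₀ ht (by linarith [hs.2])]
      have h4 : t * (s / t * 1 + (1 - s / t) * Phi ℓ q w 0) = s + (t - s) * Phi ℓ q w 0 := by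
        field_simp
      have h5 := mul_le_mul_of_nonneg_left h3 ht.le
      rw [h4] at h5
      linarith
    have h3 := ge_of_tendsto hslope' hev
    have h4 : 0 < (1 - Phi ℓ q w 0) / t := div_pos (by linarith) ht
    linarith
  have hinv : (fderiv ℝ f (x, t) ∘L ContinuousLinearMap.inr ℝ H ℝ).IsInvertible := by
    refine ⟨ContinuousLinearEquiv.unitsEquivAut ℝ (Units.mk0 κ hκpos.ne'), ?_⟩
    ext
    simp [hκ]
  have hψ := hfc.contDiffAt_implicitFunction (by simp) hinv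
  set ψ := hfc.implicitFunction (by simp) hinv with hψdef
  have hψ0 : ψ x = t := hfc.implicitFunction_apply_self (by simp) hinv
  have hψev : ∀ᶠ y in 𝓝 x, f (y, ψ y) = f (x, t) := hfc.eventually_apply_implicitFunction (by simp) hinv
  have hψa : AnalyticAt ℝ ψ x := hψ.analyticAt
  have hψc : ContinuousAt ψ x := hψa.continuousAt
  have hinva : AnalyticAt ℝ (fun y => (ψ y)⁻¹) x := hψa.fun_inv (by rw [hψ0]; exact ht.ne')
  refine hinva.congr ?_
  have ev1 : ∀ᶠ y in 𝓝 x, 0 < ψ y := by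
    have := hψc.eventually (lt_mem_nhds (a := (0 : ℝ)) (by rw [hψ0]; exact ht))
    exact this
  have ev2 : ∀ᶠ y in 𝓝 x, ψ y • y ∈ OO ℓ q := by
    have hc : ContinuousAt (fun y => ψ y • y) x := hψc.smul continuousAt_id
    refine hc.eventually ((isOpen_OO hℓ hq hC).mem_nhds ?_)
    change ψ x • x ∈ OO ℓ q
    rw [hψ0]; exact h1
  filter_upwards [ev1, ev2, hψev] with y hy1 hy2 hy3
  symm
  refine gauge_eq hw hws hC hℓ hq hε hε1 hsum (inv_pos.2 hy1) ?_ ?_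
  · rw [inv_inv]; exact hy2
  · rw [inv_inv]
    have : f (y, ψ y) = 1 := by rw [hy3]; exact h2
    exact this

/-- **The abstract theorem.** -/
theorem exists_analytic_norm [CompleteSpace H] [Countable I] (hC : 0 < C)
    (hℓ : ∀ i, ‖ℓ i‖ ≤ C) (hq : ∀ i, ‖q i‖ ≤ C)
    (hmax : ∀ x : H, x ≠ 0 → ∃ i, 0 < kk ℓ q i x ∧ ∀ j, kk ℓ q j x ≤ kk ℓ q i x)
    {ε : ℝ} (hε : 0 < ε) (hε1 : ε < 1) :
    ∃ M : H → ℝ, (∀ x y, M (x + y) ≤ M x + M y) ∧ (∀ (c : ℝ) (x : H), M (c • x) = |c| * M x) ∧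
      (∀ i x, kk ℓ q i x ≤ M x) ∧
      (∀ (x : H) (g : ℝ), 0 ≤ g → (∀ i, kk ℓ q i x ≤ g) → (1 - ε) * M x ≤ g) ∧
      AnalyticOnNhd ℝ M {x : H | x ≠ 0} := by
  obtain ⟨w, hw, c0, hws, hc0⟩ := posSumOfEncodable_aux (I := I) (ε := ε / 4) (by linarith)
  have hwsum : Summable w := hws.summable
  have hsum : 4 * ∑' i, w i ≤ ε := by rw [hws.tsum_eq]; linarith
  have habs : Absorbent ℝ (KK ℓ q w) :=
    absorbent_nhds_zero (KK_mem_nhds hw hwsum hC hℓ hq hε hε1 hsum)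
  have hlevel : ∀ x : H, x ≠ 0 → ∃ t : ℝ, 0 < t ∧ t • x ∈ OO ℓ q ∧ Phi ℓ q w (t • x) = 1 := by
    intro x hx
    obtain ⟨i, hi, hj⟩ := hmax x hx
    exact exists_level hw hwsum hC hℓ hq hε1 hsum hj hi
  refine ⟨gauge (KK ℓ q w), gauge_add_le (convex_KK hw hwsum) habs, fun c x => ?_, fun i x => ?_,
    fun x g hg hx => ?_, fun x hx => ?_⟩
  · rcases le_total 0 c with hc | hc
    · rw [gauge_smul_of_nonneg hc, smul_eq_mul, abs_of_nonneg hc]
    · have : c • x = (-c) • (-x) := by rw [smul_neg, neg_smul, neg_neg]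
      rw [this, gauge_smul_of_nonneg (by linarith : 0 ≤ -c), smul_eq_mul, abs_of_nonpos hc,
        gauge_neg fun y hy => neg_mem_KK hy]
  · by_cases hx : x = 0
    · subst hx
      simp [kk]
    · obtain ⟨t, ht, h1, h2⟩ := hlevel x hx
      have h3 : gauge (KK ℓ q w) x = t⁻¹ :=
        gauge_eq hw hwsum hC hℓ hq hε hε1 hsum (inv_pos.2 ht) (by rwa [inv_inv]) (by rwa [inv_inv])
      obtain ⟨γ, hγ, hγ'⟩ := h1
      have h4 := (hγ' i).trans hγ.le
      rw [kk_smul, abs_of_pos ht] at h4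
      rw [h3]
      rw [← one_div, le_div_iff₀ ht]
      linarith
  · by_cases hx0 : x = 0
    · subst hx0
      rw [gauge_zero, mul_zero]; exact hg
    · obtain ⟨i, hi, -⟩ := hmax x hx0
      have hgpos : 0 < g := hi.trans_le (hx i)
      have h1 : gauge (KK ℓ q w) x ≤ g / (1 - ε) := by
        have hpos : 0 < g / (1 - ε) := div_pos hgpos (by linarith)
        refine gauge_le_of_mem hpos.le ?_
        rw [mem_smul_set_iff_inv_smul_mem₀ hpos.ne']
        refine mem_KK_of_le hw hwsum hε hsum fun j => ?_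
        rw [kk_smul, abs_of_pos (inv_pos.2 hpos), inv_div, div_mul_eq_mul_div, div_le_iff₀ hgpos]
        exact mul_le_mul_of_nonneg_left (hx j) (by linarith)
      rw [le_div_iff₀ (by linarith)] at h1
      linarith
  · obtain ⟨t, ht, h1, h2⟩ := hlevel x hx
    exact analyticAt_gauge hw hwsum hC hℓ hq hε hε1 hsum ht h1 h2

end Data

end Pool.Agent.L5helper81.AnalyticNorm
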