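import Mathlib
import Pool.Agent.H66R3.PG.Dens

/-!
# The Haar system indexed by dyadic intervals, on cylinder functions

Real scalars: orthogonality, unconditionality and democracy of the Haar system, written for
functions of the binary digits.
-/

set_option autoImplicit false

open MeasureTheory Finset
open Pool.Agent.H66R3.PG

namespace Pool.Agent.L5helper81.HaarG

/-! ### The number of the dyadic interval of a point -/

/-- The number whose binary expansion consists of the first `n` digits. -/
def num : ℕ → (ℕ → Bool) → ℕ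
  | 0, _ => 0
  | n + 1, w => 2 * num n w + (if w n then 1 else 0)

lemma num_congr {n : ℕ} {x y : ℕ → Bool} (h : ∀ i < n, x i = y i) : num n x = num n y := by
  induction n with
  | zero => rfl
  | succ n ih => rw [num, num, ih fun i hi => h i (by omega), h n (Nat.lt_succ_self n)]

lemma num_inj {n : ℕ} {x y : ℕ → Bool} (h : num n x = num n y) : ∀ i < n, x i = y i := by
  induction n with
  | zero => intro i hi; omega
  | succ n ih =>
    rw [num, num] at h
    have h1 : num n x = num n y := by split_ifs at h <;> omega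
    intro i hi
    rcases Nat.lt_succ_iff_lt_or_eq.mp hi with h2 | h2
    · exact ih h1 i h2
    · subst h2
      cases hx : x i <;> cases hy : y i <;> simp [hx, hy] at h ⊢ <;> omega

lemma num_eq_iff {n : ℕ} {x y : ℕ → Bool} : num n x = num n y ↔ ∀ i < n, x i = y i :=
  ⟨num_inj, num_congr⟩

lemma num_lt (n : ℕ) (x : ℕ → Bool) : num n x < 2 ^ n := by
  induction n with
  | zero => simp [num]
  | succ n ih =>
    rw [num, pow_succ]
    split_ifs <;> omega

lemma num_surj (n k : ℕ) (hk : k < 2 ^ n) : ∃ w : ℕ → Bool, num n w = k := by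
  induction n generalizing k with
  | zero => exact ⟨fun _ => false, by simp [num]; omega⟩
  | succ n ih =>
    obtain ⟨w, hw⟩ := ih (k / 2) (by rw [pow_succ] at hk; omega)
    refine ⟨fun i => if i < n then w i else decide (k % 2 = 1), ?_⟩
    rw [num]
    have h1 : num n (fun i => if i < n then w i else decide (k % 2 = 1)) = k / 2 := by
      rw [← hw]
      apply num_congr
      intro i hi
      simp [hi]
    rw [h1]
    simp only [lt_irrefl, if_false, decide_eq_true_eq]
    split_ifs <;> omega

lemma num_dig {x : ℝ} (hx : 0 ≤ x) (hx1 : x < 1) (n : ℕ) : num n (dig x) = ⌊(2:ℝ) ^ n * x⌋₊ := by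
  induction n with
  | zero =>
    rw [num, pow_zero, one_mul]
    symm
    rw [Nat.floor_eq_zero]
    exact hx1
  | succ n ih =>
    rw [num, ih]
    have h0 : (0:ℝ) ≤ 2 ^ (n + 1) * x := by positivity
    have h1 : ⌊(2:ℝ) ^ (n + 1) * x⌋ = (⌊(2:ℝ) ^ (n + 1) * x⌋₊ : ℤ) := (Int.natCast_floor_eq_floor h0).symm
    have h2 : ⌊(2:ℝ) ^ n * x⌋₊ = ⌊(2:ℝ) ^ (n + 1) * x⌋₊ / 2 := by
      have h3 : (2:ℝ) ^ n * x = (2:ℝ) ^ (n + 1) * x / ((2 : ℕ) : ℝ) := by
        rw [pow_succ]; push_cast; ring
      rw [h3, Nat.floor_div_natCast]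
    rw [h2]
    unfold dig
    simp only [decide_eq_true_eq]
    rw [h1]
    split_ifs with h <;> omega

/-! ### The index set and the functions -/

/-- The index set of the Haar system: `none` is the constant function, `some ⟨n, k⟩` is the dyadic
interval `[k 2^{-n}, (k+1) 2^{-n})`. -/
abbrev Idx := Option (Σ n : ℕ, Fin (2 ^ n))

/-- The Haar functions as functions of the digits, normalized in `L_p`. -/
noncomputable def cH (p : ℝ) : Idx → (ℕ → Bool) → ℝ
  | none => fun _ => 1
  | some ⟨n, k⟩ => fun w => if num n w = k then wt p n * rd n w else 0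

/-- Level: number of digits on which the function depends. -/
def lvl : Idx → ℕ
  | none => 0
  | some ⟨n, _⟩ => n + 1

lemma dep_num (n : ℕ) (G : ℕ → ℝ) : Dep n (fun w => G (num n w)) := by
  intro x y h
  change G (num n x) = G (num n y)
  rw [num_congr h]

lemma dep_cH (p : ℝ) (j : Idx) : Dep (lvl j) (cH p j) := by
  rcases j with _ | ⟨n, k⟩
  · exact dep_const _ _
  · intro x y h
    change (if num n x = k then wt p n * rd n x else 0) = if num n y = k then wt p n * rd n y else 0
    have h1 : num n x = num n y := num_congr fun i hi => h i (by change i < n + 1; omega)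
    have h2 : rd n x = rd n y := dep_rd n x y h
    rw [h1, h2]

/-- Indicator of a dyadic interval. -/
def cI (n k : ℕ) (w : ℕ → Bool) : ℝ := if num n w = k then 1 else 0

lemma dep_cI (n k : ℕ) : Dep n (cI n k) := dep_num n fun m => if m = k then 1 else 0

lemma E_cI {n k : ℕ} (hk : k < 2 ^ n) : E (cI n k) = (1 / 2) ^ n := by
  obtain ⟨w, hw⟩ := num_surj n k hk
  have h1 : (fun x => cI n k (dig x)) =
      Set.indicator {x | ∀ i < n, dig x i = w i} (fun _ => (1:ℝ)) := by
    funext x
    unfold cI Set.indicator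
    simp only [Set.mem_ofPred_eq, ← hw, num_eq_iff]
  have h2 : MeasurableSet {x | ∀ i < n, dig x i = w i} := by
    have : {x | ∀ i < n, dig x i = w i} = ⋂ i ∈ Set.Iio n, {x | dig x i = w i} := by
      ext x; simp
    rw [this]
    apply MeasurableSet.biInter (Set.to_countable _)
    intro i _
    exact measurable_dig i (measurableSet_singleton _)
  unfold E
  rw [h1, integral_indicator h2, setIntegral_const, smul_eq_mul, mul_one, Measure.real, mu_cell,
    ENNReal.toReal_ofReal (by positivity)]

lemma cH_some (p : ℝ) (n : ℕ) (k : Fin (2 ^ n)) (w : ℕ → Bool) :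
    cH p (some ⟨n, k⟩) w = wt p n * cI n k w * rd n w := by
  change (if num n w = k then wt p n * rd n w else 0) = _
  unfold cI
  split_ifs <;> ring

lemma abs_cH_some (p : ℝ) (n : ℕ) (k : Fin (2 ^ n)) (w : ℕ → Bool) :
    |cH p (some ⟨n, k⟩) w| = wt p n * cI n k w := by
  rw [cH_some, abs_mul, rd_abs, mul_one, abs_mul, abs_of_pos (wt_pos p n)]
  congr 1
  unfold cI
  split_ifs <;> simp

lemma wt_rpow {p : ℝ} (hp : 0 < p) (n : ℕ) : wt p n ^ p = 2 ^ n := by
  unfold wt
  rw [← Real.rpow_mul (by positivity), one_div, inv_mul_cancel₀ hp.ne', Real.rpow_one]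

lemma E_abs_cH {p : ℝ} (hp : 0 < p) (j : Idx) : E (fun w => |cH p j w| ^ p) = 1 := by
  rcases j with _ | ⟨n, k⟩
  · have : (fun w => |cH p none w| ^ p) = fun _ => (1:ℝ) := by
      funext w; change |(1:ℝ)| ^ p = 1; simp
    rw [this, E_const]
  · have h1 : (fun w => |cH p (some ⟨n, k⟩) w| ^ p) = fun w => 2 ^ n * cI n k w := by
      funext w
      rw [abs_cH_some]
      unfold cI
      split_ifs
      · rw [mul_one, mul_one, wt_rpow hp]
      · rw [mul_zero, mul_zero, Real.zero_rpow hp.ne']
    rw [h1, E_mul_left, E_cI k.2, ← mul_pow]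
    norm_num

/-! ### Orthogonality -/

lemma wt_mul_wt {p q : ℝ} (hpq : 1 / p + 1 / q = 1) (n : ℕ) : wt q n * wt p n = 2 ^ n := by
  unfold wt
  rw [← Real.rpow_add (by positivity), add_comm, hpq, Real.rpow_one]

lemma E_cH_some_dep (p : ℝ) (n : ℕ) (k : Fin (2 ^ n)) {F : (ℕ → Bool) → ℝ} (hF : Dep n F) :
    E (fun w => F w * cH p (some ⟨n, k⟩) w) = 0 := by
  have h1 : (fun w => F w * cH p (some ⟨n, k⟩) w) = fun w => (F w * (wt p n * cI n k w)) * rd n w := by
    funext w; rw [cH_some]; ring
  have hD : Dep n (fun w => F w * (wt p n * cI n k w)) := hF.mul ((dep_const _ _).mul (dep_cI n k))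
  rw [h1, E_rd_zero hD _ (flip_of_dep hD le_rfl)]

theorem E_cH_cH {p q : ℝ} (hpq : 1 / p + 1 / q = 1) (i j : Idx) :
    E (fun w => cH q i w * cH p j w) = if i = j then 1 else 0 := by
  rcases i with _ | ⟨n, k⟩
  · rcases j with _ | ⟨m, l⟩
    · rw [if_pos rfl]
      have : (fun w => cH q none w * cH p none w) = fun _ => (1:ℝ) := by
        funext w; change (1:ℝ) * 1 = 1; ring
      rw [this, E_const]
    · rw [if_neg (by simp)]
      exact E_cH_some_dep p m l ((dep_cH q none).mono (Nat.zero_le _))
  · rcases j with _ | ⟨m, l⟩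
    · rw [if_neg (by simp)]
      have : (fun w => cH q (some ⟨n, k⟩) w * cH p none w) =
        fun w => cH p none w * cH q (some ⟨n, k⟩) w := by funext w; ring
      rw [this]
      exact E_cH_some_dep q n k ((dep_cH p none).mono (Nat.zero_le _))
    · rcases lt_trichotomy n m with h | h | h
      · rw [if_neg]
        · exact E_cH_some_dep p m l ((dep_cH q (some ⟨n, k⟩)).mono h)
        · intro e
          rw [Option.some_inj, Sigma.mk.injEq] at e
          omega
      · subst h
        have h1 : (fun w => cH q (some ⟨n, k⟩) w * cH p (some ⟨n, l⟩) w) =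
            fun w => if (k : ℕ) = l then 2 ^ n * cI n k w else 0 := by
          funext w
          rw [cH_some, cH_some]
          split_ifs with e
          · rw [← e]
            have h2 : cI n k w * cI n k w = cI n k w := by unfold cI; split_ifs <;> simp
            calc _ = (wt q n * wt p n) * (cI n k w * cI n k w) * (rd n w * rd n w) := by ring
              _ = _ := by rw [wt_mul_wt hpq, h2, rd_sq, mul_one]
          · have h2 : cI n k w * cI n l w = 0 := by
              unfold cI
              split_ifs with e1 e2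
              · exact absurd (e1.symm.trans e2) e
              all_goals simp
            calc _ = (wt q n * wt p n) * (cI n k w * cI n l w) * (rd n w * rd n w) := by ring
              _ = _ := by rw [h2]; ring
        rw [h1]
        by_cases e : k = l
        · subst e
          rw [if_pos rfl]
          simp only [if_true]
          rw [E_mul_left, E_cI k.2, ← mul_pow]
          norm_num
        · rw [if_neg (by
            intro h3
            rw [Option.some_inj, Sigma.mk.injEq] at h3
            exact e (eq_of_heq h3.2))]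
          have e' : (k : ℕ) ≠ l := fun h3 => e (Fin.ext h3)
          simp only [if_neg e']
          exact E_const 0
      · rw [if_neg]
        · have : (fun w => cH q (some ⟨n, k⟩) w * cH p (some ⟨m, l⟩) w) =
            fun w => cH p (some ⟨m, l⟩) w * cH q (some ⟨n, k⟩) w := by funext w; ring
          rw [this]
          exact E_cH_some_dep q n k ((dep_cH p (some ⟨m, l⟩)).mono h)
        · intro e
          rw [Option.some_inj, Sigma.mk.injEq] at e
          omega

/-! ### Sums are martingales -/

/-- All indices of `T` have level at most `top T`. -/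
def top (T : Finset Idx) : ℕ := T.sup lvl

lemma lvl_le_top {T : Finset Idx} {j : Idx} (hj : j ∈ T) : lvl j ≤ top T := le_sup (f := lvl) hj

/-- The predictable coefficients. -/
noncomputable def pc (p : ℝ) (T : Finset Idx) (a : Idx → ℝ) (n : ℕ) (w : ℕ → Bool) : ℝ :=
  if some ⟨n, ⟨num n w, num_lt n w⟩⟩ ∈ T then a (some ⟨n, ⟨num n w, num_lt n w⟩⟩) * wt p n else 0

lemma dep_pc (p : ℝ) (T : Finset Idx) (a : Idx → ℝ) (n : ℕ) : Dep n (pc p T a n) := by
  intro x y h
  unfold pc
  have h1 : num n x = num n y := num_congr h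
  have h2 : (⟨num n x, num_lt n x⟩ : Fin (2 ^ n)) = ⟨num n y, num_lt n y⟩ := Fin.ext h1
  rw [h2]

/-- The constant term. -/
noncomputable def c0 (T : Finset Idx) (a : Idx → ℝ) : ℝ := if none ∈ T then a none else 0

lemma sum_eq_mart (p : ℝ) (T : Finset Idx) (a : Idx → ℝ) (w : ℕ → Bool) :
    ∑ j ∈ T, a j * cH p j w = mart (c0 T a) (pc p T a) (top T) w := by
  unfold mart
  have hmaps : ∀ j ∈ T, lvl j ∈ range (top T + 1) := fun j hj =>
    mem_range.mpr (Nat.lt_succ_of_le (lvl_le_top hj))
  rw [← sum_fiberwise_of_maps_to hmaps, sum_range_succ']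
  rw [add_comm]
  congr 1
  · unfold c0
    have : T.filter (fun j => lvl j = 0) = if none ∈ T then {none} else ∅ := by
      ext j
      rcases j with _ | ⟨n, k⟩
      · rw [mem_filter]
        split_ifs with h
        · simp [h, lvl]
        · simp [h]
      · rw [mem_filter]
        constructor
        · rintro ⟨_, h⟩
          simp [lvl] at h
        · intro h
          split_ifs at h
          · simp at h
          · simp at h
    rw [this]
    split_ifs
    · rw [sum_singleton]
      change a none * 1 = _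
      ring
    · rw [sum_empty]
  · apply sum_congr rfl
    intro n _
    unfold pc
    have hz : ∀ j ∈ T.filter (fun j => lvl j = n + 1), j ≠ some ⟨n, ⟨num n w, num_lt n w⟩⟩ →
        a j * cH p j w = 0 := by
      intro j hj hne
      rw [mem_filter] at hj
      rcases j with _ | ⟨m, k⟩
      · simp [lvl] at hj
      · have hm : m = n := by
          have := hj.2
          simp only [lvl] at this
          omega
        subst hm
        rw [cH_some]
        unfold cI
        rw [if_neg]
        · ring
        · intro h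
          apply hne
          rw [Option.some_inj, Sigma.mk.injEq]
          exact ⟨rfl, heq_of_eq (Fin.ext h.symm)⟩
    split_ifs with h
    · have hmem : (some ⟨n, ⟨num n w, num_lt n w⟩⟩ : Idx) ∈ T.filter (fun j => lvl j = n + 1) :=
        mem_filter.2 ⟨h, rfl⟩
      rw [sum_eq_single_of_mem _ hmem hz, cH_some]
      unfold cI
      rw [if_pos rfl]
      ring
    · rw [zero_mul]
      apply sum_eq_zero
      intro j hj
      apply hz j hj
      intro e
      rw [e] at hj
      exact h (mem_filter.1 hj).1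

lemma dep_sum (p : ℝ) (T : Finset Idx) (a : Idx → ℝ) :
    Dep (top T) (fun w => ∑ j ∈ T, a j * cH p j w) :=
  Dep.sum T fun j hj => (dep_const _ _).mul ((dep_cH p j).mono (lvl_le_top hj))

/-- Unconditionality. -/
theorem unc_cH {p : ℝ} (hp : 1 < p) : ∃ C : ℝ, 0 < C ∧ ∀ (T : Finset Idx) (a θ : Idx → ℝ),
    (∀ j, |θ j| ≤ 1) → nm p (fun w => ∑ j ∈ T, (θ j * a j) * cH p j w) ≤
      C * nm p (fun w => ∑ j ∈ T, a j * cH p j w) := by
  obtain ⟨C, hC, h⟩ := burk hp
  refine ⟨C, hC, fun T a θ hθ => ?_⟩
  have e1 : (fun w => ∑ j ∈ T, a j * cH p j w) = mart (c0 T a) (pc p T a) (top T) := by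
    funext w; exact sum_eq_mart p T a w
  have e2 : (fun w => ∑ j ∈ T, (θ j * a j) * cH p j w) =
      mart (c0 T (fun j => θ j * a j)) (pc p T (fun j => θ j * a j)) (top T) := by
    funext w; exact sum_eq_mart p T (fun j => θ j * a j) w
  rw [e1, e2]
  have h1 := h (c0 T a) (θ none) (pc p T a) (fun n w => θ (some ⟨n, ⟨num n w, num_lt n w⟩⟩))
    (dep_pc p T a) (fun n => by
      intro x y hxy
      have h1 : num n x = num n y := num_congr hxy
      have h2 : (⟨num n x, num_lt n x⟩ : Fin (2 ^ n)) = ⟨num n y, num_lt n y⟩ := Fin.ext h1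
      change θ (some ⟨n, ⟨num n x, num_lt n x⟩⟩) = θ (some ⟨n, ⟨num n y, num_lt n y⟩⟩)
      rw [h2]) (hθ _) (fun n w => hθ _) (top T)
  have e3 : θ none * c0 T a = c0 T (fun j => θ j * a j) := by
    unfold c0; split_ifs <;> ring
  have e4 : (fun n w => θ (some ⟨n, ⟨num n w, num_lt n w⟩⟩) * pc p T a n w) =
      pc p T (fun j => θ j * a j) := by
    funext n w
    unfold pc
    split_ifs <;> ring
  rw [e3, e4] at h1
  exact h1

/-! ### Democracy -/

/-- The sum of the absolute values. -/
noncomputable def sA (p : ℝ) (A : Finset Idx) (w : ℕ → Bool) : ℝ := ∑ j ∈ A, |cH p j w|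

lemma dep_sA (p : ℝ) (A : Finset Idx) : Dep (top A) (sA p A) :=
  Dep.sum A fun j hj => ((dep_cH p j).mono (lvl_le_top hj)).map (fun x => |x|)

lemma wt_eq_pow {p : ℝ} (n : ℕ) : wt p n = ((2:ℝ) ^ (1 / p)) ^ n := by
  unfold wt
  rw [← Real.rpow_natCast, ← Real.rpow_mul (by norm_num), ← Real.rpow_natCast,
    ← Real.rpow_mul (by norm_num), mul_comm]

lemma sA_le {p : ℝ} (hp : 0 < p) (A : Finset Idx) (w : ℕ → Bool) :
    sA p A w ≤ ((2:ℝ) ^ (1 / p)) ^ 2 / ((2:ℝ) ^ (1 / p) - 1) * (∑ j ∈ A, |cH p j w| ^ p) ^ (1 / p) := by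
  set β : ℝ := (2:ℝ) ^ (1 / p) with hβ
  have hβ1 : 1 < β := Real.one_lt_rpow (by norm_num) (by positivity)
  have hβ0 : 0 < β := by linarith
  have hR : 0 ≤ (∑ j ∈ A, |cH p j w| ^ p) ^ (1 / p) :=
    Real.rpow_nonneg (sum_nonneg fun j _ => Real.rpow_nonneg (abs_nonneg _) _) _
  set A' := A.filter (fun j => cH p j w ≠ 0) with hA'
  have hsum : sA p A w = ∑ j ∈ A', |cH p j w| := by
    unfold sA
    rw [hA', sum_filter]
    apply sum_congr rfl
    intro j _
    split_ifs with h
    · rfl
    · rw [not_not] at h; rw [h, abs_zero]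
  rcases A'.eq_empty_or_nonempty with hE | hne
  · rw [hsum, hE, sum_empty]
    have : 0 < β - 1 := by linarith
    positivity
  -- values
  have hval : ∀ j ∈ A', |cH p j w| ≤ β ^ lvl j ∧ β ^ lvl j ≤ β * |cH p j w| := by
    intro j hj
    have hj0 := (mem_filter.1 hj).2
    rcases j with _ | ⟨n, k⟩
    · change |(1:ℝ)| ≤ β ^ 0 ∧ β ^ 0 ≤ β * |(1:ℝ)|
      simp [hβ1.le]
    · have h1 : num n w = k := by
        by_contra hcon
        apply hj0
        rw [cH_some]; unfold cI; rw [if_neg hcon]; ring
      rw [abs_cH_some]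
      unfold cI
      rw [if_pos h1, mul_one, wt_eq_pow, ← hβ]
      change β ^ n ≤ β ^ (n + 1) ∧ β ^ (n + 1) ≤ β * β ^ n
      constructor
      · exact pow_le_pow_right₀ hβ1.le (Nat.le_succ n)
      · rw [pow_succ]; linarith [mul_comm β (β ^ n)]
  have hinj : Set.InjOn lvl A' := by
    intro i hi j hj hij
    have hi0 := (mem_filter.1 hi).2
    have hj0 := (mem_filter.1 hj).2
    rcases i with _ | ⟨n, k⟩
    · rcases j with _ | ⟨m, l⟩
      · rfl
      · simp [lvl] at hij
    · rcases j with _ | ⟨m, l⟩
      · simp [lvl] at hij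
      · have hnm : n = m := by simpa [lvl] using hij
        subst hnm
        have h1 : num n w = k := by
          by_contra hcon
          apply hi0
          rw [cH_some]; unfold cI; rw [if_neg hcon]; ring
        have h2 : num n w = l := by
          by_contra hcon
          apply hj0
          rw [cH_some]; unfold cI; rw [if_neg hcon]; ring
        rw [Option.some_inj, Sigma.mk.injEq]
        exact ⟨rfl, heq_of_eq (Fin.ext (h1.symm.trans h2))⟩
  obtain ⟨j₀, hj₀, hmax⟩ := A'.exists_max_image lvl hne
  set M := lvl j₀ with hM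
  have h1 : ∑ j ∈ A', |cH p j w| ≤ β ^ (M + 1) / (β - 1) := by
    calc _ ≤ ∑ j ∈ A', β ^ lvl j := sum_le_sum fun j hj => (hval j hj).1
      _ = ∑ m ∈ A'.image lvl, β ^ m := by rw [sum_image hinj]
      _ ≤ ∑ m ∈ range (M + 1), β ^ m := by
          apply sum_le_sum_of_subset_of_nonneg
          · intro m hm
            rw [mem_image] at hm
            obtain ⟨j, hj, rfl⟩ := hm
            exact mem_range.2 (Nat.lt_succ_of_le (hmax j hj))
          · intro m _ _; positivity
      _ = (β ^ (M + 1) - 1) / (β - 1) := geom_sum_eq hβ1.ne' _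
      _ ≤ _ := by
          apply div_le_div_of_nonneg_right _ (by linarith)
          linarith
  have h2 : |cH p j₀ w| ≤ (∑ j ∈ A, |cH p j w| ^ p) ^ (1 / p) := by
    have h3 : |cH p j₀ w| ^ p ≤ ∑ j ∈ A, |cH p j w| ^ p :=
      single_le_sum (f := fun j => |cH p j w| ^ p) (fun j _ => Real.rpow_nonneg (abs_nonneg _) _)
        (mem_filter.1 hj₀).1
    have h4 := Real.rpow_le_rpow (Real.rpow_nonneg (abs_nonneg _) _) h3 (by positivity : 0 ≤ 1 / p)
    rwa [← Real.rpow_mul (abs_nonneg _), mul_one_div_cancel hp.ne', Real.rpow_one] at h4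
  rw [hsum]
  refine h1.trans ?_
  have h5 : β ^ (M + 1) ≤ β ^ 2 * |cH p j₀ w| := by
    rw [pow_succ]
    have := (hval j₀ hj₀).2
    nlinarith
  rw [div_mul_eq_mul_div]
  apply div_le_div_of_nonneg_right _ (by linarith)
  refine h5.trans (mul_le_mul_of_nonneg_left h2 (by positivity))

/-- Democracy, in a strong form. -/
theorem nm_sA {p : ℝ} (hp : 1 < p) : ∃ C : ℝ, 0 < C ∧ ∀ A : Finset Idx,
    nm p (sA p A) ≤ C * (A.card : ℝ) ^ (1 / p) := by
  have hp0 : 0 < p := by linarith
  set β : ℝ := (2:ℝ) ^ (1 / p) with hβ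
  have hβ1 : 1 < β := Real.one_lt_rpow (by norm_num) (by positivity)
  set C : ℝ := β ^ 2 / (β - 1) with hC
  have hCpos : 0 < C := by
    have : 0 < β - 1 := by linarith
    positivity
  refine ⟨C, hCpos, fun A => ?_⟩
  have hD : ∀ j ∈ A, Dep (top A) (fun w => |cH p j w| ^ p) := fun j hj =>
    ((dep_cH p j).mono (lvl_le_top hj)).map (fun x => |x| ^ p)
  have h1 : E (fun w => |sA p A w| ^ p) ≤ C ^ p * A.card := by
    have h2 : E (fun w => |sA p A w| ^ p) ≤ E (fun w => C ^ p * ∑ j ∈ A, |cH p j w| ^ p) := by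
      apply E_mono ((dep_sA p A).map (fun x => |x| ^ p)) ((dep_const _ _).mul (Dep.sum A hD))
      intro w
      have h3 : 0 ≤ sA p A w := sum_nonneg fun j _ => abs_nonneg _
      have h4 : 0 ≤ ∑ j ∈ A, |cH p j w| ^ p := sum_nonneg fun j _ => Real.rpow_nonneg (abs_nonneg _) _
      rw [abs_of_nonneg h3]
      refine (Real.rpow_le_rpow h3 (sA_le hp0 A w) hp0.le).trans (le_of_eq ?_)
      rw [← hβ, ← hC, Real.mul_rpow hCpos.le (Real.rpow_nonneg h4 _), ← Real.rpow_mul h4,
        one_div, inv_mul_cancel₀ hp0.ne', Real.rpow_one]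
    refine h2.trans (le_of_eq ?_)
    rw [E_mul_left, E_sum A hD, sum_congr rfl fun j _ => E_abs_cH hp0 j, sum_const, nsmul_eq_mul,
      mul_one]
  unfold nm
  refine (Real.rpow_le_rpow (E_rpow_nonneg p _) h1 (by positivity)).trans (le_of_eq ?_)
  rw [Real.mul_rpow (by positivity) (by positivity), ← Real.rpow_mul hCpos.le,
    mul_one_div_cancel hp0.ne', Real.rpow_one]

/-! ### Density -/

lemma word_cH (p : ℝ) (l : List Bool) : ∃ j : Idx, haar p l = cH p j := by
  refine ⟨some ⟨l.length, ⟨num l.length (fun i => l.getD i false), num_lt _ _⟩⟩, ?_⟩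
  funext w
  rw [cH_some]
  unfold haar cellI cI
  simp only [pre_eq_iff]
  have : (∀ i < l.length, w i = l.getD i false) ↔
    num l.length w = num l.length (fun i => l.getD i false) := num_eq_iff.symm
  simp only [this]

/-- Every cylinder function is a finite Haar sum. -/
theorem cyl_cH (p : ℝ) {n : ℕ} {F : (ℕ → Bool) → ℝ} (hF : Dep n F) :
    F ∈ Submodule.span ℝ (Set.range (cH p)) := by
  have h1 := cyl_SH p hF
  refine (Submodule.span_le.2 ?_) h1
  rintro _ ⟨i, rfl⟩
  rcases i with i | l
  · exact Submodule.subset_span ⟨none, rfl⟩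
  · obtain ⟨j, hj⟩ := word_cH p l
    change haar p l ∈ _
    rw [hj]
    exact Submodule.subset_span ⟨j, rfl⟩

end Pool.Agent.L5helper81.HaarG
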