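import Mathlib
import Pool.Agent.L5helper81.HaarCyl

/-!
# The Haar system in real `L_p`

Biorthogonality, unconditionality and convergence of the Haar expansions.
-/

set_option autoImplicit false

open MeasureTheory Finset Filter Topology
open scoped ENNReal
open Pool.Agent.H66R3.PG

namespace Pool.Agent.L5helper81.HaarG

/-- The Haar functions on `[0,1)`, normalized in `L_p`. -/
noncomputable def haarFun (p : ℝ) : Idx → ℝ → ℝ
  | none => (Set.Ico (0 : ℝ) 1).indicator (fun _ => 1)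
  | some ⟨n, k⟩ => fun x => (2 : ℝ) ^ ((n : ℝ) / p) *
      ((Set.Ico (((k : ℕ) : ℝ) / 2 ^ n) ((((k : ℕ) : ℝ) + 1 / 2) / 2 ^ n)).indicator (fun _ => 1) x -
        (Set.Ico ((((k : ℕ) : ℝ) + 1 / 2) / 2 ^ n) ((((k : ℕ) : ℝ) + 1) / 2 ^ n)).indicator
          (fun _ => 1) x)

lemma haarFun_eq (p : ℝ) {x : ℝ} (hx : x ∈ Set.Ico (0 : ℝ) 1) (j : Idx) :
    haarFun p j x = cH p j (dig x) := by
  rcases j with _ | ⟨n, k⟩
  · change (Set.Ico (0 : ℝ) 1).indicator (fun _ => (1:ℝ)) x = 1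
    rw [Set.indicator_of_mem hx]
  · rw [cH_some]
    have hw : wt p n = (2 : ℝ) ^ ((n : ℝ) / p) := by
      unfold wt
      rw [← Real.rpow_natCast, ← Real.rpow_mul (by norm_num)]
      congr 1; ring
    rw [hw, mul_assoc]
    change (2 : ℝ) ^ ((n : ℝ) / p) * _ = _
    congr 1
    have hp : (0 : ℝ) < 2 ^ n := by positivity
    have h0 : (0 : ℝ) ≤ 2 ^ (n + 1) * x := by have := hx.1; positivity
    have h1 : num (n + 1) (dig x) = ⌊(2:ℝ) ^ (n + 1) * x⌋₊ := num_dig hx.1 hx.2 (n + 1)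
    have h2 : num (n + 1) (dig x) = 2 * num n (dig x) + (if dig x n then 1 else 0) := rfl
    have e1 : x ∈ Set.Ico (((k : ℕ) : ℝ) / 2 ^ n) ((((k : ℕ) : ℝ) + 1 / 2) / 2 ^ n) ↔
        num (n + 1) (dig x) = 2 * k := by
      rw [h1, Nat.floor_eq_iff h0, Set.mem_Ico, div_le_iff₀ hp, lt_div_iff₀ hp]
      push_cast
      rw [pow_succ]
      constructor
      · rintro ⟨h3, h4⟩; constructor <;> linarith
      · rintro ⟨h3, h4⟩; constructor <;> linarith
    have e2 : x ∈ Set.Ico ((((k : ℕ) : ℝ) + 1 / 2) / 2 ^ n) ((((k : ℕ) : ℝ) + 1) / 2 ^ n) ↔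
        num (n + 1) (dig x) = 2 * k + 1 := by
      rw [h1, Nat.floor_eq_iff h0, Set.mem_Ico, div_le_iff₀ hp, lt_div_iff₀ hp]
      push_cast
      rw [pow_succ]
      constructor
      · rintro ⟨h3, h4⟩; constructor <;> linarith
      · rintro ⟨h3, h4⟩; constructor <;> linarith
    simp only [Set.indicator, e1, e2]
    rw [h2]
    unfold cI rd
    by_cases h3 : num n (dig x) = k
    · rw [h3]
      cases h4 : dig x n
      · simp
      · simp
    · rw [if_neg h3, zero_mul]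
      rw [if_neg, if_neg]
      · ring
      · split_ifs <;> omega
      · split_ifs <;> omega

lemma ae_Ico : ∀ᵐ x ∂mu, x ∈ Set.Ico (0 : ℝ) 1 := by
  unfold mu
  rw [← Measure.restrict_congr_set Ico_ae_eq_Icc]
  exact ae_restrict_mem measurableSet_Ico

variable {P Q : ℝ≥0∞}

/-- The Haar functions in real `L_p`. -/
noncomputable def hR (P : ℝ≥0∞) (j : Idx) : Lp ℝ P mu := cl P (cH P.toReal j)

lemma coe_hR (j : Idx) : hR P j =ᵐ[mu] fun x => cH P.toReal j (dig x) := coe_cl (dep_cH _ j)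

lemma sum_hR [Fact (1 ≤ P)] (T : Finset Idx) (a : Idx → ℝ) :
    ∑ j ∈ T, a j • hR P j = cl P (fun w => ∑ j ∈ T, a j * cH P.toReal j w) :=
  (cl_sum T a fun j hj => (dep_cH P.toReal j).mono (lvl_le_top hj)).symm

lemma norm_sum_hR [Fact (1 ≤ P)] (hP : 1 < P.toReal) (T : Finset Idx) (a : Idx → ℝ) :
    ‖∑ j ∈ T, a j • hR P j‖ = nm P.toReal (fun w => ∑ j ∈ T, a j * cH P.toReal j w) := by
  rw [sum_hR, norm_cl hP (dep_sum P.toReal T a)]

/-- Unconditionality for finite sums. -/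
theorem unc_R [Fact (1 ≤ P)] (hP : 1 < P.toReal) : ∃ C : ℝ, 0 < C ∧ ∀ (T : Finset Idx)
    (a θ : Idx → ℝ), (∀ i, |θ i| ≤ 1) → ‖∑ i ∈ T, (θ i * a i) • hR P i‖ ≤
      C * ‖∑ i ∈ T, a i • hR P i‖ := by
  obtain ⟨C, hC, h⟩ := unc_cH hP
  refine ⟨C, hC, fun T a θ hθ => ?_⟩
  rw [norm_sum_hR hP, norm_sum_hR hP]
  exact h T a θ hθ

section pair

variable [Fact (1 ≤ P)] [Fact (1 ≤ Q)] [ENNReal.HolderConjugate Q P]

/-- The coefficient functionals on real `L_p`. -/
noncomputable def aR (P Q : ℝ≥0∞) [Fact (1 ≤ P)] [Fact (1 ≤ Q)] [ENNReal.HolderConjugate Q P]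
    (j : Idx) : Lp ℝ P mu →L[ℝ] ℝ :=
  (ContinuousLinearMap.mul ℝ ℝ).lpPairing mu Q P (hR Q j)

lemma aR_apply (j : Idx) (f : Lp ℝ P mu) :
    aR P Q j f = ∫ x, cH Q.toReal j (dig x) * f x ∂mu := by
  unfold aR
  rw [ContinuousLinearMap.lpPairing_eq_integral]
  apply integral_congr_ae
  filter_upwards [coe_hR (P := Q) j] with x hx
  rw [hx]
  rfl

lemma aR_hR (hPQ : 1 / P.toReal + 1 / Q.toReal = 1) (i j : Idx) :
    aR P Q i (hR P j) = if i = j then 1 else 0 := by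
  rw [aR_apply, ← E_cH_cH hPQ i j]
  unfold E
  apply integral_congr_ae
  filter_upwards [coe_hR (P := P) j] with x hx
  rw [hx]

lemma aR_sum (hPQ : 1 / P.toReal + 1 / Q.toReal = 1) (T : Finset Idx) (a : Idx → ℝ) (i : Idx) :
    aR P Q i (∑ j ∈ T, a j • hR P j) = if i ∈ T then a i else 0 := by
  rw [map_sum]
  have : ∀ j ∈ T, aR P Q i (a j • hR P j) = if i = j then a j else 0 := by
    intro j _
    rw [map_smul, aR_hR hPQ, smul_eq_mul]
    split_ifs <;> simp
  rw [sum_congr rfl this, sum_ite_eq]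

/-- Finite Haar sums are dense. -/
lemma dense_R (hP : 1 < P.toReal) (f : Lp ℝ P mu) {ε : ℝ} (hε : 0 < ε) :
    ∃ (T : Finset Idx) (a : Idx → ℝ), ‖f - ∑ j ∈ T, a j • hR P j‖ < ε := by
  have hPt : P ≠ ⊤ := by
    intro h; rw [h] at hP; norm_num at hP
  obtain ⟨n, F, hF, h⟩ := exists_cyl hPt f hε
  have h1 := cyl_cH P.toReal hF
  rw [Finsupp.mem_span_range_iff_exists_finsupp] at h1
  obtain ⟨c, hc⟩ := h1
  refine ⟨c.support, c, ?_⟩
  rw [sum_hR]
  have h2 : (fun w => ∑ j ∈ c.support, c j * cH P.toReal j w) = F := by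
    rw [← hc]
    funext w
    simp [Finsupp.sum]
  rw [h2]
  exact h

/-- Unconditionality for expansions. -/
theorem unc2_R (hP : 1 < P.toReal) (hPQ : 1 / P.toReal + 1 / Q.toReal = 1) :
    ∃ K : ℝ, 0 < K ∧ ∀ (F : Finset Idx) (θ : Idx → ℝ), (∀ i, |θ i| ≤ 1) → ∀ f : Lp ℝ P mu,
      ‖∑ i ∈ F, (θ i * aR P Q i f) • hR P i‖ ≤ K * ‖f‖ := by
  classical
  obtain ⟨K, hK, h⟩ := unc_R hP
  refine ⟨K, hK, fun F θ hθ f => ?_⟩
  have hcl : IsClosed {f : Lp ℝ P mu | ‖∑ i ∈ F, (θ i * aR P Q i f) • hR P i‖ ≤ K * ‖f‖} := by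
    apply isClosed_le
    · apply Continuous.norm
      apply continuous_finsetSum
      intro i _
      exact (continuous_const.mul (aR P Q i).continuous).smul continuous_const
    · exact continuous_const.mul continuous_norm
  have hdense : f ∈ closure {f : Lp ℝ P mu | ‖∑ i ∈ F, (θ i * aR P Q i f) • hR P i‖ ≤ K * ‖f‖} := by
    rw [Metric.mem_closure_iff]
    intro ε hε
    obtain ⟨T, a, hT⟩ := dense_R (P := P) hP f hε
    refine ⟨∑ j ∈ T, a j • hR P j, ?_, by rw [dist_eq_norm]; exact hT⟩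
    rw [Set.mem_ofPred_eq]
    have e : ∑ i ∈ F, (θ i * aR P Q i (∑ j ∈ T, a j • hR P j)) • hR P i =
        ∑ i ∈ T, ((if i ∈ F then θ i else 0) * a i) • hR P i := by
      have e1 : ∀ i ∈ F, (θ i * aR P Q i (∑ j ∈ T, a j • hR P j)) • hR P i =
          if i ∈ T then (θ i * a i) • hR P i else 0 := by
        intro i _
        rw [aR_sum hPQ]
        split_ifs <;> simp
      have e2 : ∀ i ∈ T, ((if i ∈ F then θ i else 0) * a i) • hR P i =
          if i ∈ F then (θ i * a i) • hR P i else 0 := by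
        intro i _
        split_ifs <;> simp
      rw [sum_congr rfl e1, sum_congr rfl e2, ← sum_filter, ← sum_filter, filter_mem_eq_inter,
        filter_mem_eq_inter, inter_comm]
    rw [e]
    apply h T a (fun i => if i ∈ F then θ i else 0)
    intro i
    split_ifs
    · exact hθ i
    · simp
  rw [hcl.closure_eq] at hdense
  exact hdense

/-- Unconditional convergence of the Haar expansions. -/
theorem hasSum_R (hP : 1 < P.toReal) (hPQ : 1 / P.toReal + 1 / Q.toReal = 1) (f : Lp ℝ P mu) :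
    HasSum (fun i => aR P Q i f • hR P i) f := by
  classical
  obtain ⟨K, hK, h⟩ := unc2_R (P := P) (Q := Q) hP hPQ
  rw [HasSum, SummationFilter.unconditional_filter, Metric.tendsto_atTop]
  intro ε hε
  have hK1 : 0 < K + 1 := by linarith
  obtain ⟨T, a, hT⟩ := dense_R (P := P) hP f (div_pos hε hK1)
  refine ⟨T, fun F hF => ?_⟩
  set g := ∑ j ∈ T, a j • hR P j with hg
  have h1 : ∑ i ∈ F, aR P Q i g • hR P i = g := by
    have e1 : ∀ i ∈ F, aR P Q i g • hR P i = if i ∈ T then a i • hR P i else 0 := by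
      intro i _
      rw [hg, aR_sum hPQ]
      split_ifs <;> simp
    rw [sum_congr rfl e1, ← sum_filter, filter_mem_eq_inter, inter_eq_right.2 hF]
  have h2 : ∑ i ∈ F, aR P Q i f • hR P i - f =
      ∑ i ∈ F, ((1:ℝ) * aR P Q i (f - g)) • hR P i - (f - g) := by
    have e2 : ∀ i ∈ F, ((1:ℝ) * aR P Q i (f - g)) • hR P i =
        aR P Q i f • hR P i - aR P Q i g • hR P i := by
      intro i _
      rw [one_mul, map_sub, sub_smul]
    rw [sum_congr rfl e2, sum_sub_distrib, h1]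
    abel
  rw [dist_eq_norm, h2]
  have h3 := h F (fun _ => 1) (fun _ => by simp) (f - g)
  calc _ ≤ K * ‖f - g‖ + ‖f - g‖ := (norm_sub_le _ _).trans (by linarith)
    _ = (K + 1) * ‖f - g‖ := by ring
    _ < (K + 1) * (ε / (K + 1)) := mul_lt_mul_of_pos_left hT hK1
    _ = ε := by field_simp

end pair

end Pool.Agent.L5helper81.HaarG
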