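import Mathlib

/-!
# A norm for which a bidemocratic unconditional basis of power type is 1-greedy

For a basis `h` with coefficient functionals `a` the norm is the supremum of the numbers
`|A|^(r-1) * ∑_{A} |a_i f| + δ * ∑_{F} φ_i |a_i f|` where `A` is a finite nonempty set, `F` is a finite set
disjoint from `A`, `φ` is (the restriction to `F` of) a positive element of the dual unit ball, and
`φ ≤ |A|^(r-1)`.
-/

open Filter Topology

namespace Pool.Agent.L5helper81.OneGreedy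

/-! ### The weight -/

/-- The weight `m^(r-1)`. -/
noncomputable def wt (r : ℝ) (m : ℕ) : ℝ := (m : ℝ) ^ (r - 1)

theorem wt_pos {r : ℝ} {m : ℕ} (hm : 0 < m) : 0 < wt r m :=
  Real.rpow_pos_of_pos (by exact_mod_cast hm) _

theorem wt_one (r : ℝ) : wt r 1 = 1 := by simp [wt]

theorem mul_wt {r : ℝ} {m : ℕ} (hm : 0 < m) : (m : ℝ) * wt r m = (m : ℝ) ^ r := by
  have h : (0 : ℝ) < m := by exact_mod_cast hm
  unfold wt
  rw [Real.rpow_sub_one h.ne']
  field_simp

/-- Concavity. -/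
theorem wt_key {r : ℝ} (hr : 0 < r) (hr1 : r < 1) {m : ℕ} (hm : 0 < m) :
    r * wt r (m + 1) ≤ (m + 1 : ℕ) * wt r (m + 1) - m * wt r m := by
  have h : (0 : ℝ) < m := by exact_mod_cast hm
  have h1 : (0 : ℝ) < (m : ℝ) + 1 := by linarith
  rw [mul_wt hm, mul_wt (Nat.succ_pos m)]
  unfold wt
  push_cast
  have hb := _root_.rpow_one_add_le_one_add_mul_self (s := -(1 / ((m : ℝ) + 1)))
    (by
      have : 1 / ((m : ℝ) + 1) ≤ 1 := by rw [div_le_one h1]; linarith
      linarith) hr.le hr1.le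
  have e : 1 + -(1 / ((m : ℝ) + 1)) = m / (m + 1) := by field_simp; ring
  rw [e, Real.div_rpow h.le h1.le, div_le_iff₀ (Real.rpow_pos_of_pos h1 _)] at hb
  have e2 : (1 + r * -(1 / ((m : ℝ) + 1))) * ((m : ℝ) + 1) ^ r =
      ((m : ℝ) + 1) ^ r - r * ((m : ℝ) + 1) ^ (r - 1) := by
    rw [Real.rpow_sub_one h1.ne']
    field_simp
    ring
  rw [e2] at hb
  linarith

theorem wt_anti {r : ℝ} (hr1 : r < 1) {m : ℕ} (hm : 0 < m) : wt r (m + 1) ≤ wt r m := by
  unfold wt
  apply Real.rpow_le_rpow_of_nonpos (by exact_mod_cast hm)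
  · push_cast; linarith
  · linarith

theorem wt_diff {r : ℝ} (hr : 0 < r) (hr1 : r < 1) {m : ℕ} (hm : 0 < m) :
    ((m + 1 : ℕ) : ℝ) * (wt r m - wt r (m + 1)) ≤ 2 * wt r (m + 1) := by
  have h : (1 : ℝ) ≤ m := by exact_mod_cast hm
  have h1 := wt_key hr hr1 hm
  have h2 := wt_anti hr1 hm
  have h3 := wt_pos (r := r) (Nat.succ_pos m)
  push_cast at h1 ⊢
  nlinarith

theorem wt_le_two {r : ℝ} (hr : 0 < r) (hr1 : r < 1) {m : ℕ} (hm : 0 < m) :
    wt r m ≤ 2 * wt r (m + 1) := by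
  have h : (1 : ℝ) ≤ m := by exact_mod_cast hm
  have h1 := wt_key hr hr1 hm
  have h2 := wt_anti hr1 hm
  have h3 := wt_pos (r := r) (Nat.succ_pos m)
  push_cast at h1
  nlinarith

/-! ### The data -/

section Data

variable {𝕜 X ι : Type*} [RCLike 𝕜] [NormedAddCommGroup X] [NormedSpace 𝕜 X]

/-- Admissible triples. -/
structure Adm (a : ι → X →L[𝕜] 𝕜) (r : ℝ) (A F : Finset ι) (φ : ι → ℝ) : Prop where
  ne : A.Nonempty
  disj : Disjoint F A
  nonneg : ∀ i ∈ F, 0 ≤ φ i
  le : ∀ i ∈ F, φ i ≤ wt r A.card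
  dual : ∀ f : X, ∑ i ∈ F, φ i * ‖a i f‖ ≤ ‖f‖

/-- The value of a triple at a family of numbers. -/
noncomputable def val (r δ : ℝ) (A F : Finset ι) (φ : ι → ℝ) (u : ι → ℝ) : ℝ :=
  wt r A.card * ∑ i ∈ A, u i + δ * ∑ i ∈ F, φ i * u i

variable {a : ι → X →L[𝕜] 𝕜} {h : ι → X} {r δ C K : ℝ}

theorem Adm.wt_pos {A F : Finset ι} {φ : ι → ℝ} (hA : Adm a r A F φ) : 0 < wt r A.card :=
  OneGreedy.wt_pos hA.ne.card_pos

theorem val_mono (hδ : 0 ≤ δ) {A F : Finset ι} {φ : ι → ℝ} (hA : Adm a r A F φ) {u v : ι → ℝ}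
    (huv : ∀ i, u i ≤ v i) : val r δ A F φ u ≤ val r δ A F φ v := by
  unfold val
  have h1 := hA.wt_pos
  have h2 : ∑ i ∈ A, u i ≤ ∑ i ∈ A, v i := Finset.sum_le_sum fun i _ => huv i
  have h3 : ∑ i ∈ F, φ i * u i ≤ ∑ i ∈ F, φ i * v i :=
    Finset.sum_le_sum fun i hi => mul_le_mul_of_nonneg_left (huv i) (hA.nonneg i hi)
  have := mul_le_mul_of_nonneg_left h2 h1.le
  have := mul_le_mul_of_nonneg_left h3 hδ
  linarith

/-- Few coefficients of `φ` are large. -/
theorem card_le [DecidableEq ι] (hr : r < 1) (hbi : ∀ i j, a i (h j) = if i = j then 1 else 0) (hC : 0 < C)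
    (hdem : ∀ A : Finset ι, ‖∑ i ∈ A, h i‖ ≤ C * (A.card : ℝ) ^ r)
    {A F E : Finset ι} {φ : ι → ℝ} (hA : Adm a r A F φ) (hE : E ⊆ F) {m : ℕ} (hm : 0 < m)
    (hEw : ∀ i ∈ E, wt r m ≤ φ i) : (E.card : ℝ) ≤ C ^ (1 / (1 - r)) * m := by
  rcases E.eq_empty_or_nonempty with rfl | hne
  · simp; positivity
  have hmpos : (0 : ℝ) < m := by exact_mod_cast hm
  have hEpos : (0 : ℝ) < E.card := by exact_mod_cast hne.card_pos
  have h1 := hA.dual (∑ i ∈ E, h i)
  have h2 : ∀ i ∈ E, ‖a i (∑ j ∈ E, h j)‖ = 1 := by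
    intro i hi
    rw [map_sum, Finset.sum_congr rfl fun j _ => hbi i j, Finset.sum_ite_eq, if_pos hi, norm_one]
  have h3 : ∑ i ∈ E, φ i * ‖a i (∑ j ∈ E, h j)‖ ≤ ∑ i ∈ F, φ i * ‖a i (∑ j ∈ E, h j)‖ :=
    Finset.sum_le_sum_of_subset_of_nonneg hE fun i hi _ => mul_nonneg (hA.nonneg i hi) (norm_nonneg _)
  have h4 : (E.card : ℝ) * wt r m ≤ ∑ i ∈ E, φ i * ‖a i (∑ j ∈ E, h j)‖ := by
    rw [← nsmul_eq_mul, ← Finset.sum_const]
    refine Finset.sum_le_sum fun i hi => ?_
    rw [h2 i hi, mul_one]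
    exact hEw i hi
  have h5 : (E.card : ℝ) * wt r m ≤ C * (E.card : ℝ) ^ r :=
    h4.trans (h3.trans (h1.trans (hdem E)))
  have h6 : (E.card : ℝ) ^ (1 - r) ≤ C * (m : ℝ) ^ (1 - r) := by
    unfold wt at h5
    have e1 : (E.card : ℝ) ^ (1 - r) * (E.card : ℝ) ^ r = E.card := by
      rw [← Real.rpow_add hEpos]; simp
    have e2 : (m : ℝ) ^ (1 - r) * (m : ℝ) ^ (r - 1) = 1 := by
      rw [← Real.rpow_add hmpos]; simp
    have hp1 : 0 < (E.card : ℝ) ^ r := Real.rpow_pos_of_pos hEpos _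
    have hp2 : 0 < (m : ℝ) ^ (1 - r) := Real.rpow_pos_of_pos hmpos _
    have h7 := mul_le_mul_of_nonneg_right h5 hp2.le
    have h8 : (E.card : ℝ) * (m : ℝ) ^ (r - 1) * (m : ℝ) ^ (1 - r) = E.card := by
      rw [mul_assoc, mul_comm ((m : ℝ) ^ (r - 1)), e2, mul_one]
    rw [h8] at h7
    have h9 : C * (E.card : ℝ) ^ r * (m : ℝ) ^ (1 - r) = C * (m : ℝ) ^ (1 - r) * (E.card : ℝ) ^ r := by
      ring
    rw [h9] at h7
    have h10 : (E.card : ℝ) ^ (1 - r) * (E.card : ℝ) ^ r ≤ C * (m : ℝ) ^ (1 - r) * (E.card : ℝ) ^ r := by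
      rw [e1]; exact h7
    exact le_of_mul_le_mul_right h10 hp1
  have h1r : 0 < 1 - r := by linarith
  have h7 := Real.rpow_le_rpow (by positivity) h6 (by positivity : 0 ≤ 1 / (1 - r))
  rw [← Real.rpow_mul hEpos.le, Real.mul_rpow hC.le (by positivity), ← Real.rpow_mul hmpos.le,
    mul_one_div_cancel h1r.ne', Real.rpow_one, Real.rpow_one] at h7
  exact h7

/-- Adding one largest coefficient to `A`. -/
theorem add_one [DecidableEq ι] (hr0 : 0 < r) (hr : r < 1)
    (hbi : ∀ i j, a i (h j) = if i = j then 1 else 0)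
    (hC : 0 < C) (hdem : ∀ A : Finset ι, ‖∑ i ∈ A, h i‖ ≤ C * (A.card : ℝ) ^ r) (hδ : 0 ≤ δ)
    (hδ2 : δ * (2 * (1 + C ^ (1 / (1 - r)))) ≤ r)
    {A F : Finset ι} {φ : ι → ℝ} (hA : Adm a r A F φ) {u : ι → ℝ} {t : ℝ} (ht : 0 ≤ t)
    (hu0 : ∀ i, 0 ≤ u i) (hut : ∀ i, u i ≤ t) {j : ι} (hj : j ∉ A) (huj : u j = t) :
    ∃ F' φ', Adm a r (insert j A) F' φ' ∧ F' ⊆ F ∧
      val r δ A F φ u ≤ val r δ (insert j A) F' φ' u := by
  set m := A.card with hm
  have hmpos : 0 < m := hA.ne.card_pos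
  have hcard : (insert j A).card = m + 1 := Finset.card_insert_of_notMem hj
  set W := wt r (m + 1) with hW
  have hWpos : 0 < W := wt_pos (Nat.succ_pos m)
  refine ⟨F.erase j, fun i => min (φ i) W, ⟨Finset.insert_nonempty _ _, ?_, ?_, ?_, ?_⟩,
    Finset.erase_subset _ _, ?_⟩
  · rw [Finset.disjoint_insert_right]
    exact ⟨Finset.notMem_erase _ _, Finset.disjoint_of_subset_left (Finset.erase_subset _ _) hA.disj⟩
  · intro i hi
    exact le_min (hA.nonneg i (Finset.mem_of_mem_erase hi)) hWpos.le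
  · intro i _
    rw [hcard]
    exact min_le_right _ _
  · intro f
    refine le_trans ?_ (hA.dual f)
    refine le_trans (Finset.sum_le_sum (g := fun i => φ i * ‖a i f‖) fun i _ =>
      mul_le_mul_of_nonneg_right (min_le_left _ _) (norm_nonneg _)) ?_
    exact Finset.sum_le_sum_of_subset_of_nonneg (Finset.erase_subset _ _) fun i hi _ =>
      mul_nonneg (hA.nonneg i hi) (norm_nonneg _)
  · -- the main inequality
    unfold val
    rw [hcard, Finset.sum_insert hj, huj, ← hW, ← hm]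
    set S := ∑ i ∈ A, u i with hS
    have hSle : S ≤ m * t := by
      rw [hS, hm, ← nsmul_eq_mul, ← Finset.sum_const]
      exact Finset.sum_le_sum fun i _ => hut i
    have g1 := wt_key hr0 hr hmpos
    have g2 := wt_diff hr0 hr hmpos
    have g3 := wt_le_two hr0 hr hmpos
    have g4 := wt_anti (r := r) hr hmpos
    rw [← hW] at g1 g2 g3 g4
    -- gain
    have gain : r * W * t ≤ W * (t + S) - wt r m * S := by
      have e1 : (wt r m - W) * S ≤ (wt r m - W) * (m * t) :=
        mul_le_mul_of_nonneg_left hSle (by linarith)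
      have e2 : r * W * t ≤ ((m + 1 : ℕ) * W - m * wt r m) * t := mul_le_mul_of_nonneg_right g1 ht
      push_cast at e2
      nlinarith
    -- loss
    set E := F.filter (fun i => W < φ i) with hE
    have hEc : (E.card : ℝ) ≤ C ^ (1 / (1 - r)) * (m + 1 : ℕ) :=
      card_le hr hbi hC hdem hA (Finset.filter_subset _ _) (Nat.succ_pos m) fun i hi =>
        (Finset.mem_filter.1 hi).2.le
    have loss : ∑ i ∈ F, φ i * u i - ∑ i ∈ F.erase j, min (φ i) W * u i ≤
        wt r m * t + E.card * ((wt r m - W) * t) := by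
      have e1 : ∑ i ∈ F, φ i * u i ≤ wt r m * t + ∑ i ∈ F.erase j, φ i * u i := by
        by_cases hjF : j ∈ F
        · rw [← Finset.add_sum_erase F _ hjF, huj]
          have := mul_le_mul_of_nonneg_right (hA.le j hjF) ht
          linarith
        · rw [Finset.erase_eq_of_notMem hjF]
          have : 0 ≤ wt r m * t := mul_nonneg (wt_pos hmpos).le ht
          linarith
      have e2 : ∑ i ∈ F.erase j, φ i * u i - ∑ i ∈ F.erase j, min (φ i) W * u i ≤
          E.card * ((wt r m - W) * t) := by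
        rw [← Finset.sum_sub_distrib]
        have e3 : ∀ i ∈ F.erase j, φ i * u i - min (φ i) W * u i ≤
            if W < φ i then (wt r m - W) * t else 0 := by
          intro i hi
          have hiF := Finset.mem_of_mem_erase hi
          split_ifs with hc
          · rw [min_eq_right hc.le, ← sub_mul]
            have k1 := hA.le i hiF
            calc (φ i - W) * u i ≤ (wt r m - W) * u i :=
                  mul_le_mul_of_nonneg_right (by linarith) (hu0 i)
              _ ≤ (wt r m - W) * t := mul_le_mul_of_nonneg_left (hut i) (by linarith)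
          · rw [min_eq_left (not_lt.1 hc), sub_self]
        refine (Finset.sum_le_sum e3).trans ?_
        rw [← Finset.sum_filter, Finset.sum_const, nsmul_eq_mul]
        refine mul_le_mul_of_nonneg_right ?_ (mul_nonneg (by linarith) ht)
        exact_mod_cast Finset.card_le_card (Finset.filter_subset_filter _ (Finset.erase_subset _ _))
      linarith
    have loss2 : wt r m * t + E.card * ((wt r m - W) * t) ≤ 2 * (1 + C ^ (1 / (1 - r))) * (W * t) := by
      have hCr : 0 < C ^ (1 / (1 - r)) := Real.rpow_pos_of_pos hC _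
      have k1 : wt r m * t ≤ 2 * (W * t) := by nlinarith
      have k2 : (E.card : ℝ) * ((wt r m - W) * t) ≤
          C ^ (1 / (1 - r)) * (m + 1 : ℕ) * ((wt r m - W) * t) :=
        mul_le_mul_of_nonneg_right hEc (mul_nonneg (by linarith) ht)
      have k3 : C ^ (1 / (1 - r)) * (m + 1 : ℕ) * ((wt r m - W) * t) ≤ C ^ (1 / (1 - r)) * (2 * W * t) := by
        have := mul_le_mul_of_nonneg_left (mul_le_mul_of_nonneg_right g2 ht) hCr.le
        calc _ = C ^ (1 / (1 - r)) * (((m + 1 : ℕ) : ℝ) * (wt r m - W) * t) := by ring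
          _ ≤ _ := this
      nlinarith
    have hWt : 0 ≤ W * t := mul_nonneg hWpos.le ht
    have f1 := mul_le_mul_of_nonneg_left (loss.trans loss2) hδ
    have f2 := mul_le_mul_of_nonneg_right hδ2 hWt
    nlinarith

/-- Adding a set of largest coefficients. -/
theorem add_set [DecidableEq ι] (hr0 : 0 < r) (hr : r < 1)
    (hbi : ∀ i j, a i (h j) = if i = j then 1 else 0)
    (hC : 0 < C) (hdem : ∀ A : Finset ι, ‖∑ i ∈ A, h i‖ ≤ C * (A.card : ℝ) ^ r) (hδ : 0 ≤ δ)
    (hδ2 : δ * (2 * (1 + C ^ (1 / (1 - r)))) ≤ r) {u : ι → ℝ} {t : ℝ} (ht : 0 ≤ t)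
    (hu0 : ∀ i, 0 ≤ u i) (hut : ∀ i, u i ≤ t) (E : Finset ι) (huE : ∀ j ∈ E, u j = t)
    {A F : Finset ι} {φ : ι → ℝ} (hA : Adm a r A F φ) :
    ∃ A' F' φ', Adm a r A' F' φ' ∧ E ⊆ A' ∧ val r δ A F φ u ≤ val r δ A' F' φ' u := by
  induction E using Finset.induction_on with
  | empty => exact ⟨A, F, φ, hA, Finset.empty_subset _, le_rfl⟩
  | insert j E hj ih =>
    obtain ⟨A', F', φ', h1, h2, h3⟩ := ih fun i hi => huE i (Finset.mem_insert_of_mem hi)
    by_cases hjA : j ∈ A'
    · exact ⟨A', F', φ', h1, Finset.insert_subset hjA h2, h3⟩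
    · obtain ⟨F'', φ'', k1, -, k3⟩ := add_one hr0 hr hbi hC hdem hδ hδ2 h1 ht hu0 hut hjA
        (huE j (Finset.mem_insert_self _ _))
      exact ⟨insert j A', F'', φ'', k1, Finset.insert_subset_insert _ h2, h3.trans k3⟩

/-- The comparison behind greediness. -/
theorem transport [DecidableEq ι] [Infinite ι] (hr0 : 0 < r) (hr : r < 1)
    (hbi : ∀ i j, a i (h j) = if i = j then 1 else 0)
    (hC : 0 < C) (hdem : ∀ A : Finset ι, ‖∑ i ∈ A, h i‖ ≤ C * (A.card : ℝ) ^ r) (hδ : 0 ≤ δ)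
    (hδ2 : δ * (2 * (1 + C ^ (1 / (1 - r)))) ≤ r) {c : ι → ℝ} {t : ℝ} (ht : 0 ≤ t)
    (hc0 : ∀ i, 0 ≤ c i) {G B : Finset ι} (hGB : B.card ≤ G.card) (hG : ∀ i ∈ G, t ≤ c i)
    (hG' : ∀ i, i ∉ G → c i ≤ t) {A F : Finset ι} {φ : ι → ℝ} (hA : Adm a r A F φ) :
    ∃ A' F' φ', Adm a r A' F' φ' ∧
      val r δ A F φ (fun i => if i ∈ G then 0 else c i) ≤
        val r δ A' F' φ' (fun i => if i ∈ B then 0 else c i) := by
  set u : ι → ℝ := fun i => if i ∈ G then 0 else c i with hu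
  set v : ι → ℝ := fun i => if i ∈ B then 0 else c i with hv
  set E := B \ G with hE
  set u' : ι → ℝ := fun i => if i ∈ E then t else u i with hu'
  have huu' : ∀ i, u i ≤ u' i := by
    intro i
    by_cases h1 : i ∈ E
    · have h2 : i ∉ G := (Finset.mem_sdiff.1 h1).2
      simp only [hu', hu, if_pos h1, if_neg h2]
      exact hG' i h2
    · simp only [hu', if_neg h1]
      exact le_rfl
  have hu'0 : ∀ i, 0 ≤ u' i := by
    intro i
    simp only [hu', hu]
    split_ifs
    · exact ht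
    · exact le_rfl
    · exact hc0 i
  have hu't : ∀ i, u' i ≤ t := by
    intro i
    simp only [hu', hu]
    split_ifs with h1 h2
    · exact le_rfl
    · exact ht
    · exact hG' i h2
  obtain ⟨A₁, F₁, φ₁, hA₁, hEA, hval⟩ := add_set hr0 hr hbi hC hdem hδ hδ2 ht hu'0 hu't E
    (fun j hj => by simp only [hu']; rw [if_pos hj]) hA
  -- the new sets
  have hcardE : E.card ≤ (G \ B).card := by
    rw [hE]
    have h1 := Finset.card_sdiff_add_card_inter B G
    have h2 := Finset.card_sdiff_add_card_inter G B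
    rw [Finset.inter_comm G B] at h2
    omega
  obtain ⟨E', hE'sub, hE'card⟩ := Finset.exists_subset_card_eq hcardE
  set A₂ := (A₁ \ E) \ G with hA₂
  set A₃ := A₁ ∩ G with hA₃
  set F' := F₁ \ G with hF'
  obtain ⟨A₃', hA₃'card, hA₃'disj⟩ : ∃ S : Finset ι, S.card = A₃.card ∧ Disjoint S (E' ∪ A₂ ∪ F') := by
    obtain ⟨T, hT1, hT2⟩ := Set.Infinite.exists_subset_card_eq
      (s := ((↑(E' ∪ A₂ ∪ F') : Set ι))ᶜ) (Set.Finite.infinite_compl (Finset.finite_toSet _)) A₃.card
    refine ⟨T, hT2, ?_⟩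
    rw [Finset.disjoint_left]
    intro i hi hi2
    exact hT1 hi hi2
  have hdEA : Disjoint E A₂ := by
    rw [Finset.disjoint_left]
    intro i hi hi2
    simp only [hA₂, Finset.mem_sdiff] at hi2
    exact hi2.1.2 hi
  have hdE'A₂ : Disjoint E' A₂ := by
    rw [Finset.disjoint_left]
    intro i hi hi2
    simp only [hA₂, Finset.mem_sdiff] at hi2
    exact hi2.2 (Finset.mem_sdiff.1 (hE'sub hi)).1
  have hdisj1 : Disjoint (E ∪ A₂) A₃ := by
    rw [Finset.disjoint_left]
    intro i hi hi2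
    simp only [hA₃, Finset.mem_inter] at hi2
    rw [Finset.mem_union] at hi
    rcases hi with hi | hi
    · exact (Finset.mem_sdiff.1 hi).2 hi2.2
    · exact (Finset.mem_sdiff.1 hi).2 hi2.2
  have hdisj2 : Disjoint (E' ∪ A₂) A₃' := by
    refine (Finset.disjoint_of_subset_right ?_ hA₃'disj).symm
    exact Finset.subset_union_left
  have hA₁eq : A₁ = (E ∪ A₂) ∪ A₃ := by
    ext i
    simp only [hA₂, hA₃, Finset.mem_union, Finset.mem_sdiff, Finset.mem_inter]
    constructor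
    · intro hi
      by_cases h1 : i ∈ E
      · exact Or.inl (Or.inl h1)
      · by_cases h2 : i ∈ G
        · exact Or.inr ⟨hi, h2⟩
        · exact Or.inl (Or.inr ⟨⟨hi, h1⟩, h2⟩)
    · rintro ((h1 | h1) | h1)
      · exact hEA h1
      · exact h1.1.1
      · exact h1.1
  set A' := (E' ∪ A₂) ∪ A₃' with hA'
  have hcard : A'.card = A₁.card := by
    rw [hA', hA₁eq, Finset.card_union_of_disjoint hdisj2, Finset.card_union_of_disjoint hdisj1,
      Finset.card_union_of_disjoint hdE'A₂, Finset.card_union_of_disjoint hdEA, hE'card, hA₃'card]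
  have hF'sub : F' ⊆ F₁ := Finset.sdiff_subset
  refine ⟨A', F', φ₁, ⟨?_, ?_, fun i hi => hA₁.nonneg i (hF'sub hi), fun i hi => ?_, fun f => ?_⟩, ?_⟩
  · rw [← Finset.card_pos, hcard]; exact hA₁.ne.card_pos
  · rw [hA', Finset.disjoint_union_right, Finset.disjoint_union_right]
    refine ⟨⟨?_, ?_⟩, ?_⟩
    · rw [Finset.disjoint_left]
      intro i hi hi2
      exact (Finset.mem_sdiff.1 hi).2 (Finset.mem_sdiff.1 (hE'sub hi2)).1
    · refine Finset.disjoint_of_subset_left hF'sub (Finset.disjoint_of_subset_right ?_ hA₁.disj)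
      rw [hA₂]
      exact Finset.sdiff_subset.trans Finset.sdiff_subset
    · refine (Finset.disjoint_of_subset_right ?_ hA₃'disj).symm
      exact Finset.subset_union_right
  · rw [hcard]; exact hA₁.le i (hF'sub hi)
  · refine le_trans ?_ (hA₁.dual f)
    exact Finset.sum_le_sum_of_subset_of_nonneg hF'sub fun i hi _ =>
      mul_nonneg (hA₁.nonneg i hi) (norm_nonneg _)
  · refine ((val_mono hδ hA huu').trans hval).trans ?_
    unfold val
    rw [hcard]
    have hv0 : ∀ i, 0 ≤ v i := by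
      intro i
      simp only [hv]
      split_ifs
      · exact le_rfl
      · exact hc0 i
    have hveq : ∀ i, i ∉ E → i ∉ G → u' i = v i := by
      intro i h1 h2
      simp only [hu', hu, hv]
      rw [if_neg h1, if_neg h2, if_neg]
      intro h3
      exact h1 (Finset.mem_sdiff.2 ⟨h3, h2⟩)
    have s1 : ∑ i ∈ A₁, u' i ≤ ∑ i ∈ A', v i := by
      rw [hA₁eq, hA', Finset.sum_union hdisj1, Finset.sum_union hdisj2, Finset.sum_union hdEA,
        Finset.sum_union hdE'A₂]
      have k1 : ∑ i ∈ E, u' i ≤ ∑ i ∈ E', v i := by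
        have e1 : ∑ i ∈ E, u' i = E.card * t := by
          rw [← nsmul_eq_mul, ← Finset.sum_const]
          refine Finset.sum_congr rfl fun i hi => ?_
          simp only [hu']; rw [if_pos hi]
        rw [e1, ← hE'card, ← nsmul_eq_mul, ← Finset.sum_const]
        refine Finset.sum_le_sum fun i hi => ?_
        have h1 := Finset.mem_sdiff.1 (hE'sub hi)
        simp only [hv]
        rw [if_neg h1.2]
        exact hG i h1.1
      have k2 : ∑ i ∈ A₂, u' i = ∑ i ∈ A₂, v i := by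
        refine Finset.sum_congr rfl fun i hi => ?_
        simp only [hA₂, Finset.mem_sdiff] at hi
        exact hveq i hi.1.2 hi.2
      have k3 : ∑ i ∈ A₃, u' i = 0 := by
        refine Finset.sum_eq_zero fun i hi => ?_
        simp only [hA₃, Finset.mem_inter] at hi
        simp only [hu', hu]
        rw [if_neg, if_pos hi.2]
        intro h1
        exact (Finset.mem_sdiff.1 h1).2 hi.2
      have k4 : 0 ≤ ∑ i ∈ A₃', v i := Finset.sum_nonneg fun i _ => hv0 i
      linarith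
    have s2 : ∑ i ∈ F₁, φ₁ i * u' i = ∑ i ∈ F', φ₁ i * v i := by
      have e1 : ∑ i ∈ F₁, φ₁ i * u' i = ∑ i ∈ F', φ₁ i * u' i := by
        symm
        refine Finset.sum_subset hF'sub fun i hi hi2 => ?_
        have hiG : i ∈ G := by
          by_contra hcon
          exact hi2 (Finset.mem_sdiff.2 ⟨hi, hcon⟩)
        simp only [hu', hu]
        rw [if_neg, if_pos hiG, mul_zero]
        intro h1
        exact (Finset.mem_sdiff.1 h1).2 hiG
      rw [e1]
      refine Finset.sum_congr rfl fun i hi => ?_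
      have h1 := Finset.mem_sdiff.1 hi
      rw [hveq i (fun h2 => ?_) h1.2]
      exact (Finset.disjoint_left.1 hA₁.disj h1.1) (hEA h2)
    have := mul_le_mul_of_nonneg_left s1 hA₁.wt_pos.le
    rw [s2]
    linarith

end Data

end Pool.Agent.L5helper81.OneGreedy
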