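import Mathlib
import Pool.Agent.L5helper81.OneGreedy

/-!
# The 1-greedy norm

From an unconditional basis with the power type democracy on both sides the supremum of the values of
the admissible triples is an equivalent norm for which the basis is 1-greedy.
-/

open Filter Topology

namespace Pool.Agent.L5helper81.OneGreedy

section Norm

variable {𝕜 X ι : Type*} [RCLike 𝕜] [NormedAddCommGroup X] [NormedSpace 𝕜 X]

/-- The values of the admissible triples at `f`. -/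
def valSet (a : ι → X →L[𝕜] 𝕜) (r δ : ℝ) (f : X) : Set ℝ :=
  {x | ∃ A F φ, Adm a r A F φ ∧ x = val r δ A F φ (fun i => ‖a i f‖)}

/-- The new norm. -/
noncomputable def gnorm (a : ι → X →L[𝕜] 𝕜) (r δ : ℝ) (f : X) : ℝ := sSup (valSet a r δ f)

variable {a : ι → X →L[𝕜] 𝕜} {h : ι → X} {r δ C D K : ℝ}

theorem val_le (hδ : 0 ≤ δ)
    (hdual : ∀ (A : Finset ι) (f : X), ∑ i ∈ A, ‖a i f‖ ≤ D * (A.card : ℝ) ^ (1 - r) * ‖f‖)
    {A F : Finset ι} {φ : ι → ℝ} (hA : Adm a r A F φ) (f : X) :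
    val r δ A F φ (fun i => ‖a i f‖) ≤ (D + δ) * ‖f‖ := by
  unfold val
  have hm : (0 : ℝ) < A.card := by exact_mod_cast hA.ne.card_pos
  have h1 : wt r A.card * ∑ i ∈ A, ‖a i f‖ ≤ D * ‖f‖ := by
    refine (mul_le_mul_of_nonneg_left (hdual A f) hA.wt_pos.le).trans (le_of_eq ?_)
    unfold wt
    have e : (A.card : ℝ) ^ (r - 1) * (A.card : ℝ) ^ (1 - r) = 1 := by
      rw [← Real.rpow_add hm]; simp
    calc _ = ((A.card : ℝ) ^ (r - 1) * (A.card : ℝ) ^ (1 - r)) * (D * ‖f‖) := by ring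
      _ = _ := by rw [e, one_mul]
  have h2 := mul_le_mul_of_nonneg_left (hA.dual f) hδ
  linarith

theorem bdd (hδ : 0 ≤ δ)
    (hdual : ∀ (A : Finset ι) (f : X), ∑ i ∈ A, ‖a i f‖ ≤ D * (A.card : ℝ) ^ (1 - r) * ‖f‖)
    (f : X) : BddAbove (valSet a r δ f) := by
  refine ⟨(D + δ) * ‖f‖, ?_⟩
  rintro x ⟨A, F, φ, hA, rfl⟩
  exact val_le hδ hdual hA f

theorem adm_single (i₀ : ι) : Adm a r {i₀} ∅ (fun _ => 0) := by
  refine ⟨Finset.singleton_nonempty _, Finset.disjoint_empty_left _, ?_, ?_, ?_⟩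
  · intro i hi; simp at hi
  · intro i hi; simp at hi
  · intro f; simp

theorem nonempty [Nonempty ι] (f : X) : (valSet a r δ f).Nonempty := by
  obtain ⟨i₀⟩ := ‹Nonempty ι›
  exact ⟨_, {i₀}, ∅, fun _ => 0, adm_single i₀, rfl⟩

theorem val_nonneg (hδ : 0 ≤ δ) {A F : Finset ι} {φ : ι → ℝ} (hA : Adm a r A F φ) {u : ι → ℝ}
    (hu : ∀ i, 0 ≤ u i) : 0 ≤ val r δ A F φ u := by
  unfold val
  have h1 : 0 ≤ ∑ i ∈ A, u i := Finset.sum_nonneg fun i _ => hu i
  have h2 : 0 ≤ ∑ i ∈ F, φ i * u i := Finset.sum_nonneg fun i hi => mul_nonneg (hA.nonneg i hi) (hu i)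
  have h3 := hA.wt_pos
  positivity

theorem gnorm_nonneg (hδ : 0 ≤ δ) (f : X) : 0 ≤ gnorm a r δ f := by
  apply Real.sSup_nonneg
  rintro x ⟨A, F, φ, hA, rfl⟩
  exact val_nonneg hδ hA fun i => norm_nonneg _

theorem gnorm_le [Nonempty ι] (hδ : 0 ≤ δ)
    (hdual : ∀ (A : Finset ι) (f : X), ∑ i ∈ A, ‖a i f‖ ≤ D * (A.card : ℝ) ^ (1 - r) * ‖f‖)
    (f : X) : gnorm a r δ f ≤ (D + δ) * ‖f‖ := by
  apply csSup_le (nonempty f)
  rintro x ⟨A, F, φ, hA, rfl⟩
  exact val_le hδ hdual hA f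

theorem le_gnorm (hδ : 0 ≤ δ)
    (hdual : ∀ (A : Finset ι) (f : X), ∑ i ∈ A, ‖a i f‖ ≤ D * (A.card : ℝ) ^ (1 - r) * ‖f‖)
    {A F : Finset ι} {φ : ι → ℝ} (hA : Adm a r A F φ) (f : X) :
    val r δ A F φ (fun i => ‖a i f‖) ≤ gnorm a r δ f :=
  le_csSup (bdd hδ hdual f) ⟨A, F, φ, hA, rfl⟩

theorem val_add (r δ : ℝ) (A F : Finset ι) (φ u v : ι → ℝ) :
    val r δ A F φ (fun i => u i + v i) = val r δ A F φ u + val r δ A F φ v := by
  unfold val
  rw [Finset.sum_add_distrib]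
  have : ∑ i ∈ F, φ i * (u i + v i) = ∑ i ∈ F, φ i * u i + ∑ i ∈ F, φ i * v i := by
    rw [← Finset.sum_add_distrib]
    exact Finset.sum_congr rfl fun i _ => by ring
  rw [this]
  ring

theorem val_smul (r δ : ℝ) (A F : Finset ι) (φ u : ι → ℝ) (t : ℝ) :
    val r δ A F φ (fun i => t * u i) = t * val r δ A F φ u := by
  unfold val
  rw [← Finset.mul_sum]
  have : ∑ i ∈ F, φ i * (t * u i) = t * ∑ i ∈ F, φ i * u i := by
    rw [Finset.mul_sum]
    exact Finset.sum_congr rfl fun i _ => by ring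
  rw [this]
  ring

theorem gnorm_add_le [Nonempty ι] (hδ : 0 ≤ δ)
    (hdual : ∀ (A : Finset ι) (f : X), ∑ i ∈ A, ‖a i f‖ ≤ D * (A.card : ℝ) ^ (1 - r) * ‖f‖)
    (f g : X) : gnorm a r δ (f + g) ≤ gnorm a r δ f + gnorm a r δ g := by
  apply csSup_le (nonempty _)
  rintro x ⟨A, F, φ, hA, rfl⟩
  refine (val_mono hδ hA (v := fun i => ‖a i f‖ + ‖a i g‖) fun i => ?_).trans ?_
  · rw [map_add]; exact norm_add_le _ _
  · rw [val_add]
    exact add_le_add (le_gnorm hδ hdual hA f) (le_gnorm hδ hdual hA g)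

theorem gnorm_smul_le [Nonempty ι] (hδ : 0 ≤ δ)
    (hdual : ∀ (A : Finset ι) (f : X), ∑ i ∈ A, ‖a i f‖ ≤ D * (A.card : ℝ) ^ (1 - r) * ‖f‖)
    (c : 𝕜) (f : X) : gnorm a r δ (c • f) ≤ ‖c‖ * gnorm a r δ f := by
  apply csSup_le (nonempty _)
  rintro x ⟨A, F, φ, hA, rfl⟩
  have e : (fun i => ‖a i (c • f)‖) = fun i => ‖c‖ * ‖a i f‖ := by
    funext i; rw [map_smul, norm_smul]
  rw [e, val_smul]
  exact mul_le_mul_of_nonneg_left (le_gnorm hδ hdual hA f) (norm_nonneg _)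

theorem gnorm_smul [Nonempty ι] (hδ : 0 ≤ δ)
    (hdual : ∀ (A : Finset ι) (f : X), ∑ i ∈ A, ‖a i f‖ ≤ D * (A.card : ℝ) ^ (1 - r) * ‖f‖)
    (c : 𝕜) (f : X) : gnorm a r δ (c • f) = ‖c‖ * gnorm a r δ f := by
  apply le_antisymm (gnorm_smul_le hδ hdual c f)
  rcases eq_or_ne c 0 with rfl | hc
  · rw [norm_zero, zero_mul]; exact gnorm_nonneg hδ _
  · have h1 := gnorm_smul_le hδ hdual c⁻¹ (c • f)
    rw [smul_smul, inv_mul_cancel₀ hc, one_smul, norm_inv] at h1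
    have hcp : 0 < ‖c‖ := norm_pos_iff.2 hc
    rw [inv_mul_eq_div, le_div_iff₀ hcp] at h1
    linarith

/-- The lower bound. -/
theorem le_gnorm_norm [DecidableEq ι] [Infinite ι] (hδ : 0 ≤ δ) (hC : 0 < C) (hK : 0 < K)
    (hnorm : ∀ i, ‖h i‖ ≤ C)
    (hdual : ∀ (A : Finset ι) (f : X), ∑ i ∈ A, ‖a i f‖ ≤ D * (A.card : ℝ) ^ (1 - r) * ‖f‖)
    (hunc : ∀ (F : Finset ι) (θ : ι → 𝕜), (∀ i, ‖θ i‖ ≤ 1) → ∀ f : X,
      ‖∑ i ∈ F, (θ i * a i f) • h i‖ ≤ K * ‖f‖)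
    (hsum : ∀ f : X, HasSum (fun i => a i f • h i) f) (f : X) :
    δ / max K C * ‖f‖ ≤ gnorm a r δ f := by
  have hM : 0 < max K C := lt_max_of_lt_left hK
  rcases eq_or_ne f 0 with rfl | hf
  · rw [norm_zero, mul_zero]; exact gnorm_nonneg hδ _
  obtain ⟨x, hx1, hx2⟩ := exists_dual_vector 𝕜 f (norm_ne_zero_iff.2 hf)
  -- the finite estimate
  have hfin : ∀ F : Finset ι, δ / max K C * ‖x (∑ i ∈ F, a i f • h i)‖ ≤ gnorm a r δ f := by
    intro F
    obtain ⟨i₀, hi₀⟩ := Infinite.exists_notMem_finset F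
    set φ : ι → ℝ := fun i => ‖x (h i)‖ / max K C with hφ
    have hAdm : Adm a r {i₀} F φ := by
      refine ⟨Finset.singleton_nonempty _, ?_, ?_, ?_, ?_⟩
      · rwa [Finset.disjoint_singleton_right]
      · intro i _; simp only [hφ]; positivity
      · intro i _
        rw [Finset.card_singleton, wt_one]
        simp only [hφ]
        rw [div_le_one hM]
        calc ‖x (h i)‖ ≤ ‖x‖ * ‖h i‖ := x.le_opNorm _
          _ ≤ 1 * C := mul_le_mul hx1.le (hnorm i) (norm_nonneg _) zero_le_one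
          _ ≤ max K C := by rw [one_mul]; exact le_max_right _ _
      · intro g
        -- choose unimodular multipliers
        have hθ : ∀ i, ∃ θ : 𝕜, ‖θ‖ ≤ 1 ∧ θ * (a i g * x (h i)) = (‖a i g‖ * ‖x (h i)‖ : ℝ) := by
          intro i
          by_cases h0 : a i g * x (h i) = 0
          · refine ⟨0, by simp, ?_⟩
            rw [zero_mul, ← norm_mul, h0, norm_zero]; simp
          · refine ⟨(starRingEnd 𝕜) (a i g * x (h i)) / (‖a i g * x (h i)‖ : ℝ), ?_, ?_⟩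
            · rw [norm_div, RCLike.norm_conj, RCLike.norm_ofReal, abs_norm, div_self]
              exact (norm_pos_iff.2 h0).ne'
            · have hn : ((‖a i g * x (h i)‖ : ℝ) : 𝕜) ≠ 0 := by
                rw [RCLike.ofReal_ne_zero]; exact (norm_pos_iff.2 h0).ne'
              rw [div_mul_eq_mul_div, RCLike.conj_mul, ← norm_mul, pow_two, mul_div_assoc,
                div_self hn, mul_one]
        choose θ hθ1 hθ2 using hθ
        have h1 : ∑ i ∈ F, φ i * ‖a i g‖ = (1 / max K C) * ∑ i ∈ F, ‖a i g‖ * ‖x (h i)‖ := by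
          rw [Finset.mul_sum]
          refine Finset.sum_congr rfl fun i _ => ?_
          simp only [hφ]; ring
        have h2 : ((∑ i ∈ F, ‖a i g‖ * ‖x (h i)‖ : ℝ) : 𝕜) = x (∑ i ∈ F, (θ i * a i g) • h i) := by
          rw [map_sum, RCLike.ofReal_sum]
          refine Finset.sum_congr rfl fun i _ => ?_
          rw [← hθ2 i, map_smul, smul_eq_mul]; ring
        have h3 : ∑ i ∈ F, ‖a i g‖ * ‖x (h i)‖ ≤ K * ‖g‖ := by
          have h4 : ‖((∑ i ∈ F, ‖a i g‖ * ‖x (h i)‖ : ℝ) : 𝕜)‖ = ∑ i ∈ F, ‖a i g‖ * ‖x (h i)‖ := by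
            rw [RCLike.norm_ofReal, abs_of_nonneg]
            exact Finset.sum_nonneg fun i _ => by positivity
          rw [← h4, h2]
          calc _ ≤ ‖x‖ * ‖∑ i ∈ F, (θ i * a i g) • h i‖ := x.le_opNorm _
            _ ≤ 1 * (K * ‖g‖) := mul_le_mul hx1.le (hunc F θ hθ1 g) (norm_nonneg _) zero_le_one
            _ = K * ‖g‖ := one_mul _
        rw [h1, one_div, inv_mul_le_iff₀ hM]
        exact h3.trans (mul_le_mul_of_nonneg_right (le_max_left _ _) (norm_nonneg _))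
    refine le_trans ?_ (le_gnorm hδ hdual hAdm f)
    unfold val
    have h1 : 0 ≤ wt r (Finset.card {i₀}) * ∑ i ∈ {i₀}, ‖a i f‖ :=
      mul_nonneg hAdm.wt_pos.le (Finset.sum_nonneg fun i _ => norm_nonneg _)
    have h2 : δ / max K C * ‖x (∑ i ∈ F, a i f • h i)‖ ≤ δ * ∑ i ∈ F, φ i * ‖a i f‖ := by
      rw [div_mul_eq_mul_div, mul_div_assoc]
      refine mul_le_mul_of_nonneg_left ?_ hδ
      rw [div_le_iff₀ hM, Finset.sum_mul, map_sum]
      refine (norm_sum_le _ _).trans (Finset.sum_le_sum fun i _ => ?_)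
      rw [map_smul, smul_eq_mul, norm_mul]
      simp only [hφ]
      have : ‖x (h i)‖ / max K C * ‖a i f‖ * max K C = ‖a i f‖ * ‖x (h i)‖ := by
        field_simp
      rw [this]
    linarith
  have hlim : Tendsto (fun F : Finset ι => δ / max K C * ‖x (∑ i ∈ F, a i f • h i)‖) atTop
      (𝓝 (δ / max K C * ‖x f‖)) := by
    have h1 : Tendsto (fun F : Finset ι => ∑ i ∈ F, a i f • h i) atTop (𝓝 f) := hsum f
    exact ((x.continuous.tendsto f).comp h1).norm.const_mul _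
  have h2 : δ / max K C * ‖x f‖ ≤ gnorm a r δ f := le_of_tendsto' hlim hfin
  rw [hx2] at h2
  simpa using h2

/-- The basis is 1-greedy for the new norm. -/
theorem gnorm_greedy [DecidableEq ι] [Infinite ι] (hr0 : 0 < r) (hr : r < 1)
    (hbi : ∀ i j, a i (h j) = if i = j then 1 else 0)
    (hC : 0 < C) (hdem : ∀ A : Finset ι, ‖∑ i ∈ A, h i‖ ≤ C * (A.card : ℝ) ^ r) (hδ : 0 ≤ δ)
    (hδ2 : δ * (2 * (1 + C ^ (1 / (1 - r)))) ≤ r)
    (hdual : ∀ (A : Finset ι) (f : X), ∑ i ∈ A, ‖a i f‖ ≤ D * (A.card : ℝ) ^ (1 - r) * ‖f‖)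
    (f : X) (G B : Finset ι) (hG : ∀ i ∈ G, ∀ j, j ∉ G → ‖a j f‖ ≤ ‖a i f‖)
    (hBG : B.card ≤ G.card) (b : ι → 𝕜) :
    gnorm a r δ (f - ∑ i ∈ G, a i f • h i) ≤ gnorm a r δ (f - ∑ i ∈ B, b i • h i) := by
  rcases G.eq_empty_or_nonempty with rfl | hGne
  · have : B = ∅ := by
      rw [Finset.card_empty, Nat.le_zero, Finset.card_eq_zero] at hBG; exact hBG
    rw [this]; simp
  obtain ⟨i₀, hi₀, hmin⟩ := G.exists_min_image (fun i => ‖a i f‖) hGne
  have hcoef : ∀ (S : Finset ι) (b : ι → 𝕜) (i : ι),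
      a i (f - ∑ j ∈ S, b j • h j) = a i f - if i ∈ S then b i else 0 := by
    intro S b i
    rw [map_sub, map_sum]
    congr 1
    have : ∀ j ∈ S, a i (b j • h j) = if i = j then b j else 0 := by
      intro j _
      rw [map_smul, hbi, smul_eq_mul]
      split_ifs <;> simp
    rw [Finset.sum_congr rfl this, Finset.sum_ite_eq]
  apply csSup_le (nonempty _)
  rintro x ⟨A, F, φ, hA, rfl⟩
  obtain ⟨A', F', φ', hA', hle⟩ := transport hr0 hr hbi hC hdem hδ hδ2 (c := fun i => ‖a i f‖)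
    (t := ‖a i₀ f‖) (norm_nonneg _) (fun i => norm_nonneg _) hBG (fun i hi => hmin i hi)
    (fun i hi => hG i₀ hi₀ i hi) hA
  have e1 : (fun i => ‖a i (f - ∑ i ∈ G, a i f • h i)‖) = fun i => if i ∈ G then 0 else ‖a i f‖ := by
    funext i
    rw [hcoef]
    split_ifs <;> simp
  rw [e1]
  refine hle.trans ((val_mono hδ hA' fun i => ?_).trans (le_gnorm hδ hdual hA' _))
  rw [hcoef]
  split_ifs
  · exact norm_nonneg _
  · simp

end Norm

end Pool.Agent.L5helper81.OneGreedy
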