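import Mathlib
import Pool.Agent.L5helper81.HaarReal
import Pool.Agent.L5helper81.OneGreedyNorm

/-!
# The Haar system in `L_p` over the real or the complex numbers

Transfer of the real facts, and the 1-greedy norm.
-/

set_option autoImplicit false

open MeasureTheory Finset Filter Topology
open scoped ENNReal
open Pool.Agent.H66R3.PG

namespace Pool.Agent.L5helper81.HaarG

variable {P Q : ℝ≥0∞} (𝕜 : Type) [RCLike 𝕜]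

lemma memLp_haarFun (p : ℝ) (j : Idx) (P : ℝ≥0∞) :
    MemLp (fun x => ((haarFun p j x : ℝ) : 𝕜)) P mu := by
  refine MemLp.ae_eq ?_ (((dep_cH p j).memLp P).ofReal (K := 𝕜))
  filter_upwards [ae_Ico] with x hx
  rw [haarFun_eq p hx]

/-- The Haar functions in `L_p` over `𝕜`. -/
noncomputable def hK (P : ℝ≥0∞) (j : Idx) : Lp 𝕜 P mu := (memLp_haarFun 𝕜 P.toReal j P).toLp _

lemma coe_hK (j : Idx) : hK 𝕜 P j =ᵐ[mu] fun x => ((haarFun P.toReal j x : ℝ) : 𝕜) :=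
  MemLp.coeFn_toLp _

lemma coe_hK' (j : Idx) : hK 𝕜 P j =ᵐ[mu] fun x => ((cH P.toReal j (dig x) : ℝ) : 𝕜) := by
  filter_upwards [coe_hK 𝕜 (P := P) j, ae_Ico] with x h1 h2
  rw [h1, haarFun_eq _ h2]

section maps

variable [Fact (1 ≤ P)]

/-- Real part. -/
noncomputable def reL : Lp 𝕜 P mu →L[ℝ] Lp ℝ P mu := (RCLike.reCLM : 𝕜 →L[ℝ] ℝ).compLpL P mu

/-- Imaginary part. -/
noncomputable def imL : Lp 𝕜 P mu →L[ℝ] Lp ℝ P mu := (RCLike.imCLM : 𝕜 →L[ℝ] ℝ).compLpL P mu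

/-- The inclusion of real functions. -/
noncomputable def ofL : Lp ℝ P mu →L[ℝ] Lp 𝕜 P mu := (RCLike.ofRealCLM : ℝ →L[ℝ] 𝕜).compLpL P mu

lemma coe_reL (f : Lp 𝕜 P mu) : ∀ᵐ x ∂mu, reL 𝕜 f x = RCLike.re (f x) :=
  ContinuousLinearMap.coeFn_compLpL (RCLike.reCLM : 𝕜 →L[ℝ] ℝ) f

lemma coe_imL (f : Lp 𝕜 P mu) : ∀ᵐ x ∂mu, imL 𝕜 f x = RCLike.im (f x) :=
  ContinuousLinearMap.coeFn_compLpL (RCLike.imCLM : 𝕜 →L[ℝ] ℝ) f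

lemma coe_ofL (f : Lp ℝ P mu) : ∀ᵐ x ∂mu, ofL 𝕜 f x = ((f x : ℝ) : 𝕜) :=
  ContinuousLinearMap.coeFn_compLpL (RCLike.ofRealCLM : ℝ →L[ℝ] 𝕜) f

lemma norm_reL (f : Lp 𝕜 P mu) : ‖reL 𝕜 f‖ ≤ ‖f‖ := by
  apply Lp.norm_le_norm_of_ae_le
  filter_upwards [coe_reL 𝕜 f] with x hx
  rw [hx]
  exact RCLike.norm_re_le_norm _

lemma norm_imL (f : Lp 𝕜 P mu) : ‖imL 𝕜 f‖ ≤ ‖f‖ := by
  apply Lp.norm_le_norm_of_ae_le
  filter_upwards [coe_imL 𝕜 f] with x hx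
  rw [hx]
  exact RCLike.norm_im_le_norm _

lemma norm_ofL (f : Lp ℝ P mu) : ‖ofL 𝕜 f‖ ≤ ‖f‖ := by
  apply Lp.norm_le_norm_of_ae_le
  filter_upwards [coe_ofL 𝕜 f] with x hx
  rw [hx, RCLike.norm_ofReal]
  exact le_rfl

lemma re_im_L (f : Lp 𝕜 P mu) : f = ofL 𝕜 (reL 𝕜 f) + (RCLike.I : 𝕜) • ofL 𝕜 (imL 𝕜 f) := by
  apply Lp.ext
  filter_upwards [coe_reL 𝕜 f, coe_imL 𝕜 f, coe_ofL 𝕜 (reL 𝕜 f), coe_ofL 𝕜 (imL 𝕜 f),
    Lp.coeFn_add (ofL 𝕜 (reL 𝕜 f)) ((RCLike.I : 𝕜) • ofL 𝕜 (imL 𝕜 f)),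
    Lp.coeFn_smul (RCLike.I : 𝕜) (ofL 𝕜 (imL 𝕜 f))] with x h1 h2 h3 h4 h5 h6
  rw [h5, Pi.add_apply, h6, Pi.smul_apply, h3, h4, h1, h2, smul_eq_mul, mul_comm,
    RCLike.re_add_im]

lemma ofL_hR (c : ℝ) (j : Idx) : ofL 𝕜 (c • hR P j) = (c : 𝕜) • hK 𝕜 P j := by
  apply Lp.ext
  filter_upwards [coe_ofL 𝕜 (c • hR P j), Lp.coeFn_smul c (hR P j), coe_hR (P := P) j,
    Lp.coeFn_smul (c : 𝕜) (hK 𝕜 P j), coe_hK' 𝕜 (P := P) j] with x h1 h2 h3 h4 h5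
  rw [h1, h2, h4, Pi.smul_apply, Pi.smul_apply, h3, h5, smul_eq_mul, smul_eq_mul, RCLike.ofReal_mul]

end maps

section pair

variable [Fact (1 ≤ P)] [Fact (1 ≤ Q)] [ENNReal.HolderConjugate Q P]

/-- The pairing. -/
noncomputable def pairK (P Q : ℝ≥0∞) [Fact (1 ≤ P)] [Fact (1 ≤ Q)] [ENNReal.HolderConjugate Q P] :
    Lp 𝕜 Q mu →L[𝕜] Lp 𝕜 P mu →L[𝕜] 𝕜 := (ContinuousLinearMap.mul 𝕜 𝕜).lpPairing mu Q P

/-- The coefficient functionals. -/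
noncomputable def aK (P Q : ℝ≥0∞) [Fact (1 ≤ P)] [Fact (1 ≤ Q)] [ENNReal.HolderConjugate Q P]
    (j : Idx) : Lp 𝕜 P mu →L[𝕜] 𝕜 := pairK 𝕜 P Q (hK 𝕜 Q j)

lemma aK_apply (j : Idx) (f : Lp 𝕜 P mu) :
    aK 𝕜 P Q j f = ∫ x, ((haarFun Q.toReal j x : ℝ) : 𝕜) * f x ∂mu := by
  unfold aK pairK
  rw [ContinuousLinearMap.lpPairing_eq_integral]
  apply integral_congr_ae
  filter_upwards [coe_hK 𝕜 (P := Q) j] with x hx
  rw [hx]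
  rfl

lemma aK_eq (j : Idx) (f : Lp 𝕜 P mu) :
    aK 𝕜 P Q j f = ((aR P Q j (reL 𝕜 f) : ℝ) : 𝕜) + ((aR P Q j (imL 𝕜 f) : ℝ) : 𝕜) * RCLike.I := by
  have hint : Integrable (fun x => ((haarFun Q.toReal j x : ℝ) : 𝕜) * f x) mu := by
    have h1 : MemLp (fun x => ((haarFun Q.toReal j x : ℝ) : 𝕜)) Q mu := memLp_haarFun 𝕜 _ j Q
    have h2 : MemLp (f : ℝ → 𝕜) P mu := Lp.memLp f
    have h3 : ENNReal.HolderTriple Q P 1 := inferInstance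
    exact memLp_one_iff_integrable.1 (h2.mul h1)
  have e1 : ∫ x, RCLike.re (((haarFun Q.toReal j x : ℝ) : 𝕜) * f x) ∂mu =
      ∫ x, cH Q.toReal j (dig x) * reL 𝕜 f x ∂mu := by
    apply integral_congr_ae
    filter_upwards [coe_reL 𝕜 f, ae_Ico] with x h1 h2
    rw [RCLike.re_ofReal_mul, h1, haarFun_eq _ h2]
  have e2 : ∫ x, RCLike.im (((haarFun Q.toReal j x : ℝ) : 𝕜) * f x) ∂mu =
      ∫ x, cH Q.toReal j (dig x) * imL 𝕜 f x ∂mu := by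
    apply integral_congr_ae
    filter_upwards [coe_imL 𝕜 f, ae_Ico] with x h1 h2
    rw [RCLike.im_ofReal_mul, h1, haarFun_eq _ h2]
  rw [aK_apply, ← integral_re_add_im hint, aR_apply, aR_apply, e1, e2]

lemma norm_I_le : ‖(RCLike.I : 𝕜)‖ ≤ 1 := by
  rw [RCLike.norm_I]
  split_ifs <;> norm_num

/-- Biorthogonality. -/
lemma bi_K (hPQ : 1 / P.toReal + 1 / Q.toReal = 1) (i j : Idx) :
    aK 𝕜 P Q i (hK 𝕜 P j) = if i = j then 1 else 0 := by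
  have h1 : reL 𝕜 (hK 𝕜 P j) = hR P j := by
    apply Lp.ext
    filter_upwards [coe_reL 𝕜 (hK 𝕜 P j), coe_hK' 𝕜 (P := P) j, coe_hR (P := P) j] with x h1 h2 h3
    rw [h1, h2, h3, RCLike.ofReal_re]
  have h2 : imL 𝕜 (hK 𝕜 P j) = 0 := by
    apply Lp.ext
    filter_upwards [coe_imL 𝕜 (hK 𝕜 P j), coe_hK' 𝕜 (P := P) j, Lp.coeFn_zero ℝ P mu] with x h1 h2 h3
    rw [h1, h2, h3, RCLike.ofReal_im, Pi.zero_apply]
  rw [aK_eq, h1, h2, aR_hR hPQ, map_zero]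
  split_ifs <;> simp

/-- Convergence of the expansions. -/
theorem hasSum_K (hP : 1 < P.toReal) (hPQ : 1 / P.toReal + 1 / Q.toReal = 1) (f : Lp 𝕜 P mu) :
    HasSum (fun i => aK 𝕜 P Q i f • hK 𝕜 P i) f := by
  have h1 := (hasSum_R (Q := Q) hP hPQ (reL 𝕜 f)).mapL (ofL 𝕜 (P := P))
  have h2 := (hasSum_R (Q := Q) hP hPQ (imL 𝕜 f)).mapL (ofL 𝕜 (P := P))
  have h3 := h1.add (h2.const_smul (RCLike.I : 𝕜))
  rw [← re_im_L] at h3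
  convert h3 using 1
  funext i
  rw [ofL_hR, ofL_hR, aK_eq, add_smul, mul_comm, mul_smul]

/-- Unconditionality. -/
theorem unc_K (hP : 1 < P.toReal) (hPQ : 1 / P.toReal + 1 / Q.toReal = 1) :
    ∃ K : ℝ, 0 < K ∧ ∀ (F : Finset Idx) (θ : Idx → 𝕜), (∀ i, ‖θ i‖ ≤ 1) → ∀ f : Lp 𝕜 P mu,
      ‖∑ i ∈ F, (θ i * aK 𝕜 P Q i f) • hK 𝕜 P i‖ ≤ K * ‖f‖ := by
  obtain ⟨K, hK0, h⟩ := unc2_R (P := P) (Q := Q) hP hPQ
  refine ⟨4 * K, by positivity, fun F θ hθ f => ?_⟩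
  set I : 𝕜 := RCLike.I with hI
  have hI1 : ‖I‖ ≤ 1 := norm_I_le 𝕜
  have hre : ∀ i, |RCLike.re (θ i)| ≤ 1 := fun i => (RCLike.abs_re_le_norm _).trans (hθ i)
  have him : ∀ i, |RCLike.im (θ i)| ≤ 1 := fun i => (RCLike.abs_im_le_norm _).trans (hθ i)
  set g : (Idx → ℝ) → Lp ℝ P mu → Lp 𝕜 P mu :=
    fun η u => ofL 𝕜 (∑ i ∈ F, (η i * aR P Q i u) • hR P i) with hg
  have hgle : ∀ (η : Idx → ℝ) (u : Lp ℝ P mu), (∀ i, |η i| ≤ 1) → ‖u‖ ≤ ‖f‖ →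
      ‖g η u‖ ≤ K * ‖f‖ := by
    intro η u hη hu
    exact (norm_ofL 𝕜 _).trans ((h F η hη u).trans (mul_le_mul_of_nonneg_left hu hK0.le))
  have hgs : ∀ (η : Idx → ℝ) (u : Lp ℝ P mu), g η u =
      ∑ i ∈ F, (((η i : ℝ) : 𝕜) * ((aR P Q i u : ℝ) : 𝕜)) • hK 𝕜 P i := by
    intro η u
    simp only [hg]
    rw [map_sum]
    apply sum_congr rfl
    intro i _
    rw [ofL_hR, RCLike.ofReal_mul]
  have key : ∑ i ∈ F, (θ i * aK 𝕜 P Q i f) • hK 𝕜 P i =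
      g (fun i => RCLike.re (θ i)) (reL 𝕜 f) + I • g (fun i => RCLike.re (θ i)) (imL 𝕜 f) +
        (I • g (fun i => RCLike.im (θ i)) (reL 𝕜 f) +
          I • I • g (fun i => RCLike.im (θ i)) (imL 𝕜 f)) := by
    simp only [hgs, smul_sum, ← sum_add_distrib]
    apply sum_congr rfl
    intro i _
    simp only [smul_smul, ← add_smul]
    congr 1
    rw [aK_eq]
    have hθi : θ i = ((RCLike.re (θ i) : ℝ) : 𝕜) + ((RCLike.im (θ i) : ℝ) : 𝕜) * I :=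
      (RCLike.re_add_im _).symm
    conv_lhs => rw [hθi]
    ring
  have hs : ∀ u : Lp 𝕜 P mu, ‖I • u‖ ≤ ‖u‖ := by
    intro u
    rw [norm_smul]
    exact mul_le_of_le_one_left (norm_nonneg _) hI1
  rw [key]
  have k1 := hgle _ (reL 𝕜 f) hre (norm_reL 𝕜 f)
  have k2 := (hs _).trans (hgle _ (imL 𝕜 f) hre (norm_imL 𝕜 f))
  have k3 := (hs _).trans (hgle _ (reL 𝕜 f) him (norm_reL 𝕜 f))
  have k4 := (hs _).trans ((hs _).trans (hgle _ (imL 𝕜 f) him (norm_imL 𝕜 f)))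
  refine (norm_add_le _ _).trans ?_
  have k5 := norm_add_le (g (fun i => RCLike.re (θ i)) (reL 𝕜 f))
    (I • g (fun i => RCLike.re (θ i)) (imL 𝕜 f))
  have k6 := norm_add_le (I • g (fun i => RCLike.im (θ i)) (reL 𝕜 f))
    (I • I • g (fun i => RCLike.im (θ i)) (imL 𝕜 f))
  linarith

end pair

/-- Democracy. -/
theorem dem_K [Fact (1 ≤ P)] (hP : 1 < P.toReal) : ∃ C : ℝ, 0 < C ∧ ∀ (A : Finset Idx)
    (θ : Idx → 𝕜), (∀ i, ‖θ i‖ ≤ 1) → ‖∑ i ∈ A, θ i • hK 𝕜 P i‖ ≤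
      C * (A.card : ℝ) ^ (1 / P.toReal) := by
  obtain ⟨C, hC, h⟩ := nm_sA hP
  refine ⟨C, hC, fun A θ hθ => ?_⟩
  refine le_trans ?_ (h A)
  rw [← norm_cl (P := P) hP (dep_sA P.toReal A)]
  apply Lp.norm_le_norm_of_ae_le
  have h1 : ∀ᵐ x ∂mu, ∀ i ∈ A, (θ i • hK 𝕜 P i : Lp 𝕜 P mu) x =
      θ i * ((cH P.toReal i (dig x) : ℝ) : 𝕜) := by
    refine (Filter.eventually_all_finset A).2 fun i _ => ?_
    filter_upwards [Lp.coeFn_smul (θ i) (hK 𝕜 P i), coe_hK' 𝕜 (P := P) i] with x h2 h3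
    rw [h2, Pi.smul_apply, h3, smul_eq_mul]
  filter_upwards [h1, Lp.coeFn_finsetSum A (fun i => θ i • hK 𝕜 P i),
    coe_cl (P := P) (dep_sA P.toReal A)] with x h2 h3 h4
  rw [h3, h4, Finset.sum_apply, sum_congr rfl h2]
  refine (norm_sum_le _ _).trans ?_
  rw [Real.norm_eq_abs]
  refine le_trans ?_ (le_abs_self _)
  unfold sA
  apply sum_le_sum
  intro i _
  rw [norm_mul, RCLike.norm_ofReal]
  exact mul_le_of_le_one_left (abs_nonneg _) (hθ i)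

/-- Democracy of the coefficient functionals. -/
theorem dual_K [Fact (1 ≤ P)] [Fact (1 ≤ Q)] [ENNReal.HolderConjugate Q P] (hQ : 1 < Q.toReal) :
    ∃ D : ℝ, 0 ≤ D ∧ ∀ (A : Finset Idx) (f : Lp 𝕜 P mu),
      ∑ i ∈ A, ‖aK 𝕜 P Q i f‖ ≤ D * (A.card : ℝ) ^ (1 / Q.toReal) * ‖f‖ := by
  obtain ⟨C, hC, h⟩ := dem_K 𝕜 hQ
  refine ⟨‖pairK 𝕜 P Q‖ * C, by positivity, fun A f => ?_⟩
  have hθ : ∀ i, ∃ θ : 𝕜, ‖θ‖ ≤ 1 ∧ θ * aK 𝕜 P Q i f = (‖aK 𝕜 P Q i f‖ : ℝ) := by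
    intro i
    by_cases h0 : aK 𝕜 P Q i f = 0
    · exact ⟨0, by simp, by rw [h0]; simp⟩
    · refine ⟨(starRingEnd 𝕜) (aK 𝕜 P Q i f) / (‖aK 𝕜 P Q i f‖ : ℝ), ?_, ?_⟩
      · rw [norm_div, RCLike.norm_conj, RCLike.norm_ofReal, abs_norm, div_self]
        exact (norm_pos_iff.2 h0).ne'
      · have hn : ((‖aK 𝕜 P Q i f‖ : ℝ) : 𝕜) ≠ 0 := by
          rw [RCLike.ofReal_ne_zero]; exact (norm_pos_iff.2 h0).ne'
        rw [div_mul_eq_mul_div, RCLike.conj_mul, pow_two, mul_div_assoc, div_self hn, mul_one]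
  choose θ hθ1 hθ2 using hθ
  have h1 : ((∑ i ∈ A, ‖aK 𝕜 P Q i f‖ : ℝ) : 𝕜) = pairK 𝕜 P Q (∑ i ∈ A, θ i • hK 𝕜 Q i) f := by
    rw [map_sum, RCLike.ofReal_sum, ContinuousLinearMap.sum_apply]
    apply sum_congr rfl
    intro i _
    rw [map_smul, ContinuousLinearMap.smul_apply, smul_eq_mul, ← hθ2 i]
    rfl
  have h2 : ∑ i ∈ A, ‖aK 𝕜 P Q i f‖ = ‖((∑ i ∈ A, ‖aK 𝕜 P Q i f‖ : ℝ) : 𝕜)‖ := by
    rw [RCLike.norm_ofReal, abs_of_nonneg]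
    exact sum_nonneg fun i _ => norm_nonneg _
  rw [h2, h1]
  calc _ ≤ ‖pairK 𝕜 P Q‖ * ‖∑ i ∈ A, θ i • hK 𝕜 Q i‖ * ‖f‖ :=
        ContinuousLinearMap.le_opNorm₂ _ _ _
    _ ≤ ‖pairK 𝕜 P Q‖ * (C * (A.card : ℝ) ^ (1 / Q.toReal)) * ‖f‖ := by
        gcongr
        exact h A θ hθ1
    _ = _ := by ring

instance : Infinite Idx :=
  Infinite.of_injective (fun n : ℕ => (some ⟨n, ⟨0, by positivity⟩⟩ : Idx)) (by
    intro n m h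
    rw [Option.some_inj, Sigma.mk.injEq] at h
    exact h.1)

/-- The 1-greedy norm on `L_p`. -/
theorem main [Fact (1 ≤ P)] [Fact (1 ≤ Q)] [ENNReal.HolderConjugate Q P] (hP : 1 < P.toReal)
    (hQ : 1 < Q.toReal) (hPQ : 1 / P.toReal + 1 / Q.toReal = 1) :
    ∃ N : Lp 𝕜 P mu → ℝ, (∀ f g, N (f + g) ≤ N f + N g) ∧
      (∀ (c : 𝕜) f, N (c • f) = ‖c‖ * N f) ∧
      (∃ c C : ℝ, 0 < c ∧ ∀ f, c * ‖f‖ ≤ N f ∧ N f ≤ C * ‖f‖) ∧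
      ∀ (f : Lp 𝕜 P mu) (G B : Finset Idx),
        (∀ i ∈ G, ∀ j, j ∉ G → ‖aK 𝕜 P Q j f‖ ≤ ‖aK 𝕜 P Q i f‖) → B.card ≤ G.card →
        ∀ b : Idx → 𝕜, N (f - ∑ i ∈ G, aK 𝕜 P Q i f • hK 𝕜 P i) ≤
          N (f - ∑ i ∈ B, b i • hK 𝕜 P i) := by
  classical
  obtain ⟨K, hK0, hunc⟩ := unc_K (P := P) (Q := Q) 𝕜 hP hPQ
  obtain ⟨C, hC, hdem⟩ := dem_K (P := P) 𝕜 hP
  obtain ⟨D, hD, hdual⟩ := dual_K (P := P) (Q := Q) 𝕜 hQ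
  set r : ℝ := 1 / P.toReal with hr
  have hP0 : 0 < P.toReal := by linarith
  have hr0 : 0 < r := by positivity
  have hr1 : r < 1 := by rw [hr, div_lt_one hP0]; exact hP
  have hrQ : 1 / Q.toReal = 1 - r := by linarith
  rw [hrQ] at hdual
  have hCr : 0 < C ^ (1 / (1 - r)) := Real.rpow_pos_of_pos hC _
  set δ : ℝ := r / (2 * (1 + C ^ (1 / (1 - r)))) with hδ
  have hδ0 : 0 < δ := by positivity
  have hδ2 : δ * (2 * (1 + C ^ (1 / (1 - r)))) ≤ r := by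
    rw [hδ, div_mul_cancel₀]
    positivity
  have hdem' : ∀ A : Finset Idx, ‖∑ i ∈ A, hK 𝕜 P i‖ ≤ C * (A.card : ℝ) ^ r := by
    intro A
    have := hdem A (fun _ => 1) (fun _ => by simp)
    simpa using this
  have hnorm : ∀ i, ‖hK 𝕜 P i‖ ≤ C := by
    intro i
    have := hdem' {i}
    simpa using this
  have hsum := hasSum_K (P := P) (Q := Q) 𝕜 hP hPQ
  have hbi := bi_K (P := P) (Q := Q) 𝕜 hPQ
  refine ⟨OneGreedy.gnorm (aK 𝕜 P Q) r δ, OneGreedy.gnorm_add_le hδ0.le hdual,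
    OneGreedy.gnorm_smul hδ0.le hdual, ⟨δ / max K C, D + δ, ?_, fun f => ⟨?_, ?_⟩⟩, ?_⟩
  · have : 0 < max K C := lt_max_of_lt_left hK0
    positivity
  · exact OneGreedy.le_gnorm_norm hδ0.le hC hK0 hnorm hdual hunc hsum f
  · exact OneGreedy.gnorm_le hδ0.le hdual f
  · intro f G B hG hBG b
    exact OneGreedy.gnorm_greedy hr0 hr1 hbi hC hdem' hδ0.le hδ2 hdual f G B hG hBG b

end Pool.Agent.L5helper81.HaarG
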