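import Mathlib

/-!
An equivalent locally uniformly convex norm on `ℓ¹` and a functional which does not attain its norm.
-/

open Filter Topology ENNReal

namespace Pool.Agent.L5helper81.LUC

abbrev L1 := lp (fun _ : ℕ => ℝ) 1
abbrev L2 := lp (fun _ : ℕ => ℝ) 2
abbrev V := WithLp 2 (L1 × L2)

theorem hasSum_abs (x : L1) : HasSum (fun n => |x n|) ‖x‖ := by
  have h := lp.hasSum_norm (p := 1) (by simp) x
  simpa using h

/-- The graph of the inclusion of `ℓ¹` into `ℓ²`. -/
def S : Submodule ℝ V where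
  carrier := {z | ∀ n, z.fst n = z.snd n}
  add_mem' := by
    intro a b ha hb n
    have h1 := ha n
    have h2 := hb n
    simp only [WithLp.add_fst, WithLp.add_snd, lp.coeFn_add, Pi.add_apply, h1, h2]
  zero_mem' := by intro n; simp
  smul_mem' := by
    intro c a ha n
    have h1 := ha n
    simp only [WithLp.smul_fst, WithLp.smul_snd, lp.coeFn_smul, Pi.smul_apply, h1]

theorem continuous_eval1 (n : ℕ) : Continuous fun x : L1 => x n :=
  (lp.lipschitzWith_one_eval (E := fun _ : ℕ => ℝ) 1 n).continuous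

theorem continuous_eval2 (n : ℕ) : Continuous fun x : L2 => x n :=
  (lp.lipschitzWith_one_eval (E := fun _ : ℕ => ℝ) 2 n).continuous

theorem isClosed_S : IsClosed (S : Set V) := by
  have : (S : Set V) = ⋂ n, {z : V | z.fst n = z.snd n} := by
    ext z
    rw [Set.mem_iInter]
    exact Iff.rfl
  rw [this]
  refine isClosed_iInter fun n => isClosed_eq ?_ ?_
  · exact (continuous_eval1 n).comp (WithLp.continuous_fst _ _ _)
  · exact (continuous_eval2 n).comp (WithLp.continuous_snd _ _ _)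

abbrev E := ↥S

instance : CompleteSpace E := isClosed_S.completeSpace_coe

theorem norm_sq (x : E) : ‖x‖ ^ 2 = ‖x.1.fst‖ ^ 2 + ‖x.1.snd‖ ^ 2 := by
  have : ‖x‖ = ‖x.1‖ := rfl
  rw [this, WithLp.prod_norm_sq_eq_of_L2]

/-- Coefficients of the functional. -/
noncomputable def c (n : ℕ) : ℝ := 1 - 1 / ((n : ℝ) + 2)

theorem c_pos (n : ℕ) : 0 < c n := by
  unfold c
  have : 1 / ((n : ℝ) + 2) ≤ 1 / 2 := by
    apply one_div_le_one_div_of_le <;> linarith [Nat.cast_nonneg (α := ℝ) n]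
  linarith

theorem c_lt_one (n : ℕ) : c n < 1 := by
  unfold c
  have : 0 < 1 / ((n : ℝ) + 2) := by positivity
  linarith

theorem summable_c (x : L1) : Summable fun n => c n * x n := by
  refine Summable.of_norm_bounded (g := fun n => |x n|) (hasSum_abs x).summable fun n => ?_
  rw [Real.norm_eq_abs, abs_mul, abs_of_pos (c_pos n)]
  nlinarith [abs_nonneg (x n), c_lt_one n]

theorem abs_tsum_le (x : L1) : |∑' n, c n * x n| ≤ ∑' n, c n * |x n| := by
  have h1 : Summable fun n => c n * |x n| := by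
    have := (summable_c x).abs
    refine this.congr fun n => ?_
    rw [abs_mul, abs_of_pos (c_pos n)]
  have h2 := norm_tsum_le_tsum_norm (f := fun n => c n * x n) (by simpa using (summable_c x).abs)
  refine h2.trans (le_of_eq ?_)
  refine tsum_congr fun n => ?_
  rw [Real.norm_eq_abs, abs_mul, abs_of_pos (c_pos n)]

theorem summable_c_abs (x : L1) : Summable fun n => c n * |x n| := by
  have := (summable_c x).abs
  refine this.congr fun n => ?_
  rw [abs_mul, abs_of_pos (c_pos n)]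

noncomputable def F : L1 →L[ℝ] ℝ :=
  LinearMap.mkContinuous
    { toFun := fun x => ∑' n, c n * x n
      map_add' := by
        intro x y
        rw [← (summable_c x).tsum_add (summable_c y)]
        refine tsum_congr fun n => ?_
        simp only [lp.coeFn_add, Pi.add_apply]
        ring
      map_smul' := by
        intro r x
        simp only [lp.coeFn_smul, Pi.smul_apply, smul_eq_mul, RingHom.id_apply]
        rw [← tsum_mul_left]
        refine tsum_congr fun n => ?_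
        ring } 1 (by
      intro x
      rw [Real.norm_eq_abs, one_mul]
      refine (abs_tsum_le x).trans ?_
      rw [← (hasSum_abs x).tsum_eq]
      refine (summable_c_abs x).tsum_le_tsum (fun n => ?_) (hasSum_abs x).summable
      nlinarith [abs_nonneg (x n), c_lt_one n])

theorem F_apply (x : L1) : F x = ∑' n, c n * x n := rfl

theorem F_lt {x : L1} (hx : x ≠ 0) : |F x| < ‖x‖ := by
  obtain ⟨n, hn⟩ : ∃ n, x n ≠ 0 := by
    by_contra h
    push Not at h
    exact hx (lp.ext (funext h))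
  rw [F_apply]
  refine (abs_tsum_le x).trans_lt ?_
  rw [← (hasSum_abs x).tsum_eq]
  refine Summable.tsum_lt_tsum (i := n) (fun m => ?_) ?_ (summable_c_abs x) (hasSum_abs x).summable
  · nlinarith [abs_nonneg (x m), c_lt_one m]
  · nlinarith [abs_pos.2 hn, c_lt_one n]

/-- The functional on `E`. -/
noncomputable def f : E →L[ℝ] ℝ := F.comp ((WithLp.fstL 2 ℝ L1 L2).comp S.subtypeL)

theorem f_apply (x : E) : f x = F x.1.fst := rfl

theorem f_lt {x : E} (hx : x ≠ 0) : |f x| < ‖x‖ := by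
  have h1 : x.1.fst ≠ 0 := by
    intro h0
    apply hx
    have h2 : x.1.snd = 0 := by
      apply lp.ext
      funext n
      rw [← x.2 n, h0]
      rfl
    have h3 := norm_sq x
    rw [h0, h2] at h3
    simp at h3
    exact h3
  have h2 : |f x| < ‖x.1.fst‖ := by rw [f_apply]; exact F_lt h1
  have h3 : ‖x.1.fst‖ ≤ ‖x‖ := by
    have := norm_sq x
    have h4 : ‖x.1.fst‖ ^ 2 ≤ ‖x‖ ^ 2 := by nlinarith [sq_nonneg ‖x.1.snd‖]
    exact (sq_le_sq₀ (norm_nonneg _) (norm_nonneg _)).1 h4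
  linarith

/-- The averages of unit vectors. -/
noncomputable def avg (N : ℕ) : ℕ → ℝ := fun n => if n ∈ Finset.Ico N (2 * N) then 1 / (N : ℝ) else 0

theorem avg_mem (N : ℕ) (p : ℝ≥0∞) : Memℓp (avg N) p := by
  by_cases hp : p = 0
  · subst hp
    refine memℓp_zero ((Finset.Ico N (2 * N)).finite_toSet.subset fun n hn => ?_)
    by_contra h
    apply hn
    simp only [avg]
    rw [if_neg (by simpa using h)]
  · have : Memℓp (avg N) 0 := by
      refine memℓp_zero ((Finset.Ico N (2 * N)).finite_toSet.subset fun n hn => ?_)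
      by_contra h
      apply hn
      simp only [avg]
      rw [if_neg (by simpa using h)]
    exact this.of_exponent_ge (by simp)

noncomputable def avgE (N : ℕ) : E :=
  ⟨WithLp.toLp 2 ((⟨avg N, avg_mem N 1⟩ : L1), (⟨avg N, avg_mem N 2⟩ : L2)), fun _ => rfl⟩

theorem norm_avg1 {N : ℕ} (hN : 0 < N) : ‖(⟨avg N, avg_mem N 1⟩ : L1)‖ = 1 := by
  have hN' : (0 : ℝ) < N := by exact_mod_cast hN
  rw [← (hasSum_abs _).tsum_eq]
  rw [tsum_eq_sum (s := Finset.Ico N (2 * N))]
  · have : ∀ n ∈ Finset.Ico N (2 * N), |(⟨avg N, avg_mem N 1⟩ : L1) n| = 1 / (N : ℝ) := by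
      intro n hn
      change |avg N n| = _
      simp only [avg, if_pos hn]
      exact abs_of_pos (by positivity)
    rw [Finset.sum_congr rfl this]
    simp only [Finset.sum_const, Nat.card_Ico, nsmul_eq_mul]
    have : 2 * N - N = N := by omega
    rw [this]
    field_simp
  · intro n hn
    change |avg N n| = 0
    simp only [avg, if_neg hn, abs_zero]

theorem norm_avg2 {N : ℕ} (hN : 0 < N) : ‖(⟨avg N, avg_mem N 2⟩ : L2)‖ ^ 2 = 1 / (N : ℝ) := by
  have hN' : (0 : ℝ) < N := by exact_mod_cast hN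
  have h := lp.hasSum_norm (p := 2) (by simp) (⟨avg N, avg_mem N 2⟩ : L2)
  simp only [ENNReal.toReal_ofNat, Real.rpow_ofNat] at h
  rw [← h.tsum_eq]
  rw [tsum_eq_sum (s := Finset.Ico N (2 * N))]
  · have : ∀ n ∈ Finset.Ico N (2 * N), ‖(⟨avg N, avg_mem N 2⟩ : L2) n‖ ^ 2 = 1 / (N : ℝ) ^ 2 := by
      intro n hn
      change ‖avg N n‖ ^ 2 = _
      simp only [avg, if_pos hn]
      rw [Real.norm_eq_abs, sq_abs]
      ring
    rw [Finset.sum_congr rfl this]
    simp only [Finset.sum_const, Nat.card_Ico, nsmul_eq_mul]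
    have : 2 * N - N = N := by omega
    rw [this]
    field_simp
  · intro n hn
    change ‖avg N n‖ ^ 2 = 0
    simp only [avg, if_neg hn]
    simp

theorem norm_avgE {N : ℕ} (hN : 0 < N) : ‖avgE N‖ ^ 2 = 1 + 1 / (N : ℝ) := by
  rw [norm_sq]
  have h1 : ‖(avgE N).1.fst‖ = 1 := norm_avg1 hN
  have h2 : ‖(avgE N).1.snd‖ ^ 2 = 1 / (N : ℝ) := norm_avg2 hN
  rw [h1, h2]
  ring

theorem f_avgE {N : ℕ} (hN : 0 < N) : 1 - 1 / (N : ℝ) ≤ f (avgE N) := by
  have hN' : (0 : ℝ) < N := by exact_mod_cast hN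
  rw [f_apply, F_apply]
  have h0 : ∀ n, (avgE N).1.fst n = avg N n := fun n => rfl
  simp only [h0]
  rw [tsum_eq_sum (s := Finset.Ico N (2 * N))]
  · have : ∀ n ∈ Finset.Ico N (2 * N), (1 - 1 / (N : ℝ)) * (1 / N) ≤ c n * avg N n := by
      intro n hn
      simp only [avg, if_pos hn]
      have h1 : N ≤ n := (Finset.mem_Ico.1 hn).1
      have h1' : (N : ℝ) ≤ n := by exact_mod_cast h1
      have h2 : 1 / ((n : ℝ) + 2) ≤ 1 / N := one_div_le_one_div_of_le hN' (by linarith)
      have h3 : 0 < 1 / (N : ℝ) := by positivity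
      unfold c
      nlinarith
    have h2 := Finset.sum_le_sum this
    refine le_trans (le_of_eq ?_) h2
    simp only [Finset.sum_const, Nat.card_Ico, nsmul_eq_mul]
    have : 2 * N - N = N := by omega
    rw [this]
    field_simp
  · intro n hn
    simp only [avg, if_neg hn, mul_zero]

theorem exists_ratio {r : ℝ} (hr : r < 1) : ∃ z : E, r * ‖z‖ < f z := by
  by_cases hr0 : r < 0
  · refine ⟨avgE 1, ?_⟩
    have h1 := f_avgE (N := 1) one_pos
    have h2 := norm_avgE (N := 1) one_pos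
    have h3 : 0 < ‖avgE 1‖ := by
      rcases (norm_nonneg (avgE 1)).eq_or_lt with h | h
      · rw [← h] at h2; norm_num at h2
      · exact h
    have h4 : r * ‖avgE 1‖ < 0 := mul_neg_of_neg_of_pos hr0 h3
    norm_num at h1
    linarith
  · push Not at hr0
    -- choose N large
    have ht : Tendsto (fun N : ℕ => (1 - 1 / (N : ℝ)) ^ 2 - r ^ 2 * (1 + 1 / (N : ℝ))) atTop
        (𝓝 ((1 - 0) ^ 2 - r ^ 2 * (1 + 0))) := by
      have h := tendsto_one_div_atTop_nhds_zero_nat (𝕜 := ℝ)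
      exact ((tendsto_const_nhds.sub h).pow 2).sub (tendsto_const_nhds.mul (tendsto_const_nhds.add h))
    have hpos : (0 : ℝ) < (1 - 0) ^ 2 - r ^ 2 * (1 + 0) := by nlinarith
    obtain ⟨N, hN, hN1⟩ := ((ht.eventually (lt_mem_nhds hpos)).and (eventually_gt_atTop 1)).exists
    refine ⟨avgE N, ?_⟩
    have hN0 : 0 < N := by omega
    have h1 := f_avgE hN0
    have h2 := norm_avgE hN0
    have hN' : (1 : ℝ) < N := by exact_mod_cast hN1
    have h3 : 0 < 1 - 1 / (N : ℝ) := by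
      have : 1 / (N : ℝ) < 1 := by
        rw [div_lt_one (by linarith)]; exact hN'
      linarith
    have h4 : (r * ‖avgE N‖) ^ 2 < (1 - 1 / (N : ℝ)) ^ 2 := by
      rw [mul_pow, h2]; linarith
    have h5 : r * ‖avgE N‖ < 1 - 1 / (N : ℝ) := lt_of_pow_lt_pow_left₀ 2 h3.le h4
    linarith

/-- The kernel of the functional. -/
def G : Set E := {x | f x = 0}

theorem isClosed_G : IsClosed G := isClosed_eq f.continuous continuous_const

theorem no_nearest {x y : E} (hy : y ∈ G) (hxy : dist x y = Metric.infDist x G) : x ∈ G := by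
  by_contra hx
  have hfx : f x ≠ 0 := hx
  have hne : x - y ≠ 0 := by
    intro h
    rw [sub_eq_zero] at h
    exact hx (h ▸ hy)
  have hnpos : 0 < ‖x - y‖ := norm_pos_iff.2 hne
  have h1 : |f (x - y)| < ‖x - y‖ := f_lt hne
  have hfy : f y = 0 := hy
  rw [map_sub, hfy, sub_zero] at h1
  obtain ⟨z, hz⟩ := exists_ratio (r := |f x| / ‖x - y‖) (by rwa [div_lt_one hnpos])
  have hfz : 0 < f z := lt_of_le_of_lt (by positivity) hz
  set g : E := x - (f x / f z) • z with hg
  have hgG : g ∈ G := by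
    change f g = 0
    rw [hg, map_sub, map_smul, smul_eq_mul]
    field_simp
    ring
  have h2 : Metric.infDist x G ≤ dist x g := Metric.infDist_le_dist_of_mem hgG
  have h3 : dist x g = |f x| / f z * ‖z‖ := by
    have e0 : x - g = (f x / f z) • z := by rw [hg]; abel
    rw [dist_eq_norm, e0, norm_smul, Real.norm_eq_abs, abs_div, abs_of_pos hfz]
  rw [← hxy, h3, dist_eq_norm] at h2
  rw [div_mul_eq_mul_div, div_lt_iff₀ hnpos] at hz
  rw [div_mul_eq_mul_div, le_div_iff₀ hfz] at h2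
  nlinarith

theorem f_ne_zero : f ≠ 0 := by
  intro h
  obtain ⟨z, hz⟩ := exists_ratio (r := 0) one_pos
  rw [h] at hz
  simp at hz

theorem isMeagre_G : IsMeagre G := by
  refine IsNowhereDense.isMeagre ?_
  rw [isClosed_G.isNowhereDense_iff]
  rw [Set.eq_empty_iff_forall_notMem]
  intro x hx
  -- translate
  have h1 : ∃ z, f z ≠ 0 := by
    by_contra h
    push Not at h
    exact f_ne_zero (ContinuousLinearMap.ext h)
  obtain ⟨z, hz⟩ := h1
  rw [mem_interior_iff_mem_nhds] at hx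
  have h2 : Tendsto (fun t : ℝ => x + t • z) (𝓝[≠] 0) (𝓝 x) := by
    have : Tendsto (fun t : ℝ => x + t • z) (𝓝 0) (𝓝 (x + (0 : ℝ) • z)) := by
      refine Continuous.tendsto ?_ 0
      fun_prop
    rw [zero_smul, add_zero] at this
    exact this.mono_left nhdsWithin_le_nhds
  obtain ⟨t, ht, ht0⟩ := ((h2.eventually hx).and self_mem_nhdsWithin).exists
  have h3 : f x = 0 := by
    have : x ∈ G := mem_of_mem_nhds hx
    exact this
  have h4 : f (x + t • z) = 0 := ht
  rw [map_add, map_smul, h3, zero_add, smul_eq_mul] at h4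
  rcases mul_eq_zero.1 h4 with h5 | h5
  · exact ht0 h5
  · exact hz h5

theorem setOf_unique_eq : {x : E | ∃! y : E, y ∈ G ∧ dist x y = Metric.infDist x G} ⊆ G := by
  rintro x ⟨y, ⟨hy1, hy2⟩, -⟩
  exact no_nearest hy1 hy2

/-! ### local uniform convexity -/

/-- Scheffe type lemma in `ℓ¹`. -/
theorem tendsto_of_coord {x : L1} {y : ℕ → L1} (h1 : ∀ n, Tendsto (fun k => y k n) atTop (𝓝 (x n)))
    (h2 : Tendsto (fun k => ‖y k‖) atTop (𝓝 ‖x‖)) : Tendsto (fun k => ‖x - y k‖) atTop (𝓝 0) := by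
  rw [Metric.tendsto_atTop]
  intro ε hε
  have hs := (hasSum_abs x).tendsto_sum_nat
  obtain ⟨N, hN⟩ := (Metric.tendsto_atTop.1 hs (ε / 8) (by positivity))
  have hN1 := hN N le_rfl
  rw [Real.dist_eq] at hN1
  have hle : ∀ w : L1, ‖w‖ = ∑ i ∈ Finset.range N, |w i| + ∑' i, |w (i + N)| := by
    intro w
    rw [← (hasSum_abs w).tsum_eq, (hasSum_abs w).summable.sum_add_tsum_nat_add]
  have h3 : Tendsto (fun k => ∑ i ∈ Finset.range N, |y k i|) atTop (𝓝 (∑ i ∈ Finset.range N, |x i|)) :=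
    tendsto_finsetSum _ fun i _ => (h1 i).abs
  have h4 : Tendsto (fun k => ∑ i ∈ Finset.range N, |(x - y k) i|) atTop (𝓝 0) := by
    have : Tendsto (fun k => ∑ i ∈ Finset.range N, |x i - y k i|) atTop
        (𝓝 (∑ i ∈ Finset.range N, |x i - x i|)) :=
      tendsto_finsetSum _ fun i _ => (tendsto_const_nhds.sub (h1 i)).abs
    simp only [sub_self, abs_zero, Finset.sum_const_zero] at this
    exact this
  obtain ⟨N1, hN1'⟩ := Metric.tendsto_atTop.1 h2 (ε / 8) (by positivity)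
  obtain ⟨N2, hN2⟩ := Metric.tendsto_atTop.1 h3 (ε / 8) (by positivity)
  obtain ⟨N3, hN3⟩ := Metric.tendsto_atTop.1 h4 (ε / 8) (by positivity)
  refine ⟨max N1 (max N2 N3), fun k hk => ?_⟩
  have e1 := hN1' k (le_trans (le_max_left _ _) hk)
  have e2 := hN2 k (le_trans (le_trans (le_max_left _ _) (le_max_right _ _)) hk)
  have e3 := hN3 k (le_trans (le_trans (le_max_right _ _) (le_max_right _ _)) hk)
  rw [Real.dist_eq] at e1 e2 e3 ⊢
  rw [sub_zero] at e3 ⊢
  rw [abs_of_nonneg (norm_nonneg _)]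
  have g1 := hle x
  have g2 := hle (y k)
  have g3 := hle (x - y k)
  have sx : Summable fun i => |x (i + N)| := (summable_nat_add_iff N).2 (hasSum_abs x).summable
  have sy : Summable fun i => |y k (i + N)| := (summable_nat_add_iff N).2 (hasSum_abs (y k)).summable
  have sxy : Summable fun i => |(x - y k) (i + N)| :=
    (summable_nat_add_iff N).2 (hasSum_abs (x - y k)).summable
  have g4 : ∑' i, |(x - y k) (i + N)| ≤ ∑' i, |x (i + N)| + ∑' i, |y k (i + N)| := by
    rw [← sx.tsum_add sy]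
    refine sxy.tsum_le_tsum (fun i => ?_) (sx.add sy)
    simp only [lp.coeFn_sub, Pi.sub_apply]
    exact abs_sub _ _
  have a1 := abs_lt.1 hN1
  have a2 := abs_lt.1 e1
  have a3 := abs_lt.1 e2
  have a4 := abs_lt.1 e3
  linarith [a1.1, a1.2, a2.1, a2.2, a3.1, a3.2, a4.1, a4.2]

theorem luc (x : E) (hx : ‖x‖ = 1) (ε : ℝ) (hε : 0 < ε) : ∃ δ : ℝ, 0 < δ ∧
    ∀ y : E, ‖y‖ = 1 → ε ≤ ‖x - y‖ → ‖x + y‖ ≤ 2 - 2 * δ := by
  by_contra hcon
  push Not at hcon
  have hex : ∀ k : ℕ, ∃ y : E, ‖y‖ = 1 ∧ ε ≤ ‖x - y‖ ∧ 2 - 2 * (1 / ((k : ℝ) + 1)) < ‖x + y‖ :=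
    fun k => hcon _ (by positivity)
  choose y hy1 hy2 hy3 using hex
  have hxy : Tendsto (fun k => ‖x + y k‖) atTop (𝓝 2) := by
    have h1 : Tendsto (fun k : ℕ => 2 - 2 * (1 / ((k : ℝ) + 1))) atTop (𝓝 2) := by
      have := tendsto_one_div_add_atTop_nhds_zero_nat (𝕜 := ℝ)
      have h := (tendsto_const_nhds (x := (2 : ℝ))).sub (this.const_mul 2)
      simpa using h
    refine tendsto_of_tendsto_of_tendsto_of_le_of_le h1 tendsto_const_nhds (fun k => (hy3 k).le) fun k => ?_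
    have := norm_add_le x (y k)
    rw [hx, hy1 k] at this
    linarith
  -- deficit
  have hdef : Tendsto (fun k => 2 * ‖x‖ ^ 2 + 2 * ‖y k‖ ^ 2 - ‖x + y k‖ ^ 2) atTop (𝓝 0) := by
    have h := (hxy.pow 2)
    have h2 : Tendsto (fun k => 2 * ‖x‖ ^ 2 + 2 * ‖y k‖ ^ 2 - ‖x + y k‖ ^ 2) atTop
        (𝓝 (2 * 1 ^ 2 + 2 * 1 ^ 2 - 2 ^ 2)) := by
      simp only [hx, hy1]
      exact tendsto_const_nhds.sub h
    norm_num at h2
    exact h2
  have hsplit : ∀ k, 2 * ‖x‖ ^ 2 + 2 * ‖y k‖ ^ 2 - ‖x + y k‖ ^ 2 =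
      (2 * ‖x.1.fst‖ ^ 2 + 2 * ‖(y k).1.fst‖ ^ 2 - ‖x.1.fst + (y k).1.fst‖ ^ 2) +
      ‖x.1.snd - (y k).1.snd‖ ^ 2 := by
    intro k
    have e1 := norm_sq x
    have e2 := norm_sq (y k)
    have e3 := norm_sq (x + y k)
    have e4 : (x + y k).1.fst = x.1.fst + (y k).1.fst := rfl
    have e5 : (x + y k).1.snd = x.1.snd + (y k).1.snd := rfl
    rw [e4, e5] at e3
    have e6 := parallelogram_law_with_norm ℝ x.1.snd (y k).1.snd
    nlinarith
  have hfst : ∀ k, (‖x.1.fst‖ - ‖(y k).1.fst‖) ^ 2 ≤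
      2 * ‖x.1.fst‖ ^ 2 + 2 * ‖(y k).1.fst‖ ^ 2 - ‖x.1.fst + (y k).1.fst‖ ^ 2 := by
    intro k
    have e1 := norm_add_le x.1.fst (y k).1.fst
    have e2 : ‖x.1.fst + (y k).1.fst‖ ^ 2 ≤ (‖x.1.fst‖ + ‖(y k).1.fst‖) ^ 2 :=
      pow_le_pow_left₀ (norm_nonneg _) e1 2
    nlinarith
  have t1 : Tendsto (fun k => ‖x.1.snd - (y k).1.snd‖ ^ 2) atTop (𝓝 0) := by
    refine tendsto_of_tendsto_of_tendsto_of_le_of_le tendsto_const_nhds hdef (fun k => by positivity)
      fun k => ?_
    rw [hsplit k]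
    nlinarith [hfst k, sq_nonneg (‖x.1.fst‖ - ‖(y k).1.fst‖)]
  have t2 : Tendsto (fun k => (‖x.1.fst‖ - ‖(y k).1.fst‖) ^ 2) atTop (𝓝 0) := by
    refine tendsto_of_tendsto_of_tendsto_of_le_of_le tendsto_const_nhds hdef (fun k => by positivity)
      fun k => ?_
    rw [hsplit k]
    nlinarith [hfst k, sq_nonneg ‖x.1.snd - (y k).1.snd‖]
  have t1' : Tendsto (fun k => ‖x.1.snd - (y k).1.snd‖) atTop (𝓝 0) := by
    have := t1.sqrt
    simpa [Real.sqrt_sq] using this
  have t2' : Tendsto (fun k => ‖(y k).1.fst‖) atTop (𝓝 ‖x.1.fst‖) := by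
    have := t2.sqrt
    simp only [Real.sqrt_sq_eq_abs, Real.sqrt_zero] at this
    have h := (tendsto_zero_iff_abs_tendsto_zero _).2 this
    have h2 := (tendsto_const_nhds (x := ‖x.1.fst‖)).sub h
    simpa using h2
  have t3 : ∀ n, Tendsto (fun k => (y k).1.fst n) atTop (𝓝 (x.1.fst n)) := by
    intro n
    have h : ∀ k, |x.1.fst n - (y k).1.fst n| ≤ ‖x.1.snd - (y k).1.snd‖ := by
      intro k
      rw [x.2 n, (y k).2 n]
      have := lp.norm_apply_le_norm (p := 2) (by simp) (x.1.snd - (y k).1.snd) n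
      simpa using this
    have h2 : Tendsto (fun k => x.1.fst n - (y k).1.fst n) atTop (𝓝 0) :=
      squeeze_zero_norm (fun k => by rw [Real.norm_eq_abs]; exact h k) t1'
    have h3 := (tendsto_const_nhds (x := x.1.fst n)).sub h2
    simpa using h3
  have t4 := tendsto_of_coord t3 t2'
  have t5 : Tendsto (fun k => ‖x - y k‖ ^ 2) atTop (𝓝 0) := by
    have e : ∀ k, ‖x - y k‖ ^ 2 = ‖x.1.fst - (y k).1.fst‖ ^ 2 + ‖x.1.snd - (y k).1.snd‖ ^ 2 :=
      fun k => norm_sq (x - y k)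
    simp only [e]
    have := (t4.pow 2).add t1
    simpa using this
  have t6 : ε ^ 2 ≤ 0 := by
    refine ge_of_tendsto' t5 fun k => ?_
    exact pow_le_pow_left₀ hε.le (hy2 k) 2
  nlinarith

end Pool.Agent.L5helper81.LUC
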